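import Pool.Agent.MP_a96b63_al.Sieve

/-!
Applications of the sieve: primes in progressions and prime pairs.
-/

set_option autoImplicit false

namespace Pool.Agent.MP_a96b63_al

open Finset

/-- The truncated sums of the sieve. -/
noncomputable def GG (P : Finset ℕ) (x : ℕ → ℝ) (z : ℕ) : ℝ :=
  ∑ S ∈ P.powerset with ∏ q ∈ S, q ≤ z, ∏ q ∈ S, x q

lemma GG_insert {P : Finset ℕ} {q : ℕ} (hq : q ∉ P) (h0 : 0 < q) (x : ℕ → ℝ) (z : ℕ) :
    GG (insert q P) x z = GG P x z + x q * GG P x (z / q) := by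
  unfold GG
  simp only [sum_filter]
  rw [sum_powerset_insert hq, mul_sum]
  congr 1
  refine sum_congr rfl fun S hS => ?_
  have h1 : q ∉ S := fun h => hq (mem_powerset.mp hS h)
  simp only [prod_insert h1, Nat.le_div_iff_mul_le h0, mul_comm q, mul_ite, mul_zero]

lemma GG_nonneg {P : Finset ℕ} {x : ℕ → ℝ} (hx : ∀ q ∈ P, 0 ≤ x q) (z : ℕ) : 0 ≤ GG P x z :=
  sum_nonneg fun _ hS => prod_nonneg fun q hq => hx q (mem_powerset.mp (mem_filter.mp hS).1 hq)

lemma GG_mono {P : Finset ℕ} {x x' : ℕ → ℝ} (hx : ∀ q ∈ P, 0 ≤ x q) (hx' : ∀ q ∈ P, x q ≤ x' q)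
    {z z' : ℕ} (hz : z ≤ z') : GG P x z ≤ GG P x' z' := by
  refine le_trans (sum_le_sum fun S hS => prod_le_prod
    (fun q hq => hx q (mem_powerset.mp (mem_filter.mp hS).1 hq))
    fun q hq => hx' q (mem_powerset.mp (mem_filter.mp hS).1 hq))
    (sum_le_sum_of_subset_of_nonneg (fun S hS => ?_) fun S hS _ => prod_nonneg fun q hq => ?_)
  · exact mem_filter.mpr ⟨(mem_filter.mp hS).1, (mem_filter.mp hS).2.trans hz⟩
  · have := mem_powerset.mp (mem_filter.mp hS).1 hq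
    exact (hx q this).trans (hx' q this)

lemma GG_mul (P : Finset ℕ) (hP : ∀ q ∈ P, 0 < q) (x : ℕ → ℝ) (hx : ∀ q ∈ P, 0 ≤ x q) (z z' : ℕ) :
    GG P x z * GG P x z' ≤ GG P (fun q => 2 * x q + x q ^ 2) (z * z') := by
  induction P using Finset.induction_on generalizing z z' with
  | empty =>
    simp only [GG, powerset_empty, sum_filter, sum_singleton, prod_empty]
    split_ifs with h1 h2 h3 <;> first | exact absurd (Nat.mul_le_mul h1 h2) h3 | simp
  | insert q P hq ih =>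
    have h1 := fun p hp => hP p (mem_insert_of_mem hp)
    have h2 := fun p hp => hx p (mem_insert_of_mem hp)
    have h3 := hP q (mem_insert_self _ _)
    have h4 := hx q (mem_insert_self _ _)
    have h5 : ∀ p ∈ P, 0 ≤ 2 * x p + x p ^ 2 := fun p hp => by have := h2 p hp; positivity
    rw [GG_insert hq h3, GG_insert hq h3, GG_insert hq h3]
    have a1 := ih h1 h2 z z'
    have a2 := (ih h1 h2 (z / q) z').trans (GG_mono h5 (fun _ _ => le_rfl)
      (show z / q * z' ≤ z * z' / q by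
        rw [mul_comm, mul_comm z]; exact Nat.mul_div_le_mul_div_assoc _ _ _))
    have a3 := (ih h1 h2 z (z' / q)).trans (GG_mono h5 (fun _ _ => le_rfl)
      (Nat.mul_div_le_mul_div_assoc z z' q))
    have a4 := (ih h1 h2 (z / q) (z' / q)).trans (GG_mono h5 (fun _ _ => le_rfl)
      (le_trans (Nat.mul_le_mul_right _ (Nat.div_le_self z q))
        (Nat.mul_div_le_mul_div_assoc z z' q)))
    have b2 := mul_le_mul_of_nonneg_left a2 h4
    have b3 := mul_le_mul_of_nonneg_left a3 h4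
    have b4 := mul_le_mul_of_nonneg_left a4 (sq_nonneg (x q))
    nlinarith

lemma GG_union (P R : Finset ℕ) (hd : Disjoint P R) (hR : ∀ q ∈ R, 0 < q) (x : ℕ → ℝ)
    (hx : ∀ q ∈ P ∪ R, 0 ≤ x q) (z : ℕ) :
    GG (P ∪ R) x z ≤ GG P x z * ∏ q ∈ R, (1 + x q) := by
  induction R using Finset.induction_on with
  | empty => simp
  | insert q R hq ih =>
    have h1 : q ∉ P ∪ R := by
      rw [mem_union, not_or]
      exact ⟨fun h => disjoint_left.mp hd h (mem_insert_self _ _), hq⟩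
    rw [union_insert] at hx ⊢
    have h2 := fun p hp => hx p (mem_insert_of_mem hp)
    have h3 := hx q (mem_insert_self _ _)
    have h4 := ih (hd.mono_right (subset_insert _ _)) (fun p hp => hR p (mem_insert_of_mem hp)) h2
    rw [GG_insert h1 (hR q (mem_insert_self _ _)), prod_insert hq]
    have h5 := (GG_mono h2 (fun _ _ => le_rfl) (Nat.div_le_self z q)).trans h4
    have h6 := mul_le_mul_of_nonneg_left h5 h3
    nlinarith

lemma sum_factored_le (S : Finset ℕ) (hS : ∀ q ∈ S, q.Prime) (T : Finset ℕ)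
    (hT : ∀ m ∈ T, m ∈ Nat.factoredNumbers S) :
    ∑ m ∈ T, (m : ℝ)⁻¹ ≤ ∏ q ∈ S, (1 - (q : ℝ)⁻¹)⁻¹ := by
  let f : ℕ →* ℝ := ⟨⟨fun n => (n : ℝ)⁻¹, by simp⟩, fun m n => by simp [mul_comm]⟩
  have h := (EulerProduct.summable_and_hasSum_factoredNumbers_prod_filter_prime_geometric (f := f)
    (fun {p} hp => by
      have : (1 : ℝ) < p := by exact_mod_cast hp.one_lt
      simp only [f, MonoidHom.coe_mk, OneHom.coe_mk, norm_inv, Real.norm_natCast]
      exact inv_lt_one_of_one_lt₀ this) S).2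
  rw [filter_true_of_mem hS] at h
  have h2 := hasSum_subtype_iff_indicator.mp h
  refine le_trans (le_of_eq (sum_congr rfl fun m hm => ?_)) (sum_le_hasSum T (fun m _ => ?_) h2)
  · rw [Set.indicator_of_mem (hT m hm)]; rfl
  · exact Set.indicator_nonneg (fun n _ => by simp [f]) m

lemma sum_primeFactors_eq_le (S : Finset ℕ) (hS : ∀ q ∈ S, q.Prime) (T : Finset ℕ)
    (hT : ∀ n ∈ T, n ≠ 0 ∧ n.primeFactors = S) :
    ∑ n ∈ T, (n : ℝ)⁻¹ ≤ ∏ q ∈ S, 1 / ((q : ℝ) - 1) := by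
  have hd : ∀ n ∈ T, ∏ q ∈ S, q ∣ n := fun n hn => by
    rw [← (hT n hn).2]; exact Nat.prod_primeFactors_dvd n
  have h1 := sum_factored_le S hS (T.image fun n => n / ∏ q ∈ S, q) (by
    intro m hm
    obtain ⟨n, hn, rfl⟩ := mem_image.mp hm
    refine Nat.mem_factoredNumbers_of_dvd (m := n) ?_ (Nat.div_dvd_of_dvd (hd n hn))
    rw [Nat.mem_factoredNumbers_iff_primeFactors_subset]
    exact ⟨(hT n hn).1, (hT n hn).2.subset⟩)
  rw [sum_image fun a ha b hb h => by
    rw [← Nat.div_mul_cancel (hd a ha), ← Nat.div_mul_cancel (hd b hb)]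
    exact congrArg (· * _) h] at h1
  have h0 : (0 : ℝ) < ∏ q ∈ S, (q : ℝ) := prod_pos fun q hq => by exact_mod_cast (hS q hq).pos
  calc _ = (∏ q ∈ S, (q : ℝ))⁻¹ * ∑ n ∈ T, ((n / ∏ q ∈ S, q : ℕ) : ℝ)⁻¹ := by
        rw [mul_sum]
        refine sum_congr rfl fun n hn => ?_
        rw [← mul_inv, ← Nat.cast_prod, ← Nat.cast_mul, Nat.mul_div_cancel' (hd n hn)]
    _ ≤ (∏ q ∈ S, (q : ℝ))⁻¹ * ∏ q ∈ S, (1 - (q : ℝ)⁻¹)⁻¹ := by gcongr
    _ = _ := by
        rw [← prod_inv_distrib, ← prod_mul_distrib]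
        refine prod_congr rfl fun q hq => ?_
        have : (1 : ℝ) < q := by exact_mod_cast (hS q hq).one_lt
        have h2 : (q : ℝ) - 1 ≠ 0 := by linarith
        field_simp

/-- The function `n / φ(n)`. -/
noncomputable def hh (n : ℕ) : ℝ := ∏ q ∈ n.primeFactors, (1 + 1 / ((q : ℝ) - 1))

lemma inv_pred_nonneg {q : ℕ} (hq : q.Prime) : 0 ≤ 1 / ((q : ℝ) - 1) := by
  have : (1 : ℝ) < q := by exact_mod_cast hq.one_lt
  exact div_nonneg zero_le_one (by linarith)

lemma one_le_hh (n : ℕ) : 1 ≤ hh n :=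
  one_le_prod fun q hq => by
    have := inv_pred_nonneg (Nat.prime_of_mem_primeFactors hq); linarith

lemma hh_pos (n : ℕ) : 0 < hh n := lt_of_lt_of_le one_pos (one_le_hh n)

lemma prod_le_hh {S : Finset ℕ} {n : ℕ} (h : S ⊆ n.primeFactors) :
    ∏ q ∈ S, (1 + 1 / ((q : ℝ) - 1)) ≤ hh n :=
  prod_le_prod_of_subset_of_one_le h
    (fun q hq => by have := inv_pred_nonneg (Nat.prime_of_mem_primeFactors (h hq)); linarith)
    fun q hq _ => by have := inv_pred_nonneg (Nat.prime_of_mem_primeFactors hq); linarith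

/-- The primes up to `w` not dividing `D`. -/
def PP (w D : ℕ) : Finset ℕ := (range (w + 1)).filter fun q => q.Prime ∧ ¬ q ∣ D

lemma log_le_GG (w : ℕ) {D : ℕ} (hD : D ≠ 0) :
    Real.log w ≤ GG (PP w D) (fun q => 1 / ((q : ℝ) - 1)) w * hh D := by
  set R := (range (w + 1)).filter fun q => q.Prime ∧ q ∣ D with hR
  have hU : ∀ q, q ∈ PP w D ∪ R ↔ q < w + 1 ∧ q.Prime := by
    intro q
    simp only [PP, hR, mem_union, mem_filter, mem_range]
    tauto
  have h1 := GG_union (PP w D) R (by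
    rw [disjoint_left]; intro q h1 h2
    exact (mem_filter.mp h1).2.2 (mem_filter.mp h2).2.2)
    (fun q hq => (mem_filter.mp hq).2.1.pos) (fun q => 1 / ((q : ℝ) - 1))
    (fun q hq => inv_pred_nonneg ((hU q).mp hq).2) w
  have h2 : ∏ q ∈ R, (1 + 1 / ((q : ℝ) - 1)) ≤ hh D := prod_le_hh fun q hq =>
    Nat.mem_primeFactors.mpr ⟨(mem_filter.mp hq).2.1, (mem_filter.mp hq).2.2, hD⟩
  have h3 := GG_nonneg (P := PP w D) (x := fun q => 1 / ((q : ℝ) - 1))
    (fun q hq => inv_pred_nonneg (mem_filter.mp hq).2.1) w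
  refine le_trans ?_ (h1.trans (mul_le_mul_of_nonneg_left h2 h3))
  have h4 := log_le_harmonic_floor w (by positivity)
  rw [Nat.floor_natCast, harmonic_eq_sum_Icc] at h4
  push_cast at h4
  refine h4.trans ?_
  rw [GG, ← sum_fiberwise_of_maps_to (g := Nat.primeFactors)
    (t := (PP w D ∪ R).powerset.filter fun S => ∏ q ∈ S, q ≤ w)]
  · refine sum_le_sum fun S hS => sum_primeFactors_eq_le S
      (fun q hq => ((hU q).mp (mem_powerset.mp (mem_filter.mp hS).1 hq)).2) _ fun n hn => ?_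
    obtain ⟨h5, h6⟩ := mem_filter.mp hn
    exact ⟨by have := (mem_Icc.mp h5).1; omega, h6⟩
  · intro n hn
    obtain ⟨h5, h6⟩ := mem_Icc.mp hn
    refine mem_filter.mpr ⟨mem_powerset.mpr fun q hq => (hU q).mpr
      ⟨?_, Nat.prime_of_mem_primeFactors hq⟩, (Nat.le_of_dvd h5 (Nat.prod_primeFactors_dvd n)).trans h6⟩
    have := Nat.le_of_mem_primeFactors hq
    omega

lemma card_root {q u : ℕ} (hq : q.Prime) (hu : ¬ q ∣ u) (r : ℕ) :
    #{t ∈ range q | q ∣ r + u * t} = 1 := by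
  have := Fact.mk hq
  have hu' : (u : ZMod q) ≠ 0 := by rwa [Ne, ZMod.natCast_eq_zero_iff]
  rw [card_eq_one]
  refine ⟨(-(r : ZMod q) / u).val, ?_⟩
  ext t
  simp only [mem_filter, mem_range, mem_singleton, ← ZMod.natCast_eq_zero_iff]
  push_cast
  constructor
  · rintro ⟨h1, h2⟩
    have : (t : ZMod q) = -(r : ZMod q) / u := by
      field_simp; linear_combination h2
    rw [← this, ZMod.val_cast_of_lt h1]
  · rintro rfl
    refine ⟨ZMod.val_lt _, ?_⟩
    rw [ZMod.natCast_zmod_val]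
    field_simp; ring

lemma dvd_mod_iff' (q r u t : ℕ) : q ∣ r + u * (t % q) ↔ q ∣ r + u * t := by
  rw [Nat.dvd_iff_mod_eq_zero, Nat.dvd_iff_mod_eq_zero, Nat.add_mod, Nat.mul_mod, Nat.mod_mod,
    ← Nat.mul_mod, ← Nat.add_mod]

/-- One linear form. -/
theorem sieve_one {d w : ℕ} (hd : d ≠ 0) (hw : 2 ≤ w) (r M : ℕ) :
    (#{t ∈ range M | (r + d * t).Prime ∧ w < r + d * t} : ℝ) ≤
      M * hh d / Real.log w + 2 * (w : ℝ) ^ 4 := by
  have h := selberg (PP w d) (fun q hq => (mem_filter.mp hq).2.1) (fun q t => q ∣ r + d * t)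
    (fun q _ t => dvd_mod_iff' q r d t) 1 one_pos
    (fun q hq => card_root (mem_filter.mp hq).2.1 (mem_filter.mp hq).2.2 r)
    (fun q hq => (mem_filter.mp hq).2.1.one_lt) (z := w) (by omega) M
  have h1 : (#{t ∈ range M | (r + d * t).Prime ∧ w < r + d * t} : ℝ) ≤
      #{t ∈ range M | ∀ q ∈ PP w d, ¬ q ∣ r + d * t} := by
    refine Nat.cast_le.mpr (card_le_card fun t ht => ?_)
    obtain ⟨h2, h3, h4⟩ := mem_filter.mp ht
    refine mem_filter.mpr ⟨h2, fun q hq h5 => ?_⟩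
    have h6 := (Nat.prime_dvd_prime_iff_eq (mem_filter.mp hq).2.1 h3).mp h5
    have := mem_range.mp (mem_filter.mp hq).1
    omega
  refine h1.trans (h.trans (add_le_add ?_ le_rfl))
  have h2 := log_le_GG w hd
  have h3 : 0 < Real.log w := Real.log_pos (by exact_mod_cast hw)
  have h4 := hh_pos d
  simp only [Nat.cast_one]
  change M / GG (PP w d) (fun q => 1 / ((q : ℝ) - 1)) w ≤ _
  have h5 : 0 < GG (PP w d) (fun q => 1 / ((q : ℝ) - 1)) w := by
    by_contra h6
    nlinarith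
  rw [div_le_div_iff₀ h5 h3, mul_assoc, mul_comm (hh d)]
  gcongr

/-- Two linear forms. -/
theorem sieve_two {u u' r r' D w : ℕ} (hD : D ≠ 0) (hw : 2 ≤ w) (h2 : 2 ∣ D) (hu : u ∣ D)
    (hu' : u' ∣ D) (hdet : ∀ q : ℕ, q.Prime → (q : ℤ) ∣ (u' * r : ℤ) - u * r' → q ∣ D) (M : ℕ) :
    (#{t ∈ range M | ((r + u * t).Prime ∧ w < r + u * t) ∧ (r' + u' * t).Prime ∧ w < r' + u' * t} :
      ℝ) ≤ M * hh D ^ 2 / Real.log w ^ 2 + 2 * (w : ℝ) ^ 8 := by
  have hq3 : ∀ q ∈ PP w D, 2 < q := by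
    intro q hq
    obtain ⟨-, h3, h4⟩ := mem_filter.mp hq
    have := h3.two_le
    by_contra h5
    exact h4 ((show q = 2 by omega) ▸ h2)
  have h := selberg (PP w D) (fun q hq => (mem_filter.mp hq).2.1)
    (fun q t => q ∣ r + u * t ∨ q ∣ r' + u' * t)
    (fun q _ t => by rw [dvd_mod_iff', dvd_mod_iff']) 2 two_pos
    (fun q hq => by
      obtain ⟨-, h3, h4⟩ := mem_filter.mp hq
      rw [filter_or, card_union_of_disjoint, card_root h3 fun h => h4 (h.trans hu),
        card_root h3 fun h => h4 (h.trans hu')]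
      rw [disjoint_left]
      intro t h5 h6
      apply h4 (hdet q h3 ?_)
      have a1 := Int.natCast_dvd_natCast.mpr (mem_filter.mp h5).2
      have a2 := Int.natCast_dvd_natCast.mpr (mem_filter.mp h6).2
      have a3 := dvd_sub (a1.mul_left u') (a2.mul_left u)
      push_cast at a3
      rwa [show (u' : ℤ) * (r + u * t) - u * (r' + u' * t) = u' * r - u * r' by ring] at a3)
    hq3 (z := w * w) (Nat.mul_pos (by omega) (by omega)) M
  have h1 : (#{t ∈ range M | ((r + u * t).Prime ∧ w < r + u * t) ∧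
      (r' + u' * t).Prime ∧ w < r' + u' * t} : ℝ) ≤
      #{t ∈ range M | ∀ q ∈ PP w D, ¬ (q ∣ r + u * t ∨ q ∣ r' + u' * t)} := by
    refine Nat.cast_le.mpr (card_le_card fun t ht => ?_)
    obtain ⟨h2, ⟨h3, h4⟩, h3', h4'⟩ := mem_filter.mp ht
    refine mem_filter.mpr ⟨h2, fun q hq h5 => ?_⟩
    have := mem_range.mp (mem_filter.mp hq).1
    rcases h5 with h5 | h5
    · have h6 := (Nat.prime_dvd_prime_iff_eq (mem_filter.mp hq).2.1 h3).mp h5
      omega
    · have h6 := (Nat.prime_dvd_prime_iff_eq (mem_filter.mp hq).2.1 h3').mp h5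
      omega
  refine h1.trans (h.trans (add_le_add ?_ (le_of_eq (by push_cast; ring))))
  have h3 : 0 < Real.log w := Real.log_pos (by exact_mod_cast hw)
  have h4 := hh_pos D
  have h5 := log_le_GG w hD
  have hx : ∀ q ∈ PP w D, 0 ≤ 1 / ((q : ℝ) - 1) := fun q hq =>
    inv_pred_nonneg (mem_filter.mp hq).2.1
  have h6 := (GG_mul (PP w D) (fun q hq => (mem_filter.mp hq).2.1.pos) _ hx w w).trans
    (GG_mono (x' := fun q => ((2 : ℕ) : ℝ) / (q - (2 : ℕ)))
      (fun q hq => by have := hx q hq; positivity) (fun q hq => by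
        have : (2 : ℝ) < q := by exact_mod_cast hq3 q hq
        have a1 : (0 : ℝ) < q - 1 := by linarith
        have a2 : (0 : ℝ) < q - 2 := by linarith
        push_cast
        rw [show 2 * (1 / ((q : ℝ) - 1)) + (1 / ((q : ℝ) - 1)) ^ 2 = (2 * q - 1) / (q - 1) ^ 2 by
          field_simp; ring, div_le_div_iff₀ (by positivity) a2]
        nlinarith) le_rfl)
  change M / GG (PP w D) (fun q => ((2 : ℕ) : ℝ) / (q - (2 : ℕ))) (w * w) ≤ _
  have h7 : Real.log w ^ 2 ≤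
      GG (PP w D) (fun q => ((2 : ℕ) : ℝ) / (q - (2 : ℕ))) (w * w) * hh D ^ 2 := by
    refine (pow_le_pow_left₀ h3.le h5 2).trans ?_
    rw [mul_pow, sq]
    gcongr
  have h8 : 0 < GG (PP w D) (fun q => ((2 : ℕ) : ℝ) / (q - (2 : ℕ))) (w * w) := by
    by_contra h9
    nlinarith [sq_pos_of_pos h3, sq_pos_of_pos h4]
  rw [div_le_div_iff₀ h8 (by positivity), mul_assoc, mul_comm (hh D ^ 2)]
  gcongr

end Pool.Agent.MP_a96b63_al
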