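import Pool.Agent.MP_a96b63_al.Count

/-!
Ladder shaped prime configurations.
-/

set_option autoImplicit false

namespace Pool.Agent.MP_a96b63_al

open Finset

lemma hol_target {V W : Finset ℕ} {w : ℕ} (h : ∀ p ∈ V, ¬ p ∣ w - 1) :
    Hol V (insert w W) = Hol V W := by
  refine sum_congr rfl fun D hD => prod_congr rfl fun p hp => ?_
  rw [union_insert, cc, cc, filter_insert, if_neg (h p (mem_powerset.mp hD hp))]

lemma hol_insert {V W : Finset ℕ} {v : ℕ} (hv : v ∉ V) (h : ∀ q ∈ V, ¬ v ∣ q - 1) :
    Hol (insert v V) W = Hol V (insert v W) + gs v (cc v W) * Hol V W := by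
  unfold Hol
  rw [sum_powerset_insert hv, mul_sum]
  congr 1
  · refine sum_congr rfl fun D hD => ?_
    have h1 : v ∉ D := fun h => hv (mem_powerset.mp hD h)
    rw [insert_sdiff_of_notMem _ h1, insert_union, union_insert]
  · refine sum_congr rfl fun D hD => ?_
    have h1 : v ∉ D := fun h => hv (mem_powerset.mp hD h)
    rw [prod_insert h1, insert_sdiff_insert, sdiff_insert_of_notMem hv]
    congr 2
    rw [cc, cc, filter_union, filter_false_of_mem fun q hq => h q (mem_sdiff.mp hq).1, empty_union]

/-- The pair of counts attached to a list. -/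
def st : List ℕ → ℕ × ℕ
  | [] => (1, 1)
  | y :: l => ((y + 2) * (st l).1 + 2 * (st l).2, 2 * (st l).1)

def la (l : List ℕ) : ℕ := (st l).1

def lb (l : List ℕ) : ℕ := (st l).2

@[simp] lemma la_nil : la [] = 1 := rfl
@[simp] lemma lb_nil : lb [] = 1 := rfl
lemma la_cons (y : ℕ) (l : List ℕ) : la (y :: l) = (y + 2) * la l + 2 * lb l := rfl
lemma lb_cons (y : ℕ) (l : List ℕ) : lb (y :: l) = 2 * la l := rfl

lemma exists_prime_pattern (S T : Finset ℕ) (hS : ∀ r ∈ S, r.Prime ∧ r ≠ 2) (M : ℕ) :
    ∃ q, M < q ∧ q.Prime ∧ ∀ r ∈ S, (r ∣ q - 1 ↔ r ∈ T) := by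
  obtain ⟨k, hk⟩ := Nat.chineseRemainderOfFinset (fun r => if r ∈ T then 1 else 2) id S
    (fun r hr => (hS r hr).1.ne_zero)
    fun r hr r' hr' hne => (Nat.coprime_primes (hS r hr).1 (hS r' hr').1).mpr hne
  have hcop : k.Coprime (∏ r ∈ S, r) := by
    refine Nat.Coprime.prod_right fun r hr => ?_
    have h1 : k ≡ (if r ∈ T then 1 else 2) [MOD r] := hk r hr
    rw [Nat.Coprime, h1.gcd_eq]
    split_ifs
    · simp
    · exact (Nat.coprime_primes Nat.prime_two (hS r hr).1).mpr (hS r hr).2.symm
  obtain ⟨q, h1, h2, h3⟩ := Nat.forall_exists_prime_gt_and_modEq M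
    (prod_ne_zero fun r hr => (hS r hr).1) hcop
  refine ⟨q, h1, h2, fun r hr => ?_⟩
  have h4 : q ≡ (if r ∈ T then 1 else 2) [MOD r] :=
    (h3.of_dvd (dvd_prod_of_mem _ hr)).trans (hk r hr)
  rw [← Nat.modEq_iff_dvd' h2.one_le]
  split_ifs at h4 with h5
  · exact ⟨fun _ => h5, fun _ => h4.symm⟩
  · refine ⟨fun h6 => ?_, fun h6 => absurd h6 h5⟩
    have h7 := (Nat.modEq_iff_dvd' (show 1 ≤ 2 by norm_num)).mp (h6.trans h4)
    exact absurd (Nat.dvd_one.mp h7) (hS r hr).1.ne_one

lemma ladder (Y : Finset ℕ) (hY : ∀ y ∈ Y, y.Prime ∧ y ≠ 2) (hYY : ∀ y ∈ Y, ∀ y' ∈ Y, ¬ y ∣ y' - 1)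
    (l : List ℕ) (hl : l.Nodup) (hlY : ∀ y ∈ l, y ∈ Y) (T : Finset ℕ) :
    ∃ (V : Finset ℕ) (u : ℕ), (∀ v ∈ V, v.Prime ∧ v ≠ 2) ∧ u.Prime ∧ 2 < u ∧ (∀ v ∈ V, v < u) ∧
      (∀ y ∈ Y, y < u) ∧ (∀ v ∈ V, v ∈ Y → v ∈ l) ∧
      (∀ y ∈ Y, y ∉ l → ∀ v ∈ V, ¬ y ∣ v - 1) ∧ (∀ y ∈ Y, y ∉ l → (y ∣ u - 1 ↔ y ∈ T)) ∧
      (∀ v ∈ V, ∀ y ∈ Y, ¬ v ∣ y - 1) ∧ Hol V {u} = la l ∧ Hol V ∅ = lb l := by
  induction l generalizing T with
  | nil =>
    obtain ⟨q, h1, h2, h3⟩ := exists_prime_pattern Y T hY (Y.sup id + 2)
    refine ⟨∅, q, by simp, h2, by omega, by simp, fun y hy => ?_, by simp, by simp,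
      fun y hy _ => h3 y hy, by simp, by simp [Hol], by simp [Hol]⟩
    have : y ≤ Y.sup id := le_sup (f := id) hy
    omega
  | cons y l ih =>
    obtain ⟨hy, hl'⟩ := List.nodup_cons.mp hl
    have hyY : y ∈ Y := hlY y List.mem_cons_self
    obtain ⟨V, u, a1, a2, a3, a4, a5, a6, a7, a8, a9, a10, a11⟩ :=
      ih hl' (fun z hz => hlY z (List.mem_cons_of_mem _ hz)) {y}
    obtain ⟨q, h1, h2, h3⟩ := exists_prime_pattern (insert u (V ∪ Y))
      (insert u (insert y (T \ V))) (by
        intro r hr
        rcases mem_insert.mp hr with rfl | hr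
        · exact ⟨a2, by omega⟩
        · rcases mem_union.mp hr with hr | hr
          · exact a1 r hr
          · exact hY r hr) u
    have hyV : y ∉ V := fun h => hy (a6 y h hyY)
    have huV : u ∉ insert y V := by
      intro h
      rcases mem_insert.mp h with h | h
      · have := a5 y hyY; omega
      · have := a4 u h; omega
    have hsm : ∀ r, 2 ≤ r → r < u → ¬ u ∣ r - 1 := fun r h2 hr h =>
      absurd (Nat.le_of_dvd (by omega) h) (by omega)
    have hu1 : ∀ r ∈ insert y V, ¬ u ∣ r - 1 := by
      intro r hr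
      rcases mem_insert.mp hr with rfl | hr
      · exact hsm _ (hY _ hyY).1.two_le (a5 _ hyY)
      · exact hsm _ (a1 r hr).1.two_le (a4 r hr)
    have hyu : y ∣ u - 1 := (a8 y hyY hy).mpr (mem_singleton_self y)
    have hyq : y ∣ q - 1 := (h3 y (by simp [hyY])).mpr (by simp)
    have huq : u ∣ q - 1 := (h3 u (by simp)).mpr (by simp)
    have hVq : ∀ v ∈ V, ¬ v ∣ q - 1 := by
      intro v hv h
      have h4 := (h3 v (by simp [hv])).mp h
      have := a4 v hv
      simp only [mem_insert, mem_sdiff] at h4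
      rcases h4 with h4 | h4 | h4
      · omega
      · exact hyV (h4 ▸ hv)
      · exact h4.2 hv
    have hy1 : ∀ W, Hol (insert y V) W = (1 + gs y (cc y W)) * Hol V W := by
      intro W
      rw [hol_insert hyV (a7 y hyY hy), hol_target fun p hp => a9 p hp y hyY]; ring
    refine ⟨insert u (insert y V), q, ?_, h2, by omega, ?_, ?_, ?_, ?_, ?_, ?_, ?_, ?_⟩
    · intro v hv
      simp only [mem_insert] at hv
      rcases hv with rfl | rfl | hv
      · exact ⟨a2, by omega⟩
      · exact hY _ hyY
      · exact a1 v hv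
    · intro v hv
      simp only [mem_insert] at hv
      rcases hv with rfl | rfl | hv
      · exact h1
      · exact (a5 _ hyY).trans h1
      · exact (a4 v hv).trans h1
    · exact fun z hz => (a5 z hz).trans h1
    · intro v hv hvY
      simp only [mem_insert] at hv
      rcases hv with rfl | rfl | hv
      · exact absurd (a5 _ hvY) (lt_irrefl _)
      · exact List.mem_cons_self
      · exact List.mem_cons_of_mem _ (a6 v hv hvY)
    · intro z hz hzl v hv
      rw [List.mem_cons, not_or] at hzl
      simp only [mem_insert] at hv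
      rcases hv with rfl | rfl | hv
      · exact fun h => hzl.1 (mem_singleton.mp ((a8 z hz hzl.2).mp h))
      · exact hYY z hz _ hyY
      · exact a7 z hz hzl.2 v hv
    · intro z hz hzl
      rw [List.mem_cons, not_or] at hzl
      rw [h3 z (by simp [hz])]
      have := a5 z hz
      have h5 : z ∉ V := fun h => hzl.2 (a6 z h hz)
      simp only [mem_insert, mem_sdiff]
      constructor
      · rintro (h | h | h)
        · omega
        · exact absurd h hzl.1
        · exact h.1
      · exact fun h => Or.inr (Or.inr ⟨h, h5⟩)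
    · intro v hv z hz
      simp only [mem_insert] at hv
      rcases hv with rfl | rfl | hv
      · exact hsm _ (hY _ hz).1.two_le (a5 _ hz)
      · exact hYY _ hyY z hz
      · exact a9 v hv z hz
    · have c1 : cc y (insert u {q}) = 2 := by
        rw [cc, filter_true_of_mem (by simp [hyu, hyq]), card_pair (by omega)]
      have c2 : cc y {q} = 1 := by rw [cc, filter_true_of_mem (by simp [hyq]), card_singleton]
      have c3 : cc u {q} = 1 := by rw [cc, filter_true_of_mem (by simp [huq]), card_singleton]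
      have c4 : Hol V (insert u {q}) = Hol V {u} := by rw [pair_comm, hol_target hVq]
      have c5 : Hol V {q} = Hol V ∅ := by rw [← insert_empty, hol_target hVq]
      rw [hol_insert huV hu1, hy1, hy1, c1, c2, c3, c4, c5, a10, a11, la_cons]
      simp only [gs, sum_range_succ, range_zero, sum_empty]; ring
    · have c2 : cc y (insert u ∅) = 1 := by
        rw [cc, filter_true_of_mem (by simp [hyu])]; simp
      rw [hol_insert huV hu1, hy1, c2, insert_empty, a10, lb_cons]
      simp [gs, cc]

/-- Lists of distinct odd primes none of which divides another one minus one. -/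
def Clean (l : List ℕ) : Prop :=
  l.Nodup ∧ (∀ y ∈ l, y.Prime ∧ y ≠ 2) ∧ ∀ y ∈ l, ∀ y' ∈ l, ¬ y ∣ y' - 1

theorem realize {l : List ℕ} (h : Clean l) : ∃ n, Squarefree n ∧ IsGnu n (la l) := by
  obtain ⟨V, u, a1, a2, a3, a4, -, -, -, -, -, a10, -⟩ := ladder l.toFinset
    (fun y hy => h.2.1 y (List.mem_toFinset.mp hy))
    (fun y hy y' hy' => h.2.2 y (List.mem_toFinset.mp hy) y' (List.mem_toFinset.mp hy')) l h.1
    (fun y hy => List.mem_toFinset.mpr hy) ∅
  have hV : ∀ p ∈ insert u V, p.Prime := by
    intro p hp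
    rcases mem_insert.mp hp with rfl | hp
    · exact a2
    · exact (a1 p hp).1
  refine ⟨_, squarefree_prod hV, ?_⟩
  have := isGnu_hol hV
  rw [hol_insert (fun h => absurd (a4 u h) (lt_irrefl _)) fun r hr h => absurd
    (Nat.le_of_dvd (by have := (a1 r hr).1.two_le; omega) h) (by have := a4 r hr; omega),
    insert_empty, a10] at this
  simpa [gs, cc] using this

lemma la_pos (l : List ℕ) : 0 < la l := by
  induction l with
  | nil => simp
  | cons y l ih => rw [la_cons]; positivity

lemma lb_pos (l : List ℕ) : 0 < lb l := by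
  cases l with
  | nil => simp
  | cons y l => rw [lb_cons]; have := la_pos l; positivity

lemma lb_le (l : List ℕ) : lb l ≤ la l := by
  cases l with
  | nil => simp
  | cons y l => rw [lb_cons, la_cons]; nlinarith [Nat.zero_le (y * la l)]

lemma la_cons_le (y : ℕ) (l : List ℕ) : la (y :: l) ≤ (y + 4) * la l := by
  rw [la_cons]; have := lb_le l; nlinarith

lemma le_la_cons (y : ℕ) (l : List ℕ) : y * la l ≤ la (y :: l) := by
  rw [la_cons]; nlinarith [Nat.zero_le (lb l), Nat.zero_le (la l)]

/-- All entries are odd and at least three. -/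
def Adm (l : List ℕ) : Prop := ∀ y ∈ l, y % 2 = 1 ∧ 3 ≤ y

lemma Adm.tail {y : ℕ} {l : List ℕ} (h : Adm (y :: l)) : Adm l :=
  fun z hz => h z (List.mem_cons_of_mem _ hz)

lemma Clean.adm {l : List ℕ} (h : Clean l) : Adm l := by
  intro y hy
  obtain ⟨h1, h2⟩ := h.2.1 y hy
  have := h1.two_le
  rcases h1.eq_two_or_odd with h3 | h3 <;> omega

lemma la_odd {l : List ℕ} (h : Adm l) : la l % 2 = 1 := by
  induction l with
  | nil => simp
  | cons y l ih =>
    have h1 := ih h.tail
    have h2 := (h y List.mem_cons_self).1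
    rw [la_cons, Nat.add_mul_mod_self_left, Nat.mul_mod, h1, Nat.add_mod, h2]

lemma coprime_la {l : List ℕ} (h : Adm l) : Nat.Coprime (la l) (2 * lb l) := by
  have h2 : ∀ l, Adm l → Nat.Coprime (la l) 2 := fun l h =>
    (Nat.coprime_two_right).mpr (Nat.odd_iff.mpr (la_odd h))
  induction l with
  | nil => simp
  | cons y l ih =>
    refine (h2 _ h).mul_right ?_
    rw [lb_cons]
    refine (h2 _ h).mul_right ?_
    rw [la_cons, add_comm, Nat.coprime_add_mul_right_left]
    exact (ih h.tail).symm

lemma two_lb_lt {y : ℕ} {l : List ℕ} (h : Adm (y :: l)) : 2 * lb (y :: l) < la (y :: l) := by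
  have := (h y List.mem_cons_self).2
  have := la_pos l
  rw [lb_cons, la_cons]; nlinarith [Nat.zero_le (lb l)]

lemma eq_of_st {l l' : List ℕ} (h : Adm l) (h' : Adm l') (ha : la l = la l') (hb : lb l = lb l') :
    l = l' := by
  induction l generalizing l' with
  | nil =>
    cases l' with
    | nil => rfl
    | cons y l' => rw [lb_cons, lb_nil] at hb; omega
  | cons y l ih =>
    cases l' with
    | nil => rw [lb_cons, lb_nil] at hb; omega
    | cons y' l' =>
      rw [lb_cons, lb_cons] at hb
      have h1 : la l = la l' := by omega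
      rw [la_cons, la_cons, ← h1] at ha
      have h2 : lb l = lb l' := by
        cases l with
        | nil =>
          cases l' with
          | nil => rfl
          | cons z l' =>
            have := two_lb_lt h'.tail
            have := lb_pos (z :: l')
            rw [la_nil] at h1; omega
        | cons z l =>
          cases l' with
          | nil =>
            have := two_lb_lt h.tail
            have := lb_pos (z :: l)
            rw [la_nil] at h1; omega
          | cons z' l' =>
            have e1 := two_lb_lt h.tail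
            have e2 := two_lb_lt h'.tail
            rw [← h1] at e2
            have := congrArg (· % la (z :: l)) ha
            simp only [Nat.mul_add_mod_self_right, Nat.mod_eq_of_lt e1, Nat.mod_eq_of_lt e2] at this
            omega
      have h3 : y = y' := by
        rw [← h2] at ha
        have := Nat.eq_of_mul_eq_mul_right (la_pos l) (Nat.add_right_cancel ha)
        omega
      rw [h3, ih h.tail h'.tail h1 h2]

end Pool.Agent.MP_a96b63_al
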