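import Pool.Agent.MP_a96b63_al.Weights
import Pool.Agent.MP_a96b63_al.Ladder

/-!
Divisor sums and their averages over two layers of primes.
-/

set_option autoImplicit false

namespace Pool.Agent.MP_a96b63_al

open Finset

theorem divisor_bound (s : ℕ) : ∃ C : ℕ, 1 ≤ C ∧ ∀ n : ℕ, n ≠ 0 → #n.divisors ^ s ≤ C * n := by
  refine ⟨(s.factorial * 2 ^ s) ^ 2 ^ s, Nat.one_le_iff_ne_zero.2 (by positivity), fun n hn => ?_⟩
  have h1 : ∀ p ∈ n.primeFactors, (n.factorization p + 1) ^ s ≤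
      (if p < 2 ^ s then s.factorial * 2 ^ s else 1) * p ^ n.factorization p := by
    intro p hp
    have hp2 := (Nat.prime_of_mem_primeFactors hp).two_le
    generalize n.factorization p = a
    split_ifs with h
    · calc (a + 1) ^ s ≤ (a + 1).ascFactorial s := Nat.pow_succ_le_ascFactorial _ _
        _ = s.factorial * (a + s).choose s := Nat.ascFactorial_eq_factorial_mul_choose _ _
        _ ≤ s.factorial * 2 ^ (a + s) := Nat.mul_le_mul_left _ (Nat.choose_le_two_pow _ _)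
        _ = s.factorial * 2 ^ s * 2 ^ a := by ring
        _ ≤ _ := Nat.mul_le_mul_left _ (Nat.pow_le_pow_left hp2 _)
    · calc (a + 1) ^ s ≤ (2 ^ a) ^ s := Nat.pow_le_pow_left Nat.lt_two_pow_self _
        _ = (2 ^ s) ^ a := by rw [← pow_mul, ← pow_mul, mul_comm]
        _ ≤ _ := by rw [one_mul]; exact Nat.pow_le_pow_left (not_lt.1 h) _
  have h2 : ∏ p ∈ n.primeFactors, p ^ n.factorization p = n :=
    Nat.prod_factorization_pow_eq_self hn
  rw [Nat.card_divisors hn, ← prod_pow]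
  refine (prod_le_prod' h1).trans ?_
  rw [prod_mul_distrib, h2]
  refine Nat.mul_le_mul_right _ ?_
  rw [prod_ite, prod_const, prod_const_one, mul_one]
  refine Nat.pow_le_pow_right (by positivity) ?_
  calc _ ≤ #(range (2 ^ s)) := card_le_card fun p hp => mem_range.2 (mem_filter.1 hp).2
    _ = _ := card_range _

theorem divisor_rpow (s : ℕ) (hs : s ≠ 0) :
    ∃ C : ℝ, 1 ≤ C ∧ ∀ n : ℕ, n ≠ 0 → (#n.divisors : ℝ) ≤ C * (n : ℝ) ^ (1 / s : ℝ) := by
  obtain ⟨C, h1, h2⟩ := divisor_bound s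
  have h1' : (1 : ℝ) ≤ C := by exact_mod_cast h1
  refine ⟨C, h1', fun n hn => ?_⟩
  refine le_of_pow_le_pow_left₀ hs (by positivity) ?_
  rw [mul_pow, one_div, Real.rpow_inv_natCast_pow (by positivity) hs]
  refine le_trans (by exact_mod_cast h2 n hn : _ ≤ (C : ℝ) * n) ?_
  gcongr
  exact le_self_pow₀ h1' hs

lemma hh_le_card {n : ℕ} (hn : n ≠ 0) : hh n ≤ #n.divisors := by
  rw [Nat.card_divisors hn, Nat.cast_prod]
  refine prod_le_prod (fun q hq => ?_) fun q hq => ?_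
  · have := inv_pred_nonneg (Nat.prime_of_mem_primeFactors hq); linarith
  · have h1 : (2 : ℝ) ≤ q := by exact_mod_cast (Nat.prime_of_mem_primeFactors hq).two_le
    have h2 : 1 / ((q : ℝ) - 1) ≤ 1 := by rw [div_le_one (by linarith)]; linarith
    have h3 : (1 : ℝ) ≤ n.factorization q := by
      exact_mod_cast (Nat.prime_of_mem_primeFactors hq).factorization_pos_of_dvd hn
        (Nat.dvd_of_mem_primeFactors hq)
    push_cast; linarith

lemma prod_le_card_succ (S : Finset ℕ) (hS : ∀ q ∈ S, 2 ≤ q) :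
    ∏ q ∈ S, (1 + 1 / ((q : ℝ) - 1)) ≤ #S + 1 := by
  induction S using Finset.induction_on_max with
  | empty => simp
  | insert a S ha ih =>
    have h1 : a ∉ S := fun h => lt_irrefl _ (ha a h)
    have h2 := ih fun q hq => hS q (mem_insert_of_mem hq)
    have h3 : #S + 2 ≤ a := by
      have : S ⊆ Ico 2 a := fun q hq => mem_Ico.mpr ⟨hS q (mem_insert_of_mem hq), ha q hq⟩
      have h4 := card_le_card this
      have := hS a (mem_insert_self _ _)
      rw [Nat.card_Ico] at h4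
      omega
    have h4 : (#S : ℝ) + 2 ≤ a := by exact_mod_cast h3
    have h5 : (0 : ℝ) ≤ #S := by positivity
    rw [prod_insert h1, card_insert_of_notMem h1]
    calc _ ≤ (1 + 1 / ((#S : ℝ) + 1)) * (#S + 1) := by
          gcongr
          · exact prod_nonneg fun q hq => by
              have : (2 : ℝ) ≤ q := by exact_mod_cast hS q (mem_insert_of_mem hq)
              have : 0 ≤ 1 / ((q : ℝ) - 1) := div_nonneg zero_le_one (by linarith)
              linarith
          · linarith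
      _ = _ := by push_cast; field_simp

lemma hh_le_of_le_pow {n k : ℕ} (hn : n ≠ 0) (h : n ≤ 2 ^ k) : hh n ≤ k + 1 := by
  refine (prod_le_card_succ _ fun q hq => (Nat.prime_of_mem_primeFactors hq).two_le).trans ?_
  have h1 : 2 ^ #n.primeFactors ≤ 2 ^ k :=
    (pow_card_le_prod _ _ _ fun q hq => (Nat.prime_of_mem_primeFactors hq).two_le).trans
      ((Nat.le_of_dvd (Nat.pos_of_ne_zero hn) (Nat.prod_primeFactors_dvd n)).trans h)
  have h2 : (#n.primeFactors : ℝ) ≤ k := by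
    exact_mod_cast (Nat.pow_le_pow_iff_right (by norm_num)).mp h1
  linarith

lemma hh_mul_le {m n : ℕ} (hm : m ≠ 0) (hn : n ≠ 0) : hh (m * n) ≤ hh m * hh n := by
  rw [hh, Nat.primeFactors_mul hm hn, hh, hh, ← prod_union_inter]
  refine le_mul_of_one_le_right (prod_nonneg fun q hq => ?_) (one_le_prod fun q hq => ?_)
  · rw [← Nat.primeFactors_mul hm hn] at hq
    have := inv_pred_nonneg (Nat.prime_of_mem_primeFactors hq); linarith
  · have := inv_pred_nonneg (Nat.prime_of_mem_primeFactors (mem_inter.mp hq).1); linarith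

lemma hh_two : hh 2 = 2 := by
  rw [hh, Nat.Prime.primeFactors Nat.prime_two]; norm_num

/-- A divisor sum. -/
noncomputable def sg (n : ℕ) : ℝ := ∑ d ∈ n.divisors, (d : ℝ) ^ (-(1 / 4) : ℝ)

lemma sg_nonneg (n : ℕ) : 0 ≤ sg n := sum_nonneg fun _ _ => by positivity

lemma hh_pow_le : ∃ C : ℝ, 0 ≤ C ∧ ∀ n : ℕ, n ≠ 0 → hh n ^ 18 ≤ C * sg n := by
  refine ⟨((2 : ℝ) ^ 18) ^ 2 ^ 40, by positivity, fun n hn => ?_⟩
  have h1 : ∀ q ∈ n.primeFactors, (1 + 1 / ((q : ℝ) - 1)) ^ 18 ≤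
      (if q < 2 ^ 40 then (2 : ℝ) ^ 18 else 1) * (1 + (q : ℝ) ^ (-(1 / 4) : ℝ)) := by
    intro q hq
    have a1 : (2 : ℝ) ≤ q := by exact_mod_cast (Nat.prime_of_mem_primeFactors hq).two_le
    have a2 : 1 / ((q : ℝ) - 1) ≤ 1 := by rw [div_le_one (by linarith)]; linarith
    have a3 := inv_pred_nonneg (Nat.prime_of_mem_primeFactors hq)
    have a4 : 0 ≤ (q : ℝ) ^ (-(1 / 4) : ℝ) := by positivity
    split_ifs with h
    · calc _ ≤ (2 : ℝ) ^ 18 := pow_le_pow_left₀ (by linarith) (by linarith) _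
        _ ≤ _ := le_mul_of_one_le_right (by positivity) (by linarith)
    · have a5 : (2 : ℝ) ^ 40 ≤ q := by exact_mod_cast not_lt.mp h
      have a6 : ∀ k : ℕ, (1 + 1 / ((q : ℝ) - 1)) ^ k ≤ 1 + (2 ^ k - 1) * (1 / ((q : ℝ) - 1)) := by
        intro k
        induction k with
        | zero => simp
        | succ k ih =>
          have b1 : (1 : ℝ) ≤ 2 ^ k := one_le_pow₀ (by norm_num)
          have b2 := mul_le_mul_of_nonneg_right ih (show 0 ≤ 1 + 1 / ((q : ℝ) - 1) by linarith)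
          have b3 := mul_le_mul_of_nonneg_left a2 (mul_nonneg (sub_nonneg.mpr b1) a3)
          rw [pow_succ, pow_succ]
          nlinarith
      refine (a6 18).trans ?_
      rw [one_mul, add_le_add_iff_left, Real.rpow_neg (by positivity)]
      set s := (q : ℝ) ^ (1 / 4 : ℝ) with hs
      have hs0 : 0 < s := by positivity
      have hs4 : s ^ 4 = q := by
        rw [hs, ← Real.rpow_natCast, ← Real.rpow_mul (by positivity)]; norm_num
      have hs1 : 2 ^ 10 ≤ s := by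
        refine le_of_pow_le_pow_left₀ (n := 4) (by norm_num) hs0.le ?_
        rw [hs4]; linarith
      rw [mul_one_div, div_le_iff₀ (by linarith), le_inv_mul_iff₀ hs0, ← hs4]
      have : 2 ^ 30 ≤ s ^ 3 := le_trans (by norm_num) (pow_le_pow_left₀ (by norm_num) hs1 3)
      nlinarith
  rw [hh, ← prod_pow]
  refine (prod_le_prod (fun q hq => ?_) h1).trans ?_
  · have := inv_pred_nonneg (Nat.prime_of_mem_primeFactors hq); positivity
  rw [prod_mul_distrib]
  refine mul_le_mul ?_ ?_ (prod_nonneg fun _ _ => by positivity) (by positivity)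
  · rw [prod_ite, prod_const, prod_const_one, mul_one]
    refine pow_le_pow_right₀ (by norm_num) ?_
    calc _ ≤ #(range (2 ^ 40)) := card_le_card fun p hp => mem_range.2 (mem_filter.1 hp).2
      _ = _ := card_range _
  · have hp : ∀ D ∈ n.primeFactors.powerset, ∀ p ∈ D, p.Prime := fun D hD p hp =>
      Nat.prime_of_mem_primeFactors (mem_powerset.mp hD hp)
    rw [prod_one_add]
    calc _ = ∑ d ∈ n.primeFactors.powerset.image fun D => ∏ p ∈ D, p, (d : ℝ) ^ (-(1 / 4) : ℝ) := by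
          rw [sum_image fun D hD D' hD' h => by
            rw [← Nat.primeFactors_prod (hp D hD), show ∏ p ∈ D, p = ∏ p ∈ D', p from h,
              Nat.primeFactors_prod (hp D' hD')]]
          refine sum_congr rfl fun D _ => ?_
          rw [Nat.cast_prod, Real.finsetProd_rpow _ _ fun _ _ => by positivity]
      _ ≤ _ := by
          refine sum_le_sum_of_subset_of_nonneg (fun d hd => ?_) fun _ _ _ => by positivity
          obtain ⟨D, hD, rfl⟩ := mem_image.mp hd
          exact Nat.mem_divisors.mpr ⟨(prod_dvd_prod_of_subset _ _ _ (mem_powerset.mp hD)).trans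
            (Nat.prod_primeFactors_dvd n), hn⟩

/-- The truncated divisor sum. -/
noncomputable def sgD (D : ℕ) (n : ℤ) : ℝ :=
  ∑ d ∈ Icc 1 D, if (d : ℤ) ∣ n then (d : ℝ) ^ (-(1 / 4) : ℝ) else 0

lemma sgD_nonneg (D : ℕ) (n : ℤ) : 0 ≤ sgD D n :=
  sum_nonneg fun _ _ => by split_ifs <;> positivity

lemma sg_le (K : ℕ) : ∃ D0 : ℕ, ∀ D : ℕ, D0 ≤ D → ∀ n : ℤ, n ≠ 0 → n.natAbs ≤ D ^ K →
    sg n.natAbs ≤ sgD D n + 1 := by
  obtain ⟨C, h1, h2⟩ := divisor_bound (4 * (K + 1))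
  refine ⟨C, fun D hD n hn hnD => ?_⟩
  have hD0 : (0 : ℝ) < D := by exact_mod_cast (by omega : 0 < D)
  have h3 : #n.natAbs.divisors ^ 4 ≤ D := by
    refine (Nat.pow_le_pow_iff_left (n := K + 1) (by omega)).mp ?_
    rw [← pow_mul, pow_succ']
    exact (h2 _ (Int.natAbs_ne_zero.mpr hn)).trans (Nat.mul_le_mul hD hnD)
  have h4 : (#n.natAbs.divisors : ℝ) * (D : ℝ) ^ (-(1 / 4) : ℝ) ≤ 1 := by
    refine le_of_pow_le_pow_left₀ (n := 4) (by norm_num) zero_le_one ?_
    rw [mul_pow, ← Real.rpow_natCast ((D : ℝ) ^ (-(1 / 4) : ℝ)), ← Real.rpow_mul hD0.le]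
    norm_num
    rw [Real.rpow_neg_one, mul_inv_le_iff₀ hD0, one_mul]
    exact_mod_cast h3
  rw [sg, ← sum_filter_add_sum_filter_not _ (· ≤ D), sgD, ← sum_filter]
  refine add_le_add (sum_le_sum_of_subset_of_nonneg (fun d hd => ?_) fun _ _ _ => by positivity)
    (le_trans ?_ h4)
  · obtain ⟨a1, a2⟩ := mem_filter.mp hd
    exact mem_filter.mpr ⟨mem_Icc.mpr ⟨Nat.pos_of_mem_divisors a1, a2⟩,
      Int.natCast_dvd.mpr (Nat.dvd_of_mem_divisors a1)⟩
  · refine (sum_le_card_nsmul _ _ ((D : ℝ) ^ (-(1 / 4) : ℝ)) fun d hd => ?_).trans ?_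
    · exact Real.rpow_le_rpow_of_nonpos hD0
        (by exact_mod_cast (not_le.mp (mem_filter.mp hd).2).le) (by norm_num)
    · rw [nsmul_eq_mul]
      gcongr
      exact filter_subset _ _

lemma modEq_of_dvd_la {v : List ℕ} (hv : Adm v) {f x x' : ℕ} (hf : 0 < f) (h : f ∣ la (x :: v))
    (h' : f ∣ la (x' :: v)) : x ≡ x' [MOD f] := by
  have h1 : f.gcd (la v) = 1 := by
    refine Nat.eq_one_of_dvd_coprimes (coprime_la hv) (Nat.gcd_dvd_right _ _) ?_
    have := (Nat.gcd_dvd_left f (la v)).trans h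
    rw [la_cons] at this
    exact (Nat.dvd_add_right ((Nat.gcd_dvd_right _ _).mul_left _)).mp this
  have := modEq_of_dvd (κ := 2) (a := la v) (s := 2 * lb v) (x := x) (x' := x') hf
    (by rw [la_cons] at h; exact_mod_cast h) (by rw [la_cons] at h'; exact_mod_cast h')
  rwa [h1, Nat.div_one] at this

lemma layer_cop {J f : ℕ} (hJ : 8 ≤ J) (hf : 0 < f) (hfJ : f ≤ 4 ^ J) {v : List ℕ} (hv : Adm v) :
    ∑ x ∈ Lay J with f ∣ la (x :: v), (x : ℝ)⁻¹ ≤ 62 * hh f / f :=
  bt hJ hf hfJ _ (filter_subset _ _) fun _ hn _ hn' =>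
    modEq_of_dvd_la hv hf (mem_filter.mp hn).2 (mem_filter.mp hn').2

theorem two_layer : ∃ C : ℝ, 0 ≤ C ∧ ∀ J J' D : ℕ, 8 ≤ J → 8 ≤ J' → D ≤ 4 ^ J → D ≤ 4 ^ J' →
    ∀ l : List ℕ, Adm l → ∀ (κ : ℕ) (s : ℕ → ℤ),
      ∑ z ∈ Lay J, ∑ y ∈ Lay J', (z : ℝ)⁻¹ * (y : ℝ)⁻¹ * sgD D ((y + κ) * la (z :: l) + s z) ≤ C := by
  obtain ⟨C, hC1, hC⟩ := divisor_rpow 24 (by norm_num)
  have hsum : Summable fun d : ℕ => (d : ℝ) ^ (-(9 / 8) : ℝ) :=
    Real.summable_nat_rpow.mpr (by norm_num)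
  refine ⟨62 ^ 2 * C ^ 3 * ∑' d : ℕ, (d : ℝ) ^ (-(9 / 8) : ℝ),
    mul_nonneg (by positivity) (tsum_nonneg fun _ => by positivity),
    fun J J' D hJ hJ' hD hD' l hl κ s => ?_⟩
  have key : ∀ d ∈ Icc 1 D, ∑ z ∈ Lay J, ∑ y ∈ Lay J', (z : ℝ)⁻¹ * (y : ℝ)⁻¹ *
      (if (d : ℤ) ∣ (y + κ) * la (z :: l) + s z then (d : ℝ) ^ (-(1 / 4) : ℝ) else 0) ≤
      62 ^ 2 * C ^ 3 * (d : ℝ) ^ (-(9 / 8) : ℝ) := by
    intro d hd
    obtain ⟨hd1, hd2⟩ := mem_Icc.mp hd
    have hd0 : (0 : ℝ) < d := by exact_mod_cast hd1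
    have h0 := hh_pos d
    have a1 : ∑ z ∈ Lay J, (z : ℝ)⁻¹ * d.gcd (la (z :: l)) ≤ #d.divisors * (62 * hh d) := by
      calc _ ≤ ∑ z ∈ Lay J, ∑ f ∈ d.divisors, if f ∣ la (z :: l) then f * (z : ℝ)⁻¹ else 0 := by
            refine sum_le_sum fun z _ => ?_
            refine le_trans (le_of_eq ?_) (single_le_sum (f := fun f : ℕ =>
              if f ∣ la (z :: l) then f * (z : ℝ)⁻¹ else 0) (fun _ _ => by split_ifs <;> positivity)
              (Nat.mem_divisors.mpr ⟨Nat.gcd_dvd_left d (la (z :: l)), by omega⟩))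
            rw [if_pos (Nat.gcd_dvd_right _ _), mul_comm]
        _ ≤ _ := by
            rw [sum_comm, ← nsmul_eq_mul]
            refine sum_le_card_nsmul _ _ _ fun f hf => ?_
            have hf0 := Nat.pos_of_mem_divisors hf
            have hf0' : (0 : ℝ) < f := by exact_mod_cast hf0
            rw [← sum_filter, ← mul_sum]
            calc _ ≤ f * (62 * hh f / f) := by
                  gcongr
                  exact layer_cop hJ hf0 ((Nat.divisor_le hf).trans (hd2.trans hD)) hl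
              _ = 62 * hh f := by field_simp
              _ ≤ _ := by gcongr; exact hh_mono (Nat.dvd_of_mem_divisors hf) (by omega)
    have a2 := hh_le_card (n := d) (by omega)
    have a3 := hC d (by omega)
    calc _ ≤ ∑ z ∈ Lay J, (d : ℝ) ^ (-(1 / 4) : ℝ) * (62 * hh d / d) *
          ((z : ℝ)⁻¹ * d.gcd (la (z :: l))) := by
          refine sum_le_sum fun z _ => ?_
          have := one_layer hJ' hd1 (hd2.trans hD') (la (z :: l)) κ (s z)
          calc _ = (d : ℝ) ^ (-(1 / 4) : ℝ) * (z : ℝ)⁻¹ * ∑ y ∈ (Lay J').filter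
                fun y : ℕ => (d : ℤ) ∣ (y + κ) * la (z :: l) + s z, (y : ℝ)⁻¹ := by
                rw [sum_filter, mul_sum]
                exact sum_congr rfl fun y _ => by split_ifs <;> ring
            _ ≤ (d : ℝ) ^ (-(1 / 4) : ℝ) * (z : ℝ)⁻¹ * (62 * hh d * d.gcd (la (z :: l)) / d) := by
                gcongr
            _ = _ := by ring
      _ ≤ (d : ℝ) ^ (-(1 / 4) : ℝ) * (62 * hh d / d) * (#d.divisors * (62 * hh d)) := by
          rw [← mul_sum]; gcongr
      _ = 62 ^ 2 * (hh d * hh d * #d.divisors) * ((d : ℝ) ^ (-(1 / 4) : ℝ) / d) := by ring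
      _ ≤ 62 ^ 2 * (C * (d : ℝ) ^ (1 / (24 : ℕ) : ℝ)) ^ 3 * ((d : ℝ) ^ (-(1 / 4) : ℝ) / d) := by
          rw [pow_three']
          gcongr <;> exact a2.trans a3
      _ = _ := by
          rw [mul_pow, ← Real.rpow_natCast ((d : ℝ) ^ (1 / (24 : ℕ) : ℝ)), ← Real.rpow_mul hd0.le,
            ← Real.rpow_sub_one hd0.ne', mul_assoc, mul_assoc, ← Real.rpow_add hd0, ← mul_assoc]
          norm_num
  simp only [sgD, mul_sum]
  rw [sum_congr rfl fun z _ => sum_comm, sum_comm]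
  refine (sum_le_sum key).trans ?_
  rw [← mul_sum]
  gcongr
  exact hsum.sum_le_tsum _ fun _ _ => by positivity

end Pool.Agent.MP_a96b63_al
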