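import Pool.Agent.MP_a96b63_al.Holder

/-!
The counting formula for groups of squarefree order.
-/

set_option autoImplicit false

namespace Pool.Agent.MP_a96b63_al

open Finset

lemma card_sub_mul_totient (U : Type) [CommGroup U] [Finite U] {b : ℕ} (hb : Squarefree b) :
    Nat.card {H : Subgroup U // Nat.card H = b} * b.totient =
      Nat.card {x : U // orderOf x = b} := by
  classical
  have := Fintype.ofFinite U
  have := Fintype.ofFinite (Subgroup U)
  rw [Nat.card_eq_fintype_card, Nat.card_eq_fintype_card, Fintype.card_subtype,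
    Fintype.card_subtype]
  rw [Finset.card_eq_sum_card_fiberwise (f := fun x => Subgroup.zpowers x)
    (s := univ.filter fun x : U => orderOf x = b)
    (t := univ.filter fun H : Subgroup U => Nat.card H = b)]
  · rw [← smul_eq_mul, ← Finset.sum_const]
    refine Finset.sum_congr rfl fun H hH => ?_
    have hc : Nat.card H = b := (Finset.mem_filter.mp hH).2
    have : IsZGroup H := IsZGroup.of_squarefree (hc ▸ hb)
    have hcyc : IsCyclic H := inferInstance
    rw [← IsCyclic.card_orderOf_eq_totient (α := H) (d := b)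
      (by rw [← Nat.card_eq_fintype_card, hc])]
    refine Finset.card_bij (fun x _ => (x : U)) ?_ ?_ ?_
    · intro x hx
      have h1 : orderOf (x : U) = b := by
        rw [Subgroup.orderOf_coe]; exact (Finset.mem_filter.mp hx).2
      refine Finset.mem_filter.mpr ⟨Finset.mem_filter.mpr ⟨mem_univ _, h1⟩, ?_⟩
      refine Subgroup.eq_of_le_of_card_ge (Subgroup.zpowers_le_of_mem x.2) ?_
      rw [Nat.card_zpowers, h1, hc]
    · intro x _ y _ h
      exact Subtype.ext h
    · intro y hy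
      obtain ⟨h1, h2⟩ := Finset.mem_filter.mp hy
      refine ⟨⟨y, h2 ▸ Subgroup.mem_zpowers y⟩, Finset.mem_filter.mpr ⟨mem_univ _, ?_⟩, rfl⟩
      rw [← Subgroup.orderOf_coe]
      exact (Finset.mem_filter.mp h1).2
  · intro x hx
    simp only [coe_filter, mem_univ, true_and, Set.mem_ofPred_eq] at hx ⊢
    rw [Nat.card_zpowers, hx]

lemma prod_ne_zero {V : Finset ℕ} (hV : ∀ p ∈ V, p.Prime) : ∏ p ∈ V, p ≠ 0 :=
  Finset.prod_ne_zero_iff.mpr fun p hp => (hV p hp).ne_zero

lemma coprime_prod {V : Finset ℕ} (hV : ∀ p ∈ V, p.Prime) {q : ℕ} (hq : q.Prime) (h : q ∉ V) :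
    Nat.Coprime q (∏ p ∈ V, p) :=
  Nat.Coprime.prod_right fun p hp =>
    (Nat.coprime_primes hq (hV p hp)).mpr fun e => h (e ▸ hp)

lemma squarefree_prod {V : Finset ℕ} (hV : ∀ p ∈ V, p.Prime) : Squarefree (∏ p ∈ V, p) := by
  induction V using Finset.induction_on with
  | empty => simp
  | insert q V hq ih =>
    have h1 := fun p hp => hV p (mem_insert_of_mem hp)
    have h2 := hV q (mem_insert_self _ _)
    rw [prod_insert hq, Nat.squarefree_mul (coprime_prod h1 h2 hq)]
    exact ⟨h2.squarefree, ih h1⟩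

lemma totient_prod {V : Finset ℕ} (hV : ∀ p ∈ V, p.Prime) :
    (∏ p ∈ V, p).totient = ∏ p ∈ V, (p - 1) := by
  induction V using Finset.induction_on with
  | empty => simp
  | insert q V hq ih =>
    have h1 := fun p hp => hV p (mem_insert_of_mem hp)
    have h2 := hV q (mem_insert_self _ _)
    rw [prod_insert hq, prod_insert hq, Nat.totient_mul (coprime_prod h1 h2 hq), ih h1,
      Nat.totient_prime h2]

lemma gcd_prod {V : Finset ℕ} (hV : ∀ p ∈ V, p.Prime) (k : ℕ) :
    k.gcd (∏ p ∈ V, p) = ∏ p ∈ V, if p ∣ k then p else 1 := by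
  induction V using Finset.induction_on with
  | empty => simp
  | insert q V hq ih =>
    have h1 := fun p hp => hV p (mem_insert_of_mem hp)
    have h2 := hV q (mem_insert_self _ _)
    rw [prod_insert hq, prod_insert hq, Nat.Coprime.gcd_mul _ (coprime_prod h1 h2 hq), ih h1]
    congr 1
    split_ifs with h
    · exact Nat.gcd_eq_right h
    · exact ((Nat.Prime.coprime_iff_not_dvd h2).mpr h).symm

lemma sum_divisors_eq {V : Finset ℕ} (hV : ∀ p ∈ V, p.Prime) (f : ℕ → ℕ) :
    ∑ a ∈ (∏ p ∈ V, p).divisors, f a = ∑ D ∈ V.powerset, f (∏ p ∈ D, p) := by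
  symm
  refine Finset.sum_bij (fun D _ => ∏ p ∈ D, p) ?_ ?_ ?_ fun _ _ => rfl
  · intro D hD
    exact Nat.mem_divisors.mpr ⟨prod_dvd_prod_of_subset _ _ _ (mem_powerset.mp hD), prod_ne_zero hV⟩
  · intro D hD D' hD' h
    rw [← Nat.primeFactors_prod fun p hp => hV p (mem_powerset.mp hD hp), h,
      Nat.primeFactors_prod fun p hp => hV p (mem_powerset.mp hD' hp)]
  · intro a ha
    have h1 := Nat.dvd_of_mem_divisors ha
    refine ⟨a.primeFactors, mem_powerset.mpr ?_,
      Nat.prod_primeFactors_of_squarefree ((squarefree_prod hV).squarefree_of_dvd h1)⟩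
    rw [← Nat.primeFactors_prod hV]
    exact Nat.primeFactors_mono h1 (prod_ne_zero hV)

lemma card_pow_eq_one {W : Finset ℕ} (hW : ∀ p ∈ W, p.Prime) (m : ℕ) :
    Nat.card {x : (ZMod (∏ p ∈ W, p))ˣ // x ^ m = 1} = ∏ q ∈ W, (q - 1).gcd m := by
  induction W using Finset.induction_on with
  | empty =>
    rw [prod_empty, prod_empty, Nat.card_eq_one_iff_unique]
    exact ⟨inferInstance, ⟨⟨1, one_pow _⟩⟩⟩
  | insert q V hq ih =>
    have h1 := fun p hp => hW p (mem_insert_of_mem hp)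
    have h2 := hW q (mem_insert_self _ _)
    have := Fact.mk h2
    rw [prod_insert hq, prod_insert hq, ← ih h1]
    have h3 : Nat.card {x : (ZMod q)ˣ // x ^ m = 1} = (q - 1).gcd m := by
      have h4 := IsCyclic.card_powMonoidHom_ker (ZMod q)ˣ m
      rw [Nat.card_eq_fintype_card (α := (ZMod q)ˣ), ZMod.card_units] at h4
      exact h4
    rw [← h3, ← Nat.card_prod]
    let e : (ZMod (q * ∏ p ∈ V, p))ˣ ≃* (ZMod q)ˣ × (ZMod (∏ p ∈ V, p))ˣ :=
      (Units.mapEquiv (ZMod.chineseRemainder (coprime_prod h1 h2 hq)).toMulEquiv).trans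
        MulEquiv.prodUnits
    refine Nat.card_congr ((e.toEquiv.subtypeEquiv
      (q := fun y => y.1 ^ m = 1 ∧ y.2 ^ m = 1) fun x => ?_).trans
      (Equiv.subtypeProdEquivProd (p := fun y : (ZMod q)ˣ => y ^ m = 1)
        (q := fun y : (ZMod (∏ p ∈ V, p))ˣ => y ^ m = 1)))
    rw [← e.map_eq_one_iff, map_pow, Prod.ext_iff]
    rfl

/-- The number of elements `q` of `W` with `p ∣ q - 1`. -/
def cc (p : ℕ) (W : Finset ℕ) : ℕ := (W.filter fun q => p ∣ q - 1).card

lemma card_orderOf {W : Finset ℕ} (hW : ∀ p ∈ W, p.Prime) (D : Finset ℕ)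
    (hD : ∀ p ∈ D, p.Prime) :
    Nat.card {x : (ZMod (∏ p ∈ W, p))ˣ // orderOf x = ∏ p ∈ D, p} =
      ∏ p ∈ D, (p ^ cc p W - 1) := by
  classical
  have : NeZero (∏ p ∈ W, p) := ⟨prod_ne_zero hW⟩
  induction D using Finset.strongInduction with
  | H D ih =>
    have h1 := card_pow_eq_one hW (∏ p ∈ D, p)
    rw [Nat.card_eq_fintype_card, Fintype.card_subtype,
      ← sum_card_orderOf_eq_card_pow_eq_one (prod_ne_zero hD), sum_divisors_eq hD] at h1
    have h2 : ∏ q ∈ W, (q - 1).gcd (∏ p ∈ D, p) = ∑ D' ∈ D.powerset, ∏ p ∈ D', (p ^ cc p W - 1) := by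
      rw [← Finset.prod_one_add, Finset.prod_congr rfl fun q _ => gcd_prod hD (q - 1),
        Finset.prod_comm]
      refine Finset.prod_congr rfl fun p hp => ?_
      rw [Finset.prod_ite, prod_const, prod_const_one, mul_one, cc,
        Nat.add_sub_cancel' (Nat.one_le_pow _ _ (hD p hp).pos)]
    have h3 : D ∈ D.powerset := mem_powerset_self D
    rw [h2, ← Finset.add_sum_erase _ _ h3, ← Finset.add_sum_erase _ _ h3,
      Finset.sum_congr rfl (g := fun D' => ∏ p ∈ D', (p ^ cc p W - 1))] at h1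
    · rw [Nat.card_eq_fintype_card, Fintype.card_subtype]
      exact Nat.add_right_cancel h1
    · intro D' hD'
      obtain ⟨h4, h5⟩ := mem_erase.mp hD'
      have h6 := mem_powerset.mp h5
      rw [← ih D' (Finset.ssubset_iff_subset_ne.mpr ⟨h6, h4⟩) fun p hp => hD p (h6 hp),
        Nat.card_eq_fintype_card, Fintype.card_subtype]

/-- Geometric sums. -/
def gs (p c : ℕ) : ℕ := ∑ i ∈ range c, p ^ i

lemma card_sub {W : Finset ℕ} (hW : ∀ p ∈ W, p.Prime) {D : Finset ℕ} (hD : ∀ p ∈ D, p.Prime) :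
    Nat.card {H : Subgroup (ZMod (∏ p ∈ W, p))ˣ // Nat.card H = ∏ p ∈ D, p} =
      ∏ p ∈ D, gs p (cc p W) := by
  have : NeZero (∏ p ∈ W, p) := ⟨prod_ne_zero hW⟩
  have h1 := card_sub_mul_totient (ZMod (∏ p ∈ W, p))ˣ (squarefree_prod hD)
  rw [card_orderOf hW D hD] at h1
  refine Nat.eq_of_mul_eq_mul_right (Nat.totient_pos.mpr (Nat.pos_of_ne_zero (prod_ne_zero hD))) ?_
  rw [h1, totient_prod hD, ← prod_mul_distrib]
  refine prod_congr rfl fun p hp => ?_
  have h2 := geom_sum_mul_add (p - 1) (cc p W)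
  rw [Nat.sub_add_cancel (hD p hp).one_le] at h2
  rw [← h2, gs, Nat.add_sub_cancel]

/-- The counting function with additional targets `W`. -/
def Hol (V W : Finset ℕ) : ℕ := ∑ D ∈ V.powerset, ∏ p ∈ D, gs p (cc p ((V \ D) ∪ W))

theorem isGnu_hol {V : Finset ℕ} (hV : ∀ p ∈ V, p.Prime) : IsGnu (∏ p ∈ V, p) (Hol V ∅) := by
  have h := isGnu_card (squarefree_prod hV)
  rw [sum_divisors_eq hV] at h
  convert h using 1
  unfold Hol
  refine Finset.sum_nbij' (fun D => V \ D) (fun D => V \ D) ?_ ?_ ?_ ?_ ?_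
  · intro D _; exact mem_powerset.mpr sdiff_subset
  · intro D _; exact mem_powerset.mpr sdiff_subset
  · intro D hD; exact Finset.sdiff_sdiff_eq_self (mem_powerset.mp hD)
  · intro D hD; exact Finset.sdiff_sdiff_eq_self (mem_powerset.mp hD)
  · intro D hD
    have h1 := mem_powerset.mp hD
    have h2 : ∀ p ∈ V \ D, p.Prime := fun p hp => hV p (mem_sdiff.mp hp).1
    have h3 : (∏ p ∈ V, p) / ∏ p ∈ V \ D, p = ∏ p ∈ D, p := by
      rw [← Finset.prod_sdiff h1, Nat.mul_div_cancel_left _ (Nat.pos_of_ne_zero (prod_ne_zero h2))]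
    rw [h3, card_sub h2 fun p hp => hV p (h1 hp), union_empty]

end Pool.Agent.MP_a96b63_al
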