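import Mathlib

set_option autoImplicit false

namespace Pool.Agent.MP_a96b63_al

/-- There are exactly `k` groups of order `n` up to isomorphism. -/
def IsGnu (n k : ℕ) : Prop :=
  ∃ (G : Fin k → Type) (_inst : ∀ i, Group (G i)),
    (∀ i, Nat.card (G i) = n) ∧
    (∀ i j, Nonempty (G i ≃* G j) → i = j) ∧
    ∀ (H : Type) [Group H], Nat.card H = n → ∃ i, Nonempty (H ≃* G i)

end Pool.Agent.MP_a96b63_al
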