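import Pool.Agent.MP_a96b63_al.Arith

/-!
Families of lists and their weights.
-/

set_option autoImplicit false

namespace Pool.Agent.MP_a96b63_al

open Finset

/-- Extension of a family of lists by one entry. -/
def ext (R : Finset ℕ) (L : Finset (List ℕ)) : Finset (List ℕ) :=
  (L ×ˢ R).image fun p => p.2 :: p.1

lemma mem_ext {R : Finset ℕ} {L : Finset (List ℕ)} {u : List ℕ} :
    u ∈ ext R L ↔ ∃ x ∈ R, ∃ v ∈ L, u = x :: v := by
  simp only [ext, mem_image, mem_product, Prod.exists]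
  constructor
  · rintro ⟨v, x, ⟨h1, h2⟩, rfl⟩
    exact ⟨x, h2, v, h1, rfl⟩
  · rintro ⟨x, h2, v, h1, rfl⟩
    exact ⟨v, x, ⟨h1, h2⟩, rfl⟩

lemma sum_ext (R : Finset ℕ) (L : Finset (List ℕ)) (f : List ℕ → ℝ) :
    ∑ u ∈ ext R L, f u = ∑ v ∈ L, ∑ x ∈ R, f (x :: v) := by
  rw [ext, sum_image, sum_product]
  rintro ⟨v, x⟩ _ ⟨v', x'⟩ _ h
  obtain ⟨h1, h2⟩ := List.cons.inj h
  exact Prod.ext h2 h1

lemma ext_mono (R : Finset ℕ) {L L' : Finset (List ℕ)} (h : L ⊆ L') : ext R L ⊆ ext R L' := by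
  intro u hu
  obtain ⟨x, hx, v, hv, rfl⟩ := mem_ext.mp hu
  exact mem_ext.mpr ⟨x, hx, v, h hv, rfl⟩

/-- The weight of a family. -/
noncomputable def wt (L : Finset (List ℕ)) : ℝ := ∑ l ∈ L, (la l : ℝ)⁻¹

lemma wt_nonneg (L : Finset (List ℕ)) : 0 ≤ wt L := sum_nonneg fun _ _ => by positivity

lemma inv_la_cons_le {x : ℕ} (hx : 0 < x) (v : List ℕ) :
    (la (x :: v) : ℝ)⁻¹ ≤ (la v : ℝ)⁻¹ * (x : ℝ)⁻¹ := by
  rw [← mul_inv, mul_comm]
  have := la_pos v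
  exact inv_anti₀ (by positivity) (by exact_mod_cast le_la_cons x v)

lemma mem_Lay {J x : ℕ} (h : x ∈ Lay J) : 4 ^ (2 * J) < x ∧ x ≤ 4 ^ (3 * J) ∧ x.Prime :=
  mem_PR.mp h

lemma wt_ext_le {J : ℕ} (hJ : 8 ≤ J) (L : Finset (List ℕ)) : wt (ext (Lay J) L) ≤ 62 * wt L := by
  rw [wt, sum_ext, wt, mul_sum]
  refine sum_le_sum fun v _ => ?_
  refine (sum_le_sum fun x hx => inv_la_cons_le (mem_Lay hx).2.2.pos v).trans ?_
  rw [← mul_sum, mul_comm]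
  gcongr
  exact weight_Lay_le hJ

lemma adm_ext {J : ℕ} (hJ : 1 ≤ J) {L : Finset (List ℕ)} (hL : ∀ l ∈ L, Adm l) :
    ∀ l ∈ ext (Lay J) L, Adm l := by
  intro u hu
  obtain ⟨x, hx, v, hv, rfl⟩ := mem_ext.mp hu
  intro y hy
  rcases List.mem_cons.mp hy with rfl | hy
  · obtain ⟨h1, -, h3⟩ := mem_Lay hx
    have : 4 ^ 1 ≤ 4 ^ (2 * J) := Nat.pow_le_pow_right (by norm_num) (by omega)
    rcases h3.eq_two_or_odd with h | h <;> omega
  · exact hL v hv y hy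

lemma la_cons_le_pow {x a b : ℕ} {v : List ℕ} (hb : 1 ≤ b) (hx : x ≤ 4 ^ b) (hv : la v ≤ 4 ^ a) :
    la (x :: v) ≤ 4 ^ (b + a + 1) := by
  have : 4 ^ 1 ≤ 4 ^ b := Nat.pow_le_pow_right (by norm_num) hb
  calc _ ≤ (x + 4) * la v := la_cons_le x v
    _ ≤ (4 * 4 ^ b) * 4 ^ a := Nat.mul_le_mul (by omega) hv
    _ = _ := by ring

lemma la_ext_le {J a b : ℕ} (hJ : 1 ≤ J) (hab : 3 * J + a + 1 ≤ b) {L : Finset (List ℕ)}
    (hL : ∀ l ∈ L, la l ≤ 4 ^ a) : ∀ l ∈ ext (Lay J) L, la l ≤ 4 ^ b := by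
  intro u hu
  obtain ⟨x, hx, v, hv, rfl⟩ := mem_ext.mp hu
  exact (la_cons_le_pow (by omega) (mem_Lay hx).2.1 (hL v hv)).trans
    (Nat.pow_le_pow_right (by norm_num) hab)

instance (l : List ℕ) : Decidable (Clean l) := by unfold Clean; infer_instance

/-- Clean lists of given length with entries in an interval. -/
def Gd (Y k m : ℕ) (l : List ℕ) : Prop := Clean l ∧ l.length = m ∧ ∀ y ∈ l, Y < y ∧ y ≤ 2 ^ k

lemma clean_cons {v : List ℕ} (hv : Clean v) {x : ℕ} (hx : x.Prime) (h2 : x ≠ 2)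
    (h : ∀ y ∈ v, ¬ (x = y ∨ y ∣ x - 1 ∨ x ∣ y - 1)) : Clean (x :: v) := by
  refine ⟨List.nodup_cons.mpr ⟨fun h1 => h x h1 (Or.inl rfl), hv.1⟩, ?_, ?_⟩
  · intro y hy
    rcases List.mem_cons.mp hy with rfl | hy
    · exact ⟨hx, h2⟩
    · exact hv.2.1 y hy
  · intro y hy y' hy'
    rcases List.mem_cons.mp hy with rfl | hz <;> rcases List.mem_cons.mp hy' with rfl | hz'
    · have := hx.two_le
      exact fun h => absurd (Nat.le_of_dvd (by omega) h) (by omega)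
    · exact fun h1 => h y' hz' (Or.inr (Or.inr h1))
    · exact fun h1 => h y hz (Or.inr (Or.inl h1))
    · exact hv.2.2 y hz y' hz'

lemma log_two_pow_le (k : ℕ) : Real.log (2 ^ k : ℕ) ≤ k := by
  push_cast
  rw [Real.log_pow]
  have := Real.log_two_lt_d9
  have : (0 : ℝ) ≤ k := by positivity
  nlinarith

lemma excluded_le {Y k y : ℕ} (hY : 2 ≤ Y) (hy : Y < y) (hyk : y ≤ 2 ^ k) (R : Finset ℕ)
    (hR : ∀ x ∈ R, Y < x ∧ x ≤ 2 ^ k ∧ x.Prime) :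
    ∑ x ∈ R with (x = y ∨ y ∣ x - 1 ∨ x ∣ y - 1), (x : ℝ)⁻¹ ≤ (3 + 2 * k) / Y := by
  have hY0 : (0 : ℝ) < Y := by exact_mod_cast (by omega : 0 < Y)
  have hy' : (Y : ℝ) ≤ y := by exact_mod_cast hy.le
  have h1 : ∑ x ∈ R with x = y, (x : ℝ)⁻¹ ≤ (Y : ℝ)⁻¹ := by
    refine (sum_le_sum_of_subset_of_nonneg (t := {y})
      (fun x hx => mem_singleton.mpr (mem_filter.mp hx).2) fun _ _ _ => by positivity).trans ?_
    rw [sum_singleton]
    exact inv_anti₀ hY0 hy'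
  have h2 : ∑ x ∈ R with y ∣ x - 1, (x : ℝ)⁻¹ ≤ (Y : ℝ)⁻¹ + (1 + k) / Y := by
    refine (class_weight _ (X := Y) (d := y) (T := 2 ^ k) (by omega) (by omega)
      (fun n hn => ⟨(hR n (mem_filter.mp hn).1).1, (hR n (mem_filter.mp hn).1).2.1⟩)
      fun n hn n' hn' => ?_).trans ?_
    · have a1 := (Nat.modEq_iff_dvd' (hR n (mem_filter.mp hn).1).2.2.one_le).mpr
        (mem_filter.mp hn).2
      have a2 := (Nat.modEq_iff_dvd' (hR n' (mem_filter.mp hn').1).2.2.one_le).mpr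
        (mem_filter.mp hn').2
      exact a1.symm.trans a2
    · gcongr
      exact log_two_pow_le k
  have h3 : ∑ x ∈ R with x ∣ y - 1, (x : ℝ)⁻¹ ≤ k / Y := by
    have a1 : #{x ∈ R | x ∣ y - 1} ≤ k := by
      have b1 : {x ∈ R | x ∣ y - 1} ⊆ (y - 1).primeFactors := fun x hx =>
        Nat.mem_primeFactors.mpr ⟨(hR x (mem_filter.mp hx).1).2.2, (mem_filter.mp hx).2, by omega⟩
      have b2 : 2 ^ #(y - 1).primeFactors ≤ 2 ^ k :=
        (pow_card_le_prod _ _ _ fun q hq => (Nat.prime_of_mem_primeFactors hq).two_le).trans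
          ((Nat.le_of_dvd (by omega) (Nat.prod_primeFactors_dvd _)).trans (by omega))
      exact (card_le_card b1).trans ((Nat.pow_le_pow_iff_right (by norm_num)).mp b2)
    refine (sum_le_card_nsmul _ _ (Y : ℝ)⁻¹ fun x hx => inv_anti₀ hY0
      (by exact_mod_cast (hR x (mem_filter.mp hx).1).1.le)).trans ?_
    rw [nsmul_eq_mul, div_eq_mul_inv]
    gcongr
  calc _ ≤ ∑ x ∈ R with x = y, (x : ℝ)⁻¹ + ∑ x ∈ R with y ∣ x - 1, (x : ℝ)⁻¹ +
        ∑ x ∈ R with x ∣ y - 1, (x : ℝ)⁻¹ := by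
        simp only [sum_filter, ← sum_add_distrib]
        refine sum_le_sum fun x _ => ?_
        have : (0 : ℝ) ≤ (x : ℝ)⁻¹ := by positivity
        split_ifs <;> first | linarith | tauto
    _ ≤ (Y : ℝ)⁻¹ + ((Y : ℝ)⁻¹ + (1 + k) / Y) + k / Y := by gcongr
    _ = _ := by field_simp; ring

lemma sum_exists_le {ι : Type*} (v : List ι) (R : Finset ℕ) (P : ι → ℕ → Prop)
    [∀ y x, Decidable (P y x)] (f : ℕ → ℝ) (hf : ∀ x, 0 ≤ f x)
    {B : ℝ} (h : ∀ y ∈ v, ∑ x ∈ R with P y x, f x ≤ B) :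
    ∑ x ∈ R with ∃ y ∈ v, P y x, f x ≤ v.length * B := by
  induction v with
  | nil => simp
  | cons y v ih =>
    have h1 := ih fun z hz => h z (List.mem_cons_of_mem _ hz)
    have h2 := h y List.mem_cons_self
    rw [List.length_cons]
    push_cast
    refine le_trans ?_ (show ∑ x ∈ R with ∃ y ∈ v, P y x, f x + ∑ x ∈ R with P y x, f x ≤ _ by
      linarith)
    simp only [sum_filter, ← sum_add_distrib, List.mem_cons, exists_eq_or_imp]
    refine sum_le_sum fun x _ => ?_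
    have := hf x
    by_cases a : P y x <;> by_cases b : ∃ y ∈ v, P y x <;>
      simp only [a, b, or_true, true_or, or_self, if_true, if_false] <;> linarith

lemma clean_weight {Y k m : ℕ} (hY : 2 ≤ Y) {v : List ℕ} (hv : Gd Y k m v) (R : Finset ℕ)
    (hR : ∀ x ∈ R, Y < x ∧ x ≤ 2 ^ k ∧ x.Prime) :
    ∑ x ∈ R, (x : ℝ)⁻¹ - m * ((3 + 2 * k) / Y) ≤ ∑ x ∈ R with Clean (x :: v), (x : ℝ)⁻¹ := by
  classical
  have h1 := sum_exists_le v R (fun y x => x = y ∨ y ∣ x - 1 ∨ x ∣ y - 1) (fun x => (x : ℝ)⁻¹)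
    (fun _ => by positivity) fun y hy => excluded_le hY (hv.2.2 y hy).1 (hv.2.2 y hy).2 R hR
  rw [hv.2.1] at h1
  rw [← sum_filter_add_sum_filter_not R fun x => Clean (x :: v)]
  have h2 : ∑ x ∈ R with ¬ Clean (x :: v), (x : ℝ)⁻¹ ≤
      ∑ x ∈ R with ∃ y ∈ v, (x = y ∨ y ∣ x - 1 ∨ x ∣ y - 1), (x : ℝ)⁻¹ := by
    refine sum_le_sum_of_subset_of_nonneg (fun x hx => ?_) fun _ _ _ => by positivity
    obtain ⟨a1, a2⟩ := mem_filter.mp hx
    refine mem_filter.mpr ⟨a1, by_contra fun a3 => a2 (clean_cons hv.1 (hR x a1).2.2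
      (by have := (hR x a1).1; omega) fun y hy a4 => a3 ⟨y, hy, a4⟩)⟩
  linarith

/-- Clean extensions. -/
def cext (R : Finset ℕ) (L : Finset (List ℕ)) : Finset (List ℕ) := (ext R L).filter Clean

lemma cext_gd {Y k m : ℕ} {R : Finset ℕ} (hR : ∀ x ∈ R, Y < x ∧ x ≤ 2 ^ k ∧ x.Prime)
    {L : Finset (List ℕ)} (hL : ∀ l ∈ L, Gd Y k m l) : ∀ l ∈ cext R L, Gd Y k (m + 1) l := by
  intro u hu
  obtain ⟨h1, h2⟩ := mem_filter.mp hu
  obtain ⟨x, hx, v, hv, rfl⟩ := mem_ext.mp h1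
  refine ⟨h2, by rw [List.length_cons, (hL v hv).2.1], fun y hy => ?_⟩
  rcases List.mem_cons.mp hy with rfl | hy
  · exact ⟨(hR _ hx).1, (hR _ hx).2.1⟩
  · exact (hL v hv).2.2 y hy

lemma wt_cext {Y k m : ℕ} (hY : 4 ≤ Y) {R : Finset ℕ} (hR : ∀ x ∈ R, Y < x ∧ x ≤ 2 ^ k ∧ x.Prime)
    {L : Finset (List ℕ)} (hL : ∀ l ∈ L, Gd Y k m l) {c : ℝ}
    (hc : 2 * c ≤ ∑ x ∈ R, (x : ℝ)⁻¹ - m * ((3 + 2 * k) / Y)) : c * wt L ≤ wt (cext R L) := by
  rw [wt, wt, cext, sum_filter, sum_ext, mul_sum]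
  refine sum_le_sum fun v hv => ?_
  have h1 := hc.trans (clean_weight (by omega) (hL v hv) R hR)
  rw [← sum_filter]
  calc _ ≤ (∑ x ∈ R with Clean (x :: v), (x : ℝ)⁻¹) / 2 * (la v : ℝ)⁻¹ := by
        gcongr; linarith
    _ ≤ _ := by
        rw [sum_div, sum_mul]
        refine sum_le_sum fun x hx => ?_
        have h2 := (hR x (mem_filter.mp hx).1).1
        have h3 : la (x :: v) ≤ 2 * x * la v :=
          (la_cons_le x v).trans (Nat.mul_le_mul_right _ (by omega))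
        have h4 := la_pos (x :: v)
        rw [show (x : ℝ)⁻¹ / 2 * (la v : ℝ)⁻¹ = (2 * x * la v : ℝ)⁻¹ by
          rw [mul_inv, mul_inv]; ring]
        exact inv_anti₀ (by exact_mod_cast h4) (by exact_mod_cast h3)

/-- The inner families. -/
def inner (R : Finset ℕ) : ℕ → Finset (List ℕ)
  | 0 => {[]}
  | i + 1 => cext R (inner R i)

lemma inner_spec {Y k M : ℕ} (hY : 4 ≤ Y) (hk : 1 ≤ k) {R : Finset ℕ}
    (hR : ∀ x ∈ R, Y < x ∧ x ≤ 2 ^ k ∧ x.Prime) (hw : 5 ≤ ∑ x ∈ R, (x : ℝ)⁻¹)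
    (hM : M * ((3 + 2 * k : ℝ) / Y) ≤ 1) (i : ℕ) (hi : i ≤ M) :
    (∀ l ∈ inner R i, Gd Y k i l ∧ la l ≤ 4 ^ ((k + 1) * i)) ∧ 2 ^ i ≤ wt (inner R i) := by
  induction i with
  | zero =>
    refine ⟨fun l hl => ?_, by simp [inner, wt]⟩
    rw [mem_singleton.mp hl]
    exact ⟨⟨⟨List.nodup_nil, by simp, by simp⟩, rfl, by simp⟩, by simp⟩
  | succ i ih =>
    obtain ⟨h1, h2⟩ := ih (by omega)
    refine ⟨fun l hl => ⟨cext_gd hR (fun l hl => (h1 l hl).1) l hl, ?_⟩, ?_⟩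
    · obtain ⟨x, hx, v, hv, rfl⟩ := mem_ext.mp (mem_filter.mp hl).1
      refine (la_cons_le_pow hk ((hR x hx).2.1.trans (Nat.pow_le_pow_left (by norm_num) k))
        (h1 v hv).2).trans (le_of_eq ?_)
      congr 1; ring
    · have h3 : (i : ℝ) * ((3 + 2 * k : ℝ) / Y) ≤ 1 := by
        refine le_trans ?_ hM
        gcongr
        omega
      have := wt_cext hY hR (fun l hl => (h1 l hl).1) (c := 2) (by linarith)
      rw [pow_succ]
      change _ ≤ wt (cext R (inner R i))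
      linarith

end Pool.Agent.MP_a96b63_al
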