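import Pool.Agent.MP_a96b63_al.Defs

/-!
Classification of the groups of squarefree order.
-/

set_option autoImplicit false

namespace Pool.Agent.MP_a96b63_al

open Multiplicative SemidirectProduct

/-- Units act on the additive group by multiplication. -/
def act (a : ℕ) : (ZMod a)ˣ →* MulAut (Multiplicative (ZMod a)) where
  toFun u :=
    { toFun := fun x => ofAdd ((u : ZMod a) * x.toAdd)
      invFun := fun x => ofAdd (((u⁻¹ : (ZMod a)ˣ) : ZMod a) * x.toAdd)
      left_inv := fun x => by simp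
      right_inv := fun x => by simp
      map_mul' := fun x y => by simp [mul_add] }
  map_one' := by ext x; simp
  map_mul' u v := by ext x; simp [mul_assoc]

@[simp] lemma act_apply (a : ℕ) (u : (ZMod a)ˣ) (x : Multiplicative (ZMod a)) :
    act a u x = ofAdd ((u : ZMod a) * x.toAdd) := rfl

lemma aut_apply {a : ℕ} (σ : MulAut (Multiplicative (ZMod a))) (x : ZMod a) :
    (σ (ofAdd 1)).toAdd * x = (σ (ofAdd x)).toAdd := by
  have : ofAdd x = ofAdd (1 : ZMod a) ^ (x.cast : ℤ) := by
    rw [← ofAdd_zsmul, zsmul_one, ZMod.intCast_zmod_cast]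
  rw [this, map_zpow, toAdd_zpow, zsmul_eq_mul, ZMod.intCast_zmod_cast, mul_comm]

lemma act_bijective (a : ℕ) : Function.Bijective (act a) := by
  constructor
  · intro u v h
    have := congrArg (fun σ : MulAut (Multiplicative (ZMod a)) => (σ (ofAdd 1)).toAdd) h
    exact Units.ext (by simpa using this)
  · intro σ
    refine ⟨Units.mkOfMulEqOne (σ (ofAdd 1)).toAdd (σ⁻¹ (ofAdd 1)).toAdd ?_, ?_⟩
    · rw [aut_apply]; simp
    · ext x
      simp only [act_apply, Units.val_mkOfMulEqOne, aut_apply]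
      simp

/-- The model groups. -/
abbrev Mod (a : ℕ) (H : Subgroup (ZMod a)ˣ) : Type :=
  Multiplicative (ZMod a) ⋊[(act a).comp H.subtype] H

lemma card_Mod (a : ℕ) (H : Subgroup (ZMod a)ˣ) : Nat.card (Mod a H) = a * Nat.card H := by
  rw [SemidirectProduct.card, Nat.card_congr (toAdd (α := ZMod a)), Nat.card_zmod]

lemma exists_cyclic_normal (G : Type) [Group G] [Finite G] [IsZGroup G] :
    ∃ F : Subgroup G, F.Normal ∧ IsCyclic F ∧ Subgroup.centralizer (F : Set G) ≤ F := by
  have hc : IsCyclic (commutator G) := IsZGroup.isCyclic_commutator G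
  have hle : commutator G ≤ Subgroup.centralizer (commutator G : Set G) := by
    intro x hx
    rw [Subgroup.mem_centralizer_iff]
    intro y hy
    have := mul_comm' (⟨y, hy⟩ : commutator G) ⟨x, hx⟩
    exact congrArg Subtype.val this
  refine ⟨Subgroup.centralizer (commutator G : Set G), inferInstance, ?_,
    Subgroup.centralizer_le hle⟩
  have hcomm : IsMulCommutative (Subgroup.centralizer (commutator G : Set G)) := by
    refine MonoidHom.isMulCommutative_of_isCyclic_of_ker_le_center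
      (Abelianization.of.comp (Subgroup.centralizer (commutator G : Set G)).subtype) ?_
    intro x hx
    rw [MonoidHom.mem_ker, MonoidHom.comp_apply, ← MonoidHom.mem_ker, Abelianization.ker_of] at hx
    rw [Subgroup.mem_center_iff]
    intro y
    exact Subtype.ext (y.2 x hx).symm
  let _ : CommGroup (Subgroup.centralizer (commutator G : Set G)) :=
    { (inferInstance : Group _) with mul_comm := mul_comm' }
  infer_instance

lemma exists_Mod (G : Type) [Group G] (hG : Squarefree (Nat.card G)) :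
    ∃ (a : ℕ) (H : Subgroup (ZMod a)ˣ), Nonempty (G ≃* Mod a H) := by
  have hfin : Finite G := Nat.finite_of_card_ne_zero hG.ne_zero
  have hZ : IsZGroup G := IsZGroup.of_squarefree hG
  obtain ⟨F, hN, hC, hF⟩ := exists_cyclic_normal G
  have hcop : Nat.Coprime (Nat.card F) F.index :=
    Nat.coprime_of_squarefree_mul (by rw [Subgroup.card_mul_index]; exact hG)
  obtain ⟨K, hK⟩ := Subgroup.exists_right_complement'_of_coprime hcop
  let e : F ≃* Multiplicative (ZMod (Nat.card F)) := (zmodCyclicMulEquiv hC).symm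
  let φ1 : K →* MulAut F :=
    (F.normalizerMonoidHom).comp (Subgroup.inclusion (F.normalizer_eq_top ▸ le_top))
  let E := MulEquiv.ofBijective _ (act_bijective (Nat.card F))
  let φ : K →* (ZMod (Nat.card F))ˣ :=
    E.symm.toMonoidHom.comp ((MulAut.congr e).toMonoidHom.comp φ1)
  have hφ1 : Function.Injective φ1 := by
    rw [injective_iff_map_eq_one]
    intro k hk
    have h1 : (k : G) ∈ F := by
      apply hF
      rw [Subgroup.mem_centralizer_iff]
      intro y hy
      have := congrArg (fun σ : MulAut F => ((σ ⟨y, hy⟩ : F) : G)) hk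
      simp only [φ1, MonoidHom.comp_apply, Subgroup.normalizerMonoidHom_apply_apply_coe,
        MulAut.one_apply, Subgroup.coe_inclusion] at this
      rw [mul_inv_eq_iff_eq_mul] at this
      exact this.symm
    exact Subtype.ext (Subgroup.disjoint_def.mp hK.disjoint h1 k.2)
  have hφ : Function.Injective φ :=
    E.symm.injective.comp ((MulAut.congr e).injective.comp hφ1)
  refine ⟨Nat.card F, φ.range, ⟨(mulEquivSubgroup hK).symm.trans
    (SemidirectProduct.congr e (MonoidHom.ofInjective hφ) fun g => ?_)⟩⟩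
  have : act (Nat.card F) (φ g) = MulAut.congr e (φ1 g) := E.apply_symm_apply _
  change (φ1 g).trans e = e.trans (act (Nat.card F) (φ g))
  rw [this]
  ext x
  simp [φ1]

lemma mul_inl {a : ℕ} {H : Subgroup (ZMod a)ˣ} (g : Mod a H) (t : ZMod a) :
    g * inl (ofAdd t) = inl (ofAdd (((g.right : (ZMod a)ˣ) : ZMod a) * t)) * g := by
  ext
  · simp [mul_comm]
  · simp

lemma le_range_inl {a : ℕ} (ha : Squarefree a) {H : Subgroup (ZMod a)ˣ} (N : Subgroup (Mod a H))
    (hN : N.Normal) (hc : ∀ x ∈ N, ∀ y ∈ N, x * y = y * x) {x : Mod a H} (hx : x ∈ N) :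
    x.right = 1 := by
  have : IsReduced (ZMod a) := by
    have : Fact (Squarefree a) := ⟨ha⟩
    infer_instance
  set r : ZMod a := ((x.right : (ZMod a)ˣ) : ZMod a) with hr
  have h1 : x * ((inl (ofAdd (1 : ZMod a)) * x⁻¹ * (inl (ofAdd (1 : ZMod a)))⁻¹)) ∈ N :=
    N.mul_mem hx (hN.conj_mem _ (N.inv_mem hx) _)
  have h2 : x * ((inl (ofAdd (1 : ZMod a)) * x⁻¹ * (inl (ofAdd (1 : ZMod a)))⁻¹)) =
      (inl (ofAdd (r - 1)) : Mod a H) := by
    rw [← mul_assoc, ← mul_assoc, mul_inl, mul_one, mul_inv_cancel_right, ← map_inv, ← map_mul,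
      ← ofAdd_neg, ← ofAdd_add, sub_eq_add_neg]
  rw [h2] at h1
  have h3 := hc _ h1 x hx
  rw [mul_inl, mul_left_inj] at h3
  have h3' := ofAdd.injective (inl_injective h3)
  have h4 : (1 - r) ^ 2 = 0 := by linear_combination -h3'
  have h5 := IsReduced.eq_zero _ ⟨2, h4⟩
  exact Subtype.ext (Units.ext (sub_eq_zero.mp h5).symm)

lemma map_inl {a a' : ℕ} (ha' : Squarefree a') {H : Subgroup (ZMod a)ˣ}
    {H' : Subgroup (ZMod a')ˣ} (ψ : Mod a H ≃* Mod a' H') (x : Multiplicative (ZMod a)) :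
    ψ (inl x) = inl (ψ (inl x)).left := by
  have h : (ψ (inl x)).right = 1 := by
    refine le_range_inl ha' ((inl : _ →* Mod a H).range.map ψ.toMonoidHom) ?_ ?_ ?_
    · rw [range_inl_eq_ker_rightHom]
      exact Subgroup.Normal.map inferInstance _ ψ.surjective
    · rintro _ ⟨_, ⟨u, rfl⟩, rfl⟩ _ ⟨_, ⟨v, rfl⟩, rfl⟩
      rw [← map_mul, ← map_mul, ← map_mul, ← map_mul, mul_comm]
    · exact ⟨inl x, ⟨x, rfl⟩, rfl⟩
  ext
  · simp
  · simp [h]

lemma le_of_iso {a a' : ℕ} (ha' : Squarefree a') {H : Subgroup (ZMod a)ˣ}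
    {H' : Subgroup (ZMod a')ˣ} (ψ : Mod a H ≃* Mod a' H') : a ≤ a' := by
  have : NeZero a' := ⟨ha'.ne_zero⟩
  have hinj : Function.Injective fun x : ZMod a => (ψ (inl (ofAdd x))).left.toAdd := by
    intro x y h
    have h1 : ψ (inl (ofAdd x)) = ψ (inl (ofAdd y)) := by
      rw [map_inl ha' ψ, map_inl ha' ψ (ofAdd y)]
      exact congrArg inl (toAdd.injective h)
    exact ofAdd.injective (inl_injective (ψ.injective h1))
  simpa using Nat.card_le_card_of_injective _ hinj

lemma sub_le_of_iso {a : ℕ} (ha : Squarefree a) {H H' : Subgroup (ZMod a)ˣ}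
    (ψ : Mod a H ≃* Mod a H') : H ≤ H' := by
  intro h hh
  let σ : MulAut (Multiplicative (ZMod a)) :=
    { toFun := fun x => (ψ (inl x)).left
      invFun := fun x => (ψ.symm (inl x)).left
      left_inv := fun x => by
        simp only
        rw [← map_inl ha ψ]; simp
      right_inv := fun x => by
        simp only
        rw [← map_inl ha ψ.symm]; simp
      map_mul' := fun x y => by
        apply inl_injective (φ := (act a).comp H'.subtype)
        rw [← map_inl ha ψ, map_mul inl (ψ (inl x)).left, ← map_inl ha ψ, ← map_inl ha ψ, map_mul,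
          map_mul] }
  obtain ⟨u, hu⟩ := (act_bijective a).2 σ
  have hσ : ∀ x, ψ (inl x) = inl (act a u x) := fun x => by rw [hu]; exact map_inl ha ψ x
  have h1 := congrArg ψ (mul_inl (inr ⟨h, hh⟩ : Mod a H) 1)
  rw [map_mul, map_mul, hσ, hσ, act_apply, act_apply, mul_inl, mul_left_inj] at h1
  set g := ψ (inr ⟨h, hh⟩)
  have h2 := ofAdd.injective (inl_injective h1)
  simp only [toAdd_ofAdd, mul_one, right_inr] at h2
  have h3 : (h : ZMod a) = ((g.right : (ZMod a)ˣ) : ZMod a) := by
    apply u.mul_right_inj.mp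
    rw [← h2]; ring
  rw [Units.ext h3]
  exact g.right.2

lemma isGnu_of_family {ι : Type} [Finite ι] {n : ℕ} (G : ι → Type) [∀ i, Group (G i)]
    (h1 : ∀ i, Nat.card (G i) = n) (h2 : ∀ i j, Nonempty (G i ≃* G j) → i = j)
    (h3 : ∀ (H : Type) [Group H], Nat.card H = n → ∃ i, Nonempty (H ≃* G i)) :
    IsGnu n (Nat.card ι) := by
  let E := (Finite.equivFin ι).symm
  refine ⟨fun i => G (E i), inferInstance, fun i => h1 _, fun i j h => E.injective (h2 _ _ h),
    fun H _ hH => ?_⟩
  obtain ⟨i, hi⟩ := h3 H hH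
  obtain ⟨j, rfl⟩ := E.surjective i
  exact ⟨j, hi⟩

theorem isGnu_card {n : ℕ} (hn : Squarefree n) :
    IsGnu n (∑ a ∈ n.divisors, Nat.card {H : Subgroup (ZMod a)ˣ // Nat.card H = n / a}) := by
  have hfin : ∀ a : n.divisors, Finite {H : Subgroup (ZMod a)ˣ // Nat.card H = n / a} := by
    intro a
    have : NeZero (a : ℕ) := ⟨(Nat.pos_of_mem_divisors a.2).ne'⟩
    infer_instance
  rw [← Finset.sum_coe_sort n.divisors
      fun a => Nat.card {H : Subgroup (ZMod a)ˣ // Nat.card H = n / a}, ← Nat.card_sigma]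
  refine isGnu_of_family (fun x => Mod x.1 x.2.1) ?_ ?_ fun G _ hG => ?_
  · rintro ⟨⟨a, ha⟩, H, hH⟩
    rw [card_Mod, hH, Nat.mul_div_cancel' (Nat.dvd_of_mem_divisors ha)]
  · rintro ⟨⟨a, ha⟩, H, hH⟩ ⟨⟨a', ha'⟩, H', hH'⟩ ⟨ψ⟩
    have s1 := hn.squarefree_of_dvd (Nat.dvd_of_mem_divisors ha)
    have s2 := hn.squarefree_of_dvd (Nat.dvd_of_mem_divisors ha')
    obtain rfl : a = a' := le_antisymm (le_of_iso s2 ψ) (le_of_iso s1 ψ.symm)
    obtain rfl : H = H' := le_antisymm (sub_le_of_iso s1 ψ) (sub_le_of_iso s1 ψ.symm)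
    rfl
  · obtain ⟨a, H, ⟨ψ⟩⟩ := exists_Mod G (hG ▸ hn)
    have h1 : n = a * Nat.card H := by rw [← card_Mod, ← hG]; exact Nat.card_congr ψ.toEquiv
    have ha : a ∈ n.divisors := Nat.mem_divisors.mpr ⟨⟨_, h1⟩, hn.ne_zero⟩
    have h2 : Nat.card H = n / a := by
      rw [h1, Nat.mul_div_cancel_left _ (Nat.pos_of_mem_divisors ha)]
    exact ⟨⟨⟨a, ha⟩, H, h2⟩, ⟨ψ⟩⟩

end Pool.Agent.MP_a96b63_al
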