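import Pool.Agent.MP_a96b63_al.Pair

/-!
Positive density of the values.
-/

set_option autoImplicit false

namespace Pool.Agent.MP_a96b63_al

open Finset

lemma Gd.mono {Y k k' m : ℕ} {l : List ℕ} (h : Gd Y k m l) (hk : k ≤ k') : Gd Y k' m l :=
  ⟨h.1, h.2.1, fun y hy => ⟨(h.2.2 y hy).1,
    (h.2.2 y hy).2.trans (Nat.pow_le_pow_right (by norm_num) hk)⟩⟩

lemma four_pow (a : ℕ) : 4 ^ a = 2 ^ (2 * a) := by rw [pow_mul]; rfl

lemma family {lam K J : ℕ} (h15 : 15 ≤ lam) (hK : K = 2 ^ 80) (hJ : J = (2 * (K * lam) + 1) * (2 * lam))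
    (hb : 10 ^ 5 * J ^ 9 ≤ 2 ^ lam) :
    ∃ L U : Finset (List ℕ), Inn J L ∧ 4 ^ lam ≤ wt L ∧ U ⊆ top J L ∧
      (∀ u ∈ U, Gd (4 ^ lam) (78 * J) (2 * lam + 3) u) ∧ wt L / 96 ^ 3 ≤ wt U := by
  have hK1 : 1 ≤ K * lam := Nat.mul_pos (by rw [hK]; positivity) (by omega)
  have hJ1 : 2 * lam ≤ J := by rw [hJ]; exact Nat.le_mul_of_pos_left _ (by omega)
  have hJ2 : 2 * (K * lam) ≤ J := by
    rw [hJ]; exact (Nat.le_succ _).trans (Nat.le_mul_of_pos_right _ (by omega))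
  have hY : 4 ≤ 4 ^ lam := le_trans (by norm_num) (pw4 (show 1 ≤ lam by omega))
  have hex : ∀ m k : ℕ, m ≤ 2 * lam + 2 → k ≤ 78 * J →
      (m : ℝ) * ((3 + 2 * k) / (4 ^ lam : ℕ)) ≤ 1 / 48 := by
    intro m k hm hk
    have a1 : m * (3 + 2 * k) * 48 ≤ 4 ^ lam := by
      calc _ ≤ (2 * J) * (159 * J) * 48 :=
            Nat.mul_le_mul_right _ (Nat.mul_le_mul (by omega) (by omega))
        _ = 15264 * J ^ 2 := by ring
        _ ≤ 10 ^ 5 * J ^ 9 := Nat.mul_le_mul (by norm_num) (Nat.pow_le_pow_right (by omega) (by norm_num))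
        _ ≤ 4 ^ lam := hb.trans (Nat.pow_le_pow_left (by norm_num) _)
    rw [← mul_div_assoc, div_le_div_iff₀ (by positivity) (by norm_num), one_mul]
    exact_mod_cast a1
  obtain ⟨h1, h2⟩ := inner_spec (Y := 4 ^ lam) (k := 2 * (K * lam)) (M := 2 * lam) hY (by omega)
    (R := PR (4 ^ lam) (4 ^ (K * lam))) (fun x hx => by rw [← four_pow]; exact mem_PR.mp hx)
    (by have := weight_inner h15 80; rw [← hK] at this; norm_num at this; exact this)
    ((hex _ _ (by omega) (by omega)).trans (by norm_num)) (2 * lam) le_rfl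
  set L := inner (PR (4 ^ lam) (4 ^ (K * lam))) (2 * lam)
  have hR : ∀ J', J ≤ J' → J' ≤ 13 * J → ∀ x ∈ Lay J', 4 ^ lam < x ∧ x ≤ 2 ^ (78 * J) ∧ x.Prime := by
    intro J' a1 a2 x hx
    obtain ⟨b1, b2, b3⟩ := mem_Lay hx
    rw [four_pow] at b2
    exact ⟨(pw4 (by omega)).trans_lt b1, b2.trans (Nat.pow_le_pow_right (by norm_num) (by omega)), b3⟩
  have hc : ∀ J' m : ℕ, J ≤ J' → m ≤ 2 * lam + 2 → 2 * (1 / 96 : ℝ) ≤
      ∑ x ∈ Lay J', (x : ℝ)⁻¹ - m * ((3 + 2 * (78 * J : ℕ)) / (4 ^ lam : ℕ)) := by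
    intro J' m a1 a2
    have := weight_Lay (J := J') (by omega)
    have := hex m (78 * J) a2 le_rfl
    linarith
  have g0 : ∀ l ∈ L, Gd (4 ^ lam) (78 * J) (2 * lam) l := fun l hl => (h1 l hl).1.mono (by omega)
  have g1 := cext_gd (hR J le_rfl (by omega)) g0
  have g2 := cext_gd (hR (2 * J) (by omega) (by omega)) g1
  have g3 := cext_gd (hR (13 * J) (by omega) le_rfl) g2
  have w1 := wt_cext hY (hR J le_rfl (by omega)) g0 (hc J _ le_rfl (by omega))
  have w2 := wt_cext hY (hR (2 * J) (by omega) (by omega)) g1 (hc (2 * J) _ (by omega) (by omega))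
  have w3 := wt_cext hY (hR (13 * J) (by omega) le_rfl) g2 (hc (13 * J) _ (by omega) le_rfl)
  refine ⟨L, _, ⟨by omega, fun l hl => (h1 l hl).1.1.adm, fun l hl => hJ ▸ (h1 l hl).2⟩, ?_, ?_, g3,
    by linarith⟩
  · rwa [pow_mul, show (2 : ℝ) ^ 2 = 4 by norm_num] at h2
  · exact (filter_subset _ _).trans (ext_mono _ ((filter_subset _ _).trans
      (ext_mono _ (filter_subset _ _))))

lemma params (K J0 : ℕ) : ∃ l0 : ℕ, ∀ lam : ℕ, l0 ≤ lam → 15 ≤ lam ∧ J0 ≤ lam ∧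
    10 ^ 5 * ((2 * (K * lam) + 1) * (2 * lam)) ^ 9 ≤ 2 ^ lam := by
  have h := (tendsto_pow_const_div_const_pow_of_one_lt 18 (r := 2) one_lt_two).eventually
    (gt_mem_nhds (show (0 : ℝ) < 1 / (10 ^ 5 * (4 * K + 2) ^ 9 : ℕ) by positivity))
  obtain ⟨l0, hl0⟩ := Filter.eventually_atTop.mp h
  refine ⟨l0 + J0 + 15, fun lam hl => ⟨by omega, by omega, ?_⟩⟩
  have h1 := (hl0 lam (by omega)).le
  rw [div_le_div_iff₀ (by positivity) (by positivity), one_mul] at h1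
  have h2 : lam ^ 18 * (10 ^ 5 * (4 * K + 2) ^ 9) ≤ 2 ^ lam := by exact_mod_cast h1
  refine le_trans ?_ h2
  calc _ ≤ 10 ^ 5 * (lam ^ 2 * (4 * K + 2)) ^ 9 := by
        refine Nat.mul_le_mul_left _ (Nat.pow_le_pow_left ?_ _)
        nlinarith [show 1 ≤ lam by omega, Nat.zero_le (K * lam * lam)]
    _ = _ := by ring

lemma sizes {N l J : ℕ} (h1 : 2 ^ l ≤ N) (hJ : 416 * J ≤ l) (hl : 60 ≤ l) {A : ℕ} (hA0 : 0 < A)
    (hA : A ≤ 4 ^ (52 * J)) : 2 ^ (l / 2) ≤ N / (8 * A) := by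
  rw [Nat.le_div_iff_mul_le (by omega)]
  refine le_trans ?_ h1
  rw [four_pow] at hA
  calc _ ≤ 2 ^ (l / 2) * (2 ^ 3 * 2 ^ (2 * (52 * J))) := by gcongr; norm_num
    _ ≤ _ := by
      rw [← pow_add, ← pow_add]
      exact Nat.pow_le_pow_right (by norm_num) (by omega)

lemma count_ge {N l lam J : ℕ} (h1 : 2 ^ l ≤ N) (h2 : N < 2 ^ (l + 1)) (hJ : 416 * J ≤ l)
    (hl : 60 ≤ l) (h15 : 15 ≤ lam) (hlam : l < 2 ^ lam) (hb : 8 * (2 * lam + 3) ≤ 2 ^ lam)
    {u : List ℕ} (hu : Gd (4 ^ lam) (78 * J) (2 * lam + 3) u) (hA : la u ≤ 4 ^ (52 * J)) :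
    N / (64 * l) * (la u : ℝ)⁻¹ ≤ #{p ∈ PR (N / (8 * la u)) (4 * (N / (8 * la u))) | Clean (p :: u)} := by
  have hA0 := la_pos u
  have h3 := sizes h1 hJ hl hA0 hA
  have hp : ∀ a, a ≤ l / 2 → 2 ^ a ≤ N / (8 * la u) := fun a ha =>
    (Nat.pow_le_pow_right (by norm_num) ha).trans h3
  refine le_trans ?_ (count_clean (le_trans (by norm_num) (pw4 (show 1 ≤ lam by omega))) hu
    (hp _ (by omega)) (le_trans (by norm_num) (hp 30 (by omega))))
  have h4 : N ≤ 16 * la u * (N / (8 * la u)) := by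
    have := Nat.lt_mul_div_succ N (show 0 < 8 * la u by omega)
    have := hp 0 (by omega)
    nlinarith
  have h5 : 4 * (N / (8 * la u)) ≤ 2 ^ (l + 1) := by
    have := Nat.mul_div_le N (8 * la u)
    nlinarith [Nat.zero_le (N / (8 * la u))]
  have h0 := hp 0 (by omega)
  generalize N / (8 * la u) = M at *
  have hM : (1 : ℝ) ≤ M := by exact_mod_cast h0
  have h6 : Real.log (4 * M) ≤ l + 1 := by
    have := log_two_pow_le (l + 1)
    refine le_trans (Real.log_le_log (by linarith) (by exact_mod_cast h5)) (this.trans ?_)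
    push_cast; rfl
  have h7 : 0 < Real.log (4 * M) := Real.log_pos (by linarith)
  have hl' : (60 : ℝ) ≤ l := by exact_mod_cast hl
  have h8 : M / ((l : ℝ) + 1) ≤ M / Real.log (4 * M) := by gcongr
  have h9 : ((2 * lam + 3 : ℕ) : ℝ) * (4 * M / (4 ^ lam : ℕ)) ≤ M / (2 * ((l : ℝ) + 1)) := by
    have a1 : (2 * lam + 3) * 4 * (2 * (l + 1)) ≤ 4 ^ lam := by
      rw [show 4 ^ lam = 2 ^ lam * 2 ^ lam by rw [← mul_pow]; rfl]
      calc _ = 8 * (2 * lam + 3) * (l + 1) := by ring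
        _ ≤ _ := Nat.mul_le_mul hb hlam
    have a2 : ((2 * lam + 3 : ℕ) : ℝ) * 4 * (2 * (l + 1)) ≤ (4 ^ lam : ℕ) := by exact_mod_cast a1
    rw [← mul_div_assoc, div_le_div_iff₀ (by positivity) (by positivity)]
    nlinarith
  have h10 : N / (64 * l) * (la u : ℝ)⁻¹ ≤ M / (2 * ((l : ℝ) + 1)) := by
    have a1 : (N : ℝ) ≤ 16 * la u * M := by exact_mod_cast h4
    have a2 : (0 : ℝ) < la u := by exact_mod_cast hA0
    rw [← div_eq_mul_inv, div_div, div_le_div_iff₀ (by positivity) (by positivity)]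
    calc (N : ℝ) * (2 * ((l : ℝ) + 1)) ≤ 16 * (la u : ℝ) * M * (4 * l) :=
          mul_le_mul a1 (by linarith) (by positivity) (by positivity)
      _ = _ := by ring
  have h11 : M / ((l : ℝ) + 1) = 2 * (M / (2 * ((l : ℝ) + 1))) := by field_simp
  linarith

lemma diag_count {u : List ℕ} {N : ℕ} (P : Finset ℕ) (hP : ∀ p ∈ P, 0 < p ∧ la (p :: u) ≤ N) :
    ∑ p ∈ P, ∑ p' ∈ P, (if la (p' :: u) = la (p :: u) then (1 : ℝ) else 0) ≤ N * (la u : ℝ)⁻¹ := by
  have hA := la_pos u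
  have h1 : ∀ p ∈ P, ∑ p' ∈ P, (if la (p' :: u) = la (p :: u) then (1 : ℝ) else 0) = 1 := by
    intro p hp
    rw [sum_eq_single_of_mem p hp, if_pos rfl]
    intro p' _ hne
    rw [if_neg]
    intro h
    rw [la_cons, la_cons] at h
    have := Nat.eq_of_mul_eq_mul_right hA (Nat.add_right_cancel h)
    omega
  rw [sum_congr rfl h1, sum_const, nsmul_eq_mul, mul_one, ← div_eq_mul_inv]
  refine le_trans ?_ (Nat.cast_div_le (m := N) (n := la u))
  have : P ⊆ Icc 1 (N / la u) := fun p hp => mem_Icc.mpr ⟨(hP p hp).1,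
    (Nat.le_div_iff_mul_le hA).mpr ((le_la_cons p u).trans (hP p hp).2)⟩
  simpa using card_le_card this

open Classical in
theorem main_large : ∃ (c : ℝ) (N0 : ℕ), 0 < c ∧ ∀ N : ℕ, N0 ≤ N →
    c * N ≤ #{k ∈ Icc 1 N | ∃ l, Clean l ∧ la l = k} := by
  obtain ⟨C, J0, hC, hm⟩ := moment
  obtain ⟨K, hK⟩ : ∃ K, K = 2 ^ 80 := ⟨_, rfl⟩
  obtain ⟨l0, hl0⟩ := params K J0
  refine ⟨1 / ((64 * 96 ^ 3) ^ 2 * (62 ^ 3 + 72000 * C)), 2 ^ 2 ^ l0, by positivity,
    fun N hN => ?_⟩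
  have hN0 : N ≠ 0 := by have : 0 < 2 ^ 2 ^ l0 := by positivity
                         omega
  obtain ⟨l, hl⟩ : ∃ l, l = Nat.log 2 N := ⟨_, rfl⟩
  have h1 : 2 ^ l ≤ N := hl ▸ Nat.pow_log_le_self 2 hN0
  have h2 : N < 2 ^ (l + 1) := hl ▸ Nat.lt_pow_succ_log_self (by norm_num) N
  have h3 : 2 ^ l0 ≤ l := hl ▸ Nat.le_log_of_pow_le (by norm_num) hN
  have hl0' : l ≠ 0 := by have : 0 < 2 ^ l0 := by positivity
                          omega
  obtain ⟨lam, hlam⟩ : ∃ lam, lam = Nat.log 2 l + 1 := ⟨_, rfl⟩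
  have h4 : l < 2 ^ lam := hlam ▸ Nat.lt_pow_succ_log_self (by norm_num) l
  have h5 : 2 ^ lam ≤ 2 * l := by
    rw [hlam, pow_succ']; exact Nat.mul_le_mul_left _ (Nat.pow_log_le_self 2 hl0')
  obtain ⟨h15, hJ0, hb⟩ := hl0 lam (by
    have := Nat.le_log_of_pow_le (by norm_num) h3
    omega)
  obtain ⟨J, hJ⟩ : ∃ J, J = (2 * (K * lam) + 1) * (2 * lam) := ⟨_, rfl⟩
  rw [← hJ] at hb
  have hJ1 : 2 * lam ≤ J := by rw [hJ]; exact Nat.le_mul_of_pos_left _ (by omega)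
  have hJ9 : J ≤ J ^ 9 := Nat.le_self_pow (by norm_num) J
  have hJl : 416 * J ≤ l := by omega
  have hl60 : 60 ≤ l := by omega
  obtain ⟨L, U, hI, hw, hU, hG, hwU⟩ := family h15 hK hJ hb
  have hmom := hm J (by omega) L hI
  set P : List ℕ → Finset ℕ := fun u =>
    {p ∈ PR (N / (8 * la u)) (4 * (N / (8 * la u))) | Clean (p :: u)} with hP
  have hs : ∀ u ∈ U, la u ≤ 4 ^ (52 * J) := fun u hu => hI.s3 u (hU hu)
  have hPm : ∀ u ∈ U, ∀ p ∈ P u,
      p.Prime ∧ 4 ^ (52 * J) < p ∧ 2 ^ (l / 20) < p ∧ la (p :: u) ≤ N := by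
    intro u hu p hp
    obtain ⟨a1, a2, a3⟩ := mem_PR.mp (mem_filter.mp hp).1
    have a4 := (sizes h1 hJl hl60 (la_pos u) (hs u hu)).trans_lt a1
    refine ⟨a3, lt_of_le_of_lt ?_ a4, lt_of_le_of_lt
      (Nat.pow_le_pow_right (by norm_num) (by omega)) a4, (la_cons_le p u).trans ?_⟩
    · rw [four_pow]; exact Nat.pow_le_pow_right (by norm_num) (by omega)
    · have a5 := Nat.mul_div_le N (8 * la u)
      have a6 := (Nat.one_le_two_pow (n := l / 2)).trans (sizes h1 hJl hl60 (la_pos u) (hs u hu))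
      nlinarith
  have hl' : (60 : ℝ) ≤ l := by exact_mod_cast hl60
  have hW : (l : ℝ) ^ 2 ≤ wt L := by
    refine le_trans ?_ hw
    have : l ^ 2 ≤ 4 ^ lam := by
      rw [show 4 ^ lam = (2 ^ lam) ^ 2 by rw [← pow_mul, mul_comm, pow_mul]; rfl]
      exact Nat.pow_le_pow_left h4.le 2
    exact_mod_cast this
  have hW0 : 0 < wt L := lt_of_lt_of_le (by positivity) hW
  have hW2 : (J : ℝ) ^ 9 ≤ wt L := by
    refine le_trans ?_ hw
    have : J ^ 9 ≤ 4 ^ lam := le_trans (by omega) (Nat.pow_le_pow_left (show 2 ≤ 4 by norm_num) lam)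
    exact_mod_cast this
  have c1 : N / (64 * l) * (wt L / 96 ^ 3) ≤ #(U.sigma P) := by
    refine (mul_le_mul_of_nonneg_left hwU (by positivity)).trans ?_
    rw [card_sigma, Nat.cast_sum, wt, mul_sum]
    exact sum_le_sum fun u hu => count_ge h1 h2 hJl hl60 h15 h4 (by omega) (hG u hu) (hs u hu)
  have hlog : (l : ℝ) / 60 ≤ Real.log (2 ^ (l / 20) : ℕ) := by
    push_cast
    rw [Real.log_pow]
    have a1 : (l : ℝ) ≤ 40 * (l / 20 : ℕ) := by exact_mod_cast (by omega : l ≤ 40 * (l / 20))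
    have := Real.log_two_gt_d9
    nlinarith
  have c2 : ∑ a ∈ U.sigma P, ∑ b ∈ U.sigma P,
      (if la (b.2 :: b.1) = la (a.2 :: a.1) then (1 : ℝ) else 0) ≤
      (62 ^ 3 + 72000 * C) * (N * wt L ^ 2 / l ^ 2) := by
    calc _ ≤ ∑ u ∈ U, ∑ u' ∈ U, ((if u = u' then N * (la u : ℝ)⁻¹ else 0) +
          10 * N / (l / 60) ^ 2 * ((la u : ℝ)⁻¹ * (la u' : ℝ)⁻¹ * Phi u u')) := by
          simp only [sum_sigma]
          refine sum_le_sum fun u hu => ?_
          rw [sum_comm]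
          refine sum_le_sum fun u' hu' => ?_
          have a0 := Phi_nonneg u u'
          split_ifs with he
          · subst he
            exact (diag_count _ fun p hp => ⟨(hPm u hu p hp).1.pos, (hPm u hu p hp).2.2.2⟩).trans
              (le_add_of_nonneg_right (by positivity))
          · refine (pair_count (hG u hu).1.adm (hG u' hu').1.adm he (hs u hu) (hs u' hu')
              (w := 2 ^ (l / 20)) (le_trans (by norm_num)
                (Nat.pow_le_pow_right (by norm_num) (show 1 ≤ l / 20 by omega)))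
              (le_trans ?_ h1) _ _ (hPm u hu)
              fun p hp => ⟨(hPm u' hu' p hp).1, (hPm u' hu' p hp).2.2.1⟩).trans ?_
            · rw [four_pow, ← pow_mul, ← pow_mul, ← pow_add]
              exact Nat.pow_le_pow_right (by norm_num) (by omega)
            · rw [zero_add]
              gcongr
      _ = N * wt U + 10 * N / (l / 60) ^ 2 *
          ∑ u ∈ U, ∑ u' ∈ U, (la u : ℝ)⁻¹ * (la u' : ℝ)⁻¹ * Phi u u' := by
          simp only [sum_add_distrib, wt, mul_sum]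
          congr 1
          exact sum_congr rfl fun u hu => by rw [sum_ite_eq, if_pos hu]
      _ ≤ N * (62 ^ 3 * (wt L ^ 2 / l ^ 2)) + 10 * N / (l / 60) ^ 2 * (C * (2 * wt L ^ 2)) := by
          have a1 : wt U ≤ 62 ^ 3 * (wt L ^ 2 / l ^ 2) := by
            refine (sum_le_sum_of_subset_of_nonneg hU fun _ _ _ => by positivity).trans
              (hI.w3.trans ?_)
            gcongr
            rw [le_div_iff₀ (by positivity), sq (wt L)]
            gcongr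
          have a2 : ∑ u ∈ U, ∑ u' ∈ U, (la u : ℝ)⁻¹ * (la u' : ℝ)⁻¹ * Phi u u' ≤
              C * (2 * wt L ^ 2) := by
            refine le_trans ?_ (hmom.trans (mul_le_mul_of_nonneg_left (by nlinarith) hC))
            have a3 : ∀ u u', 0 ≤ (la u : ℝ)⁻¹ * (la u' : ℝ)⁻¹ * Phi u u' := fun u u' =>
              mul_nonneg (by positivity) (Phi_nonneg u u')
            exact (sum_le_sum fun u _ => sum_le_sum_of_subset_of_nonneg hU fun _ _ _ => a3 _ _).trans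
              (sum_le_sum_of_subset_of_nonneg hU fun _ _ _ => sum_nonneg fun _ _ => a3 _ _)
          gcongr
      _ = _ := by field_simp; ring
  have c3 : #((U.sigma P).image fun a => la (a.2 :: a.1)) ≤
      #{k ∈ Icc 1 N | ∃ l, Clean l ∧ la l = k} := by
    refine card_le_card fun k hk => ?_
    obtain ⟨⟨u, p⟩, ha, rfl⟩ := mem_image.mp hk
    obtain ⟨a1, a2⟩ := mem_sigma.mp ha
    exact mem_filter.mpr ⟨mem_Icc.mpr ⟨la_pos _, (hPm u a1 p a2).2.2.2⟩, _, (mem_filter.mp a2).2, rfl⟩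
  have c4 := (pow_le_pow_left₀ (by positivity) c1 2).trans ((cs (U.sigma P)
    fun a => la (a.2 :: a.1)).trans (mul_le_mul (Nat.cast_le.mpr c3) c2
      (sum_nonneg fun _ _ => sum_nonneg fun _ _ => by split_ifs <;> norm_num) (by positivity)))
  have hN' : (0 : ℝ) < N := by exact_mod_cast Nat.pos_of_ne_zero hN0
  refine le_of_mul_le_mul_right (le_trans (le_of_eq ?_) c4) (by positivity)
  field_simp

end Pool.Agent.MP_a96b63_al
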