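import Pool.Agent.MP_a96b63_al.Fam

/-!
The average of the singular series over pairs of lists.
-/

set_option autoImplicit false

namespace Pool.Agent.MP_a96b63_al

open Finset

theorem two_sum : ∃ C : ℝ, 0 ≤ C ∧ ∀ J J' D : ℕ, 8 ≤ J → 8 ≤ J' → D ≤ 4 ^ J → D ≤ 4 ^ J' →
    ∀ L : Finset (List ℕ), (∀ l ∈ L, Adm l) → ∀ (κ : ℕ) (s : List ℕ → ℤ) (F : List ℕ → ℝ),
      (∀ l ∈ L, ∀ z ∈ Lay J, ∀ y ∈ Lay J',
        F (y :: z :: l) ≤ sgD D ((y + κ) * la (z :: l) + s (z :: l)) + 1) →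
      ∑ u ∈ ext (Lay J') (ext (Lay J) L), (la u : ℝ)⁻¹ * F u ≤ C * wt L := by
  obtain ⟨C, hC0, hC⟩ := two_layer
  refine ⟨C + 62 * 62, by positivity, fun J J' D hJ hJ' hD hD' L hL κ s F hF => ?_⟩
  rw [sum_ext, sum_ext, wt, mul_sum]
  refine sum_le_sum fun l hl => ?_
  have h1 := hC J J' D hJ hJ' hD hD' l (hL l hl) κ fun z => s (z :: l)
  have h2 : ∑ z ∈ Lay J, ∑ y ∈ Lay J', (z : ℝ)⁻¹ * (y : ℝ)⁻¹ ≤ 62 * 62 := by
    rw [← sum_mul_sum]
    exact mul_le_mul (weight_Lay_le hJ) (weight_Lay_le hJ')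
      (sum_nonneg fun _ _ => by positivity) (by norm_num)
  calc _ ≤ ∑ z ∈ Lay J, ∑ y ∈ Lay J', (la l : ℝ)⁻¹ * ((z : ℝ)⁻¹ * (y : ℝ)⁻¹ *
        sgD D ((y + κ) * la (z :: l) + s (z :: l)) + (z : ℝ)⁻¹ * (y : ℝ)⁻¹) := by
        refine sum_le_sum fun z hz => sum_le_sum fun y hy => ?_
        have a1 := inv_la_cons_le (mem_Lay hy).2.2.pos (z :: l)
        have a2 := inv_la_cons_le (mem_Lay hz).2.2.pos l
        have a3 := sgD_nonneg D ((y + κ) * la (z :: l) + s (z :: l))
        calc _ ≤ (la (y :: z :: l) : ℝ)⁻¹ * (sgD D ((y + κ) * la (z :: l) + s (z :: l)) + 1) :=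
              mul_le_mul_of_nonneg_left (hF l hl z hz y hy) (by positivity)
          _ ≤ (la l : ℝ)⁻¹ * (z : ℝ)⁻¹ * (y : ℝ)⁻¹ *
                (sgD D ((y + κ) * la (z :: l) + s (z :: l)) + 1) := by
              gcongr
              exact a1.trans (by gcongr)
          _ = _ := by ring
    _ = (la l : ℝ)⁻¹ * (∑ z ∈ Lay J, ∑ y ∈ Lay J', (z : ℝ)⁻¹ * (y : ℝ)⁻¹ *
        sgD D ((y + κ) * la (z :: l) + s (z :: l)) +
          ∑ z ∈ Lay J, ∑ y ∈ Lay J', (z : ℝ)⁻¹ * (y : ℝ)⁻¹) := by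
        simp only [← sum_add_distrib]
        simp only [mul_sum]
    _ ≤ _ := by
        rw [mul_comm]
        gcongr

/-- The weight of a pair of lists in the count of prime pairs. -/
noncomputable def Phi (u u' : List ℕ) : ℝ :=
  if ((la u).gcd (la u') : ℤ) ∣ (lb u : ℤ) - lb u' ∧ la u + lb u ≠ la u' + lb u' then
    (la u).gcd (la u') *
      (hh (la u) * hh (la u') * hh ((la u + lb u : ℤ) - (la u' + lb u')).natAbs) ^ 2
  else 0

noncomputable def PhiG (u u' : List ℕ) : ℝ :=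
  if ((la u).gcd (la u') : ℤ) ∣ (lb u : ℤ) - lb u' ∧ lb u ≠ lb u' then
    (la u).gcd (la u') * √((la u).gcd (la u') : ℝ) else 0

noncomputable def PhiE (u u' : List ℕ) : ℝ :=
  if la u + lb u ≠ la u' + lb u' then hh ((la u + lb u : ℤ) - (la u' + lb u')).natAbs ^ 18 else 0

noncomputable def PhiD (u u' : List ℕ) : ℝ := if lb u = lb u' then (la u).gcd (la u') else 0

lemma young {g a b c : ℝ} (hg : 0 ≤ g) (ha : 0 ≤ a) (hb : 0 ≤ b) (hc : 0 ≤ c) :
    g * (a * b * c) ^ 2 ≤ g * √g + a ^ 18 + b ^ 18 + c ^ 18 := by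
  have h1 : (a * b * c) ^ 6 ≤ a ^ 18 + b ^ 18 + c ^ 18 := by
    have key : ∀ m : ℝ, a ≤ m → b ≤ m → c ≤ m → (a * b * c) ^ 6 ≤ m ^ 18 := by
      intro m h1 h2 h3
      have : 0 ≤ m := ha.trans h1
      calc _ ≤ (m * m * m) ^ 6 := by gcongr
        _ = _ := by ring
    have a1 : 0 ≤ a ^ 18 := by positivity
    have a2 : 0 ≤ b ^ 18 := by positivity
    have a3 : 0 ≤ c ^ 18 := by positivity
    rcases le_total a b with h | h <;> rcases le_total b c with h' | h' <;>
      rcases le_total a c with h'' | h'' <;>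
      first
        | linarith [key a le_rfl (by linarith) (by linarith)]
        | linarith [key b (by linarith) le_rfl (by linarith)]
        | linarith [key c (by linarith) (by linarith) le_rfl]
  have h2 : 0 ≤ g * √g := by positivity
  have h3 : 0 ≤ (a * b * c) ^ 6 := by positivity
  rcases le_total ((a * b * c) ^ 2) √g with h | h
  · have := mul_le_mul_of_nonneg_left h hg
    linarith
  · have h4 : g ≤ ((a * b * c) ^ 2) ^ 2 := by
      rw [← Real.sq_sqrt hg]; gcongr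
    have : g * (a * b * c) ^ 2 ≤ (a * b * c) ^ 6 := by
      calc _ ≤ ((a * b * c) ^ 2) ^ 2 * (a * b * c) ^ 2 := by gcongr
        _ = _ := by ring
    linarith

lemma natAbs_le {u u' : List ℕ} {T : ℕ} (h : la u ≤ T) (h' : la u' ≤ T) :
    ((la u + lb u : ℤ) - (la u' + lb u')).natAbs ≤ 2 * T := by
  have := lb_le u
  have := lb_le u'
  omega

lemma Phi_le {u u' : List ℕ} {k : ℕ} (h : la u ≤ 2 ^ k) (h' : la u' ≤ 2 ^ k) :
    Phi u u' ≤ PhiG u u' + hh (la u) ^ 18 + hh (la u') ^ 18 + PhiE u u' +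
      (k + 2) ^ 6 * PhiD u u' := by
  have p1 := hh_pos (la u)
  have p2 := hh_pos (la u')
  have p3 := hh_pos ((la u + lb u : ℤ) - (la u' + lb u')).natAbs
  have q1 : 0 ≤ PhiG u u' := by unfold PhiG; split_ifs <;> positivity
  have q2 : 0 ≤ PhiE u u' := by unfold PhiE; split_ifs <;> positivity
  have q3 : 0 ≤ PhiD u u' := by unfold PhiD; split_ifs <;> positivity
  unfold Phi
  split_ifs with h1
  · by_cases h2 : lb u = lb u'
    · have a1 := hh_le_of_le_pow (la_pos u).ne' h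
      have a2 := hh_le_of_le_pow (la_pos u').ne' h'
      have a3 := hh_le_of_le_pow (n := ((la u + lb u : ℤ) - (la u' + lb u')).natAbs) (k := k + 1)
        (by have := h1.2; omega) (by rw [pow_succ']; exact natAbs_le h h')
      push_cast at a3
      rw [PhiD, if_pos h2]
      have : ((la u).gcd (la u') : ℝ) * (hh (la u) * hh (la u') *
          hh ((la u + lb u : ℤ) - (la u' + lb u')).natAbs) ^ 2 ≤
          (la u).gcd (la u') * (((k : ℝ) + 2) * (k + 2) * (k + 2)) ^ 2 := by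
        gcongr <;> linarith
      have a4 : 0 ≤ hh (la u) ^ 18 := by positivity
      have a5 : 0 ≤ hh (la u') ^ 18 := by positivity
      nlinarith
    · have := young (Nat.cast_nonneg ((la u).gcd (la u'))) p1.le p2.le p3.le
      rw [PhiG, PhiE, if_pos ⟨h1.1, h2⟩, if_pos h1.2]
      have : 0 ≤ ((k : ℝ) + 2) ^ 6 * PhiD u u' := by positivity
      linarith
  · positivity

theorem gcd_part : ∃ C : ℝ, 0 ≤ C ∧ ∀ J : ℕ, 8 ≤ J → ∀ v v' : List ℕ, Adm v → Adm v' →
    la v ≤ 4 ^ J → la v' ≤ 4 ^ J →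
    ∑ x ∈ Lay J, ∑ x' ∈ Lay J, (x : ℝ)⁻¹ * (x' : ℝ)⁻¹ * PhiG (x :: v) (x' :: v') ≤
      C * if la v ≠ la v' then sg ((la v : ℤ) - la v').natAbs else 0 := by
  obtain ⟨C, hC1, hC⟩ := divisor_rpow 8 (by norm_num)
  refine ⟨62 ^ 2 * C ^ 2, by positivity, fun J hJ v v' hv hv' h h' => ?_⟩
  split_ifs with hne
  swap
  · rw [mul_zero]
    refine le_of_eq (sum_eq_zero fun x _ => sum_eq_zero fun x' _ => ?_)
    rw [PhiG, if_neg, mul_zero]
    rw [lb_cons, lb_cons, not_not.mp hne]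
    simp
  set n := ((la v : ℤ) - la v').natAbs with hn
  have hn0 : n ≠ 0 := by omega
  have hnJ : n ≤ 4 ^ J := by omega
  calc _ ≤ ∑ x ∈ Lay J, ∑ x' ∈ Lay J, ∑ d ∈ n.divisors, (d * √(d : ℝ)) *
        ((if d ∣ la (x :: v) then (x : ℝ)⁻¹ else 0) *
          (if d ∣ la (x' :: v') then (x' : ℝ)⁻¹ else 0)) := by
        refine sum_le_sum fun x hx => sum_le_sum fun x' _ => ?_
        have hnn : ∀ d ∈ n.divisors, 0 ≤ (d * √(d : ℝ)) *
            ((if d ∣ la (x :: v) then (x : ℝ)⁻¹ else 0) *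
              (if d ∣ la (x' :: v') then (x' : ℝ)⁻¹ else 0)) := fun d _ => by
          split_ifs <;> positivity
        unfold PhiG
        split_ifs with h1
        · refine le_trans (le_of_eq ?_) (single_le_sum hnn
            (a := (la (x :: v)).gcd (la (x' :: v'))) (Nat.mem_divisors.mpr ⟨?_, hn0⟩))
          · rw [if_pos (Nat.gcd_dvd_left _ _), if_pos (Nat.gcd_dvd_right _ _), mul_comm]
          · have a1 : Adm (x :: v) := adm_ext (J := J) (L := {v}) (by omega) (by simpa) _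
              (mem_ext.mpr ⟨x, hx, v, mem_singleton_self _, rfl⟩)
            have a2 : Nat.Coprime ((la (x :: v)).gcd (la (x' :: v'))) 2 :=
              Nat.Coprime.coprime_dvd_left (Nat.gcd_dvd_left _ _)
                (Nat.coprime_two_right.mpr (Nat.odd_iff.mpr (la_odd a1)))
            refine a2.dvd_of_dvd_mul_left ?_
            have a3 := Int.natCast_dvd.mp h1.1
            rw [lb_cons, lb_cons] at a3
            convert a3 using 1
            omega
        · rw [mul_zero]; exact sum_nonneg hnn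
    _ = ∑ d ∈ n.divisors, (d * √(d : ℝ)) * ((∑ x ∈ Lay J with d ∣ la (x :: v), (x : ℝ)⁻¹) *
          ∑ x' ∈ Lay J with d ∣ la (x' :: v'), (x' : ℝ)⁻¹) := by
        rw [sum_congr rfl fun x _ => sum_comm, sum_comm]
        refine sum_congr rfl fun d _ => ?_
        simp only [sum_filter, sum_mul_sum]
        simp only [mul_sum]
    _ ≤ _ := by
        rw [sg, mul_sum]
        refine sum_le_sum fun d hd => ?_
        have hd0 := Nat.pos_of_mem_divisors hd
        have hd0' : (0 : ℝ) < d := by exact_mod_cast hd0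
        have hdJ := (Nat.divisor_le hd).trans hnJ
        have a1 := layer_cop hJ hd0 hdJ hv
        have a2 := layer_cop hJ hd0 hdJ hv'
        have a3 := (hh_le_card hd0.ne').trans (hC d hd0.ne')
        have a4 := hh_pos d
        calc _ ≤ (d * √(d : ℝ)) * ((62 * hh d / d) * (62 * hh d / d)) := by
              gcongr
          _ = 62 ^ 2 * hh d ^ 2 * (√(d : ℝ) / d) := by field_simp
          _ ≤ 62 ^ 2 * (C * (d : ℝ) ^ (1 / (8 : ℕ) : ℝ)) ^ 2 * (√(d : ℝ) / d) := by gcongr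
          _ = _ := by
              rw [mul_pow, ← Real.rpow_natCast ((d : ℝ) ^ (1 / (8 : ℕ) : ℝ)),
                ← Real.rpow_mul hd0'.le, Real.sqrt_eq_rpow, ← Real.rpow_sub_one hd0'.ne',
                mul_assoc, mul_assoc, ← Real.rpow_add hd0', ← mul_assoc]
              norm_num

lemma diag_part {T : ℕ} (V : Finset (List ℕ)) (hV : ∀ u ∈ V, Adm u ∧ la u ≤ T) (u : List ℕ) :
    ∑ u' ∈ V, (la u' : ℝ)⁻¹ * PhiD u u' ≤ #(la u).divisors * (1 + Real.log T) := by
  calc _ ≤ ∑ u' ∈ V, ∑ d ∈ (la u).divisors,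
        if lb u = lb u' ∧ d ∣ la u' then d * (la u' : ℝ)⁻¹ else 0 := by
        refine sum_le_sum fun u' _ => ?_
        have hnn : ∀ d ∈ (la u).divisors,
            0 ≤ if lb u = lb u' ∧ d ∣ la u' then d * (la u' : ℝ)⁻¹ else 0 := fun d _ => by
          split_ifs <;> positivity
        unfold PhiD
        split_ifs with h
        · refine le_trans (le_of_eq ?_) (single_le_sum hnn (a := (la u).gcd (la u'))
            (Nat.mem_divisors.mpr ⟨Nat.gcd_dvd_left _ _, (la_pos u).ne'⟩))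
          rw [if_pos ⟨h, Nat.gcd_dvd_right _ _⟩, mul_comm]
        · rw [mul_zero]; exact sum_nonneg hnn
    _ ≤ _ := by
        rw [sum_comm, ← nsmul_eq_mul]
        refine sum_le_card_nsmul _ _ _ fun d hd => ?_
        have hd0 := Nat.pos_of_mem_divisors hd
        have hd0' : (0 : ℝ) < d := by exact_mod_cast hd0
        have h1 := sum_inv_le ((V.filter fun u' => lb u = lb u' ∧ d ∣ la u').image la) (n0 := 0)
          (T := T) hd0 fun n hn => by
            obtain ⟨u', h1, rfl⟩ := mem_image.mp hn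
            obtain ⟨h2, -, h3⟩ := mem_filter.mp h1
            exact ⟨la_pos u', (hV u' h2).2, h3⟩
        rw [sum_image fun a ha b hb e => eq_of_st (hV a (mem_filter.mp ha).1).1
          (hV b (mem_filter.mp hb).1).1 e
          ((mem_filter.mp ha).2.1.symm.trans (mem_filter.mp hb).2.1)] at h1
        rw [← sum_filter, ← mul_sum, mul_comm, ← le_div_iff₀ hd0']
        exact h1

lemma card_divisors_le {n X : ℕ} (h : n ≤ X ^ 2) : #n.divisors ≤ 2 * #{d ∈ Icc 1 X | d ∣ n} := by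
  rw [← card_filter_add_card_filter_not (s := n.divisors) (· ≤ X), two_mul]
  refine add_le_add (card_le_card fun d hd => ?_)
    (card_le_card_of_injOn (fun d => n / d) (fun d hd => ?_) fun a ha b hb e => ?_)
  · obtain ⟨h1, h2⟩ := mem_filter.mp hd
    exact mem_filter.mpr ⟨mem_Icc.mpr ⟨Nat.pos_of_mem_divisors h1, h2⟩, Nat.dvd_of_mem_divisors h1⟩
  · obtain ⟨h1, h2⟩ := mem_filter.mp hd
    have h3 := Nat.pos_of_mem_divisors h1
    refine mem_filter.mpr ⟨mem_Icc.mpr ⟨Nat.div_pos (Nat.divisor_le h1) h3, ?_⟩,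
      Nat.div_dvd_of_dvd (Nat.dvd_of_mem_divisors h1)⟩
    refine Nat.div_le_of_le_mul (h.trans ?_)
    rw [sq]
    exact Nat.mul_le_mul_right _ (not_le.mp h2).le
  · have h1 := Nat.mem_divisors.mp (mem_filter.mp ha).1
    have h2 := Nat.mem_divisors.mp (mem_filter.mp hb).1
    rw [← Nat.div_div_self h1.1 h1.2, ← Nat.div_div_self h2.1 h2.2, show n / a = n / b from e]

lemma log_four_pow_le (k : ℕ) : Real.log (4 ^ k : ℕ) ≤ 2 * k := by
  have := log_two_pow_le (2 * k)
  rw [pow_mul] at this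
  push_cast at this ⊢
  norm_num at this ⊢
  exact this

lemma tau_part {J : ℕ} {v : List ℕ} (hv : Adm v) (h : ∀ x ∈ Lay J, la (x :: v) ≤ 4 ^ (4 * J)) :
    ∑ x ∈ Lay J, (x : ℝ)⁻¹ * #(la (x :: v)).divisors ≤ 2 * (1 + (1 + 6 * J) ^ 2) := by
  have hX : (0 : ℝ) < (4 ^ (2 * J) : ℕ) := by positivity
  calc _ ≤ ∑ x ∈ Lay J, 2 * ∑ d ∈ Icc 1 (4 ^ (2 * J)),
        if d ∣ la (x :: v) then (x : ℝ)⁻¹ else 0 := by
        refine sum_le_sum fun x hx => ?_
        have h1 := card_divisors_le (X := 4 ^ (2 * J)) ((h x hx).trans (le_of_eq (by ring)))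
        have h2 : (#(la (x :: v)).divisors : ℝ) ≤
            2 * #{d ∈ Icc 1 (4 ^ (2 * J)) | d ∣ la (x :: v)} := by exact_mod_cast h1
        rw [← sum_filter, sum_const, nsmul_eq_mul, mul_comm, ← mul_assoc]
        gcongr
    _ ≤ 2 * ∑ d ∈ Icc (1 : ℕ) (4 ^ (2 * J)), (((4 ^ (2 * J) : ℕ) : ℝ)⁻¹ + (1 + 6 * J) * (d : ℝ)⁻¹) := by
        rw [← mul_sum, sum_comm]
        gcongr with d hd
        have hd0 := (mem_Icc.mp hd).1
        rw [← sum_filter]
        refine (class_weight _ (X := 4 ^ (2 * J)) (T := 4 ^ (3 * J)) (by positivity) hd0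
          (fun n hn => ⟨(mem_Lay (mem_filter.mp hn).1).1, (mem_Lay (mem_filter.mp hn).1).2.1⟩)
          fun n hn n' hn' => modEq_of_dvd_la hv hd0 (mem_filter.mp hn).2
            (mem_filter.mp hn').2).trans ?_
        rw [div_eq_mul_inv]
        have := log_four_pow_le (3 * J)
        push_cast at this ⊢
        gcongr
        linarith
    _ ≤ _ := by
        rw [sum_add_distrib, sum_const, Nat.card_Icc, add_tsub_cancel_right, nsmul_eq_mul,
          mul_inv_cancel₀ hX.ne', ← mul_sum, sq]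
        have h1 := harm_le (4 ^ (2 * J))
        have h2 := log_four_pow_le (2 * J)
        have h3 : (0 : ℝ) ≤ J := by positivity
        push_cast at h2
        gcongr
        push_cast at h1
        linarith

end Pool.Agent.MP_a96b63_al
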