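import Pool.Agent.MP_a96b63_al.Moment

/-!
The average of the singular series over pairs of lists, second part.
-/

set_option autoImplicit false

namespace Pool.Agent.MP_a96b63_al

open Finset

def top1 (J : ℕ) (L : Finset (List ℕ)) : Finset (List ℕ) := ext (Lay J) L

def top2 (J : ℕ) (L : Finset (List ℕ)) : Finset (List ℕ) := ext (Lay (2 * J)) (top1 J L)

/-- The three layers over an inner family. -/
def top (J : ℕ) (L : Finset (List ℕ)) : Finset (List ℕ) := ext (Lay (13 * J)) (top2 J L)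

/-- The hypotheses on the inner family. -/
structure Inn (J : ℕ) (L : Finset (List ℕ)) : Prop where
  hJ : 8 ≤ J
  adm : ∀ l ∈ L, Adm l
  size : ∀ l ∈ L, la l ≤ 4 ^ J

lemma pw4 {a b : ℕ} (h : a ≤ b) : 4 ^ a ≤ 4 ^ b := Nat.pow_le_pow_right (by norm_num) h

namespace Inn
variable {J : ℕ} {L : Finset (List ℕ)} (h : Inn J L)
include h

lemma a1 : ∀ l ∈ top1 J L, Adm l := adm_ext (by have := h.hJ; omega) h.adm
lemma a2 : ∀ l ∈ top2 J L, Adm l := adm_ext (by have := h.hJ; omega) h.a1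
lemma a3 : ∀ l ∈ top J L, Adm l := adm_ext (by have := h.hJ; omega) h.a2
lemma s1 : ∀ l ∈ top1 J L, la l ≤ 4 ^ (5 * J) :=
  la_ext_le (by have := h.hJ; omega) (by have := h.hJ; omega) h.size
lemma s2 : ∀ l ∈ top2 J L, la l ≤ 4 ^ (12 * J) :=
  la_ext_le (by have := h.hJ; omega) (by have := h.hJ; omega) h.s1
lemma s3 : ∀ l ∈ top J L, la l ≤ 4 ^ (52 * J) :=
  la_ext_le (by have := h.hJ; omega) (by have := h.hJ; omega) h.s2
lemma w1 : wt (top1 J L) ≤ 62 * wt L := wt_ext_le h.hJ _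
lemma w2 : wt (top2 J L) ≤ 62 ^ 2 * wt L := by
  have : wt (top2 J L) ≤ 62 * wt (top1 J L) := wt_ext_le (by have := h.hJ; omega) _
  linarith [h.w1]
lemma w3 : wt (top J L) ≤ 62 ^ 3 * wt L := by
  have : wt (top J L) ≤ 62 * wt (top2 J L) := wt_ext_le (by have := h.hJ; omega) _
  linarith [h.w2]

end Inn

lemma sg_le' : ∃ J0 : ℕ, ∀ J : ℕ, J0 ≤ J → ∀ n : ℤ, n ≠ 0 → n.natAbs ≤ 4 ^ (53 * J) →
    sg n.natAbs ≤ sgD (4 ^ J) n + 1 := by
  obtain ⟨D0, hD0⟩ := sg_le 53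
  exact ⟨D0, fun J hJ n h1 h2 => hD0 _ (hJ.trans (Nat.lt_pow_self (by norm_num)).le) n h1
    (by rwa [← pow_mul, mul_comm])⟩

lemma mem_top {J : ℕ} {L : Finset (List ℕ)} {l : List ℕ} (hl : l ∈ top1 J L) {z : ℕ}
    (hz : z ∈ Lay (2 * J)) {y : ℕ} (hy : y ∈ Lay (13 * J)) : y :: z :: l ∈ top J L :=
  mem_ext.mpr ⟨y, hy, _, mem_ext.mpr ⟨z, hz, l, hl, rfl⟩, rfl⟩

lemma part_h : ∃ (C : ℝ) (J0 : ℕ), 0 ≤ C ∧ ∀ J : ℕ, J0 ≤ J → ∀ L : Finset (List ℕ), Inn J L →
    ∑ u ∈ top J L, (la u : ℝ)⁻¹ * hh (la u) ^ 18 ≤ C * wt L := by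
  obtain ⟨C1, hC10, hC1⟩ := two_sum
  obtain ⟨C3, hC30, hC3⟩ := hh_pow_le
  obtain ⟨J0, hsg⟩ := sg_le'
  refine ⟨C3 * C1 * 62, J0, by positivity, fun J hJ L h => ?_⟩
  have h8 := h.hJ
  have := hC1 (2 * J) (13 * J) (4 ^ J) (by omega) (by omega) (pw4 (by omega))
    (pw4 (by omega)) _ h.a1 2 (fun v => 2 * lb v) (fun u => sg (la u)) fun l hl z hz y hy => by
      have := hsg J hJ (la (y :: z :: l)) (by exact_mod_cast (la_pos _).ne')
        ((h.s3 _ (mem_top hl hz hy)).trans (pw4 (by omega)))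
      rw [Int.natAbs_natCast] at this
      convert this using 3
      rw [la_cons y]; push_cast; ring
  calc _ ≤ ∑ u ∈ top J L, C3 * ((la u : ℝ)⁻¹ * sg (la u)) := sum_le_sum fun u _ => by
        rw [mul_left_comm]
        exact mul_le_mul_of_nonneg_left (hC3 _ (la_pos u).ne') (by positivity)
    _ ≤ C3 * (C1 * (62 * wt L)) := by
        rw [← mul_sum]
        exact mul_le_mul_of_nonneg_left (this.trans (mul_le_mul_of_nonneg_left h.w1 hC10)) hC30
    _ = _ := by ring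

lemma part_E : ∃ (C : ℝ) (J0 : ℕ), 0 ≤ C ∧ ∀ J : ℕ, J0 ≤ J → ∀ L : Finset (List ℕ), Inn J L →
    ∀ u' ∈ top J L, ∑ u ∈ top J L, (la u : ℝ)⁻¹ * PhiE u u' ≤ C * wt L := by
  obtain ⟨C1, hC10, hC1⟩ := two_sum
  obtain ⟨C3, hC30, hC3⟩ := hh_pow_le
  obtain ⟨J0, hsg⟩ := sg_le'
  refine ⟨C3 * C1 * 62, J0, by positivity, fun J hJ L h u' hu' => ?_⟩
  have h8 := h.hJ
  have := hC1 (2 * J) (13 * J) (4 ^ J) (by omega) (by omega) (pw4 (by omega))
    (pw4 (by omega)) _ h.a1 4 (fun v => 2 * lb v - (la u' + lb u'))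
    (fun u => if la u + lb u ≠ la u' + lb u' then
      sg ((la u + lb u : ℤ) - (la u' + lb u')).natAbs else 0) fun l hl z hz y hy => by
      split_ifs with h1
      · have := hsg J hJ ((la (y :: z :: l) + lb (y :: z :: l) : ℤ) - (la u' + lb u')) (by omega)
          ((natAbs_le (h.s3 _ (mem_top hl hz hy)) (h.s3 _ hu')).trans (by
            have := pw4 (show 52 * J + 1 ≤ 53 * J by omega)
            rw [pow_succ] at this; omega))
        convert this using 3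
        rw [la_cons y, lb_cons y]; push_cast; ring
      · exact add_nonneg (sgD_nonneg _ _) zero_le_one
  calc _ ≤ ∑ u ∈ top J L, C3 * ((la u : ℝ)⁻¹ * if la u + lb u ≠ la u' + lb u' then
        sg ((la u + lb u : ℤ) - (la u' + lb u')).natAbs else 0) := sum_le_sum fun u _ => by
        rw [mul_left_comm]
        refine mul_le_mul_of_nonneg_left ?_ (by positivity)
        unfold PhiE
        split_ifs with h
        · exact hC3 _ (by omega)
        · simp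
    _ ≤ C3 * (C1 * (62 * wt L)) := by
        rw [← mul_sum]
        exact mul_le_mul_of_nonneg_left (this.trans (mul_le_mul_of_nonneg_left h.w1 hC10)) hC30
    _ = _ := by ring

lemma part_G : ∃ (C : ℝ) (J0 : ℕ), 0 ≤ C ∧ ∀ J : ℕ, J0 ≤ J → ∀ L : Finset (List ℕ), Inn J L →
    ∑ u ∈ top J L, ∑ u' ∈ top J L, (la u : ℝ)⁻¹ * (la u' : ℝ)⁻¹ * PhiG u u' ≤ C * wt L ^ 2 := by
  obtain ⟨C1, hC10, hC1⟩ := two_sum
  obtain ⟨C2, hC20, hC2⟩ := gcd_part
  obtain ⟨J0, hsg⟩ := sg_le'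
  refine ⟨C2 * C1 * 62 ^ 2, J0, by positivity, fun J hJ L h => ?_⟩
  have h8 := h.hJ
  have w0 := wt_nonneg L
  have c1 : ∀ v' ∈ top2 J L, ∑ v ∈ top2 J L, (la v : ℝ)⁻¹ *
      (if la v ≠ la v' then sg ((la v : ℤ) - la v').natAbs else 0) ≤ C1 * wt L := fun v' hv' =>
    hC1 J (2 * J) (4 ^ J) (by omega) (by omega) le_rfl (pw4 (by omega)) L h.adm 2
      (fun v => 2 * lb v - la v') _ fun l hl z hz y hy => by
      split_ifs with h1
      · have d1 := h.s2 _ (mem_ext.mpr ⟨y, hy, _, mem_ext.mpr ⟨z, hz, l, hl, rfl⟩, rfl⟩)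
        have d2 := h.s2 _ hv'
        have d3 := pw4 (show 12 * J ≤ 53 * J by omega)
        have := hsg J hJ ((la (y :: z :: l) : ℤ) - la v') (by omega) (by omega)
        convert this using 3
        rw [la_cons y]; push_cast; ring
      · exact add_nonneg (sgD_nonneg _ _) zero_le_one
  calc _ ≤ ∑ v ∈ top2 J L, ∑ v' ∈ top2 J L, (la v' : ℝ)⁻¹ * C2 * ((la v : ℝ)⁻¹ *
        if la v ≠ la v' then sg ((la v : ℤ) - la v').natAbs else 0) := by
        rw [top, sum_ext]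
        refine sum_le_sum fun v hv => ?_
        simp only [sum_ext]
        rw [sum_comm]
        refine sum_le_sum fun v' hv' => ?_
        have := hC2 (13 * J) (by omega) v v' (h.a2 v hv) (h.a2 v' hv')
          ((h.s2 v hv).trans (pw4 (by omega))) ((h.s2 v' hv').trans (pw4 (by omega)))
        calc _ ≤ ∑ x ∈ Lay (13 * J), ∑ x' ∈ Lay (13 * J), (la v : ℝ)⁻¹ * (la v' : ℝ)⁻¹ *
              ((x : ℝ)⁻¹ * (x' : ℝ)⁻¹ * PhiG (x :: v) (x' :: v')) := by
              refine sum_le_sum fun x hx => sum_le_sum fun x' hx' => ?_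
              have d1 := inv_la_cons_le (mem_Lay hx).2.2.pos v
              have d2 := inv_la_cons_le (mem_Lay hx').2.2.pos v'
              have d3 : 0 ≤ PhiG (x :: v) (x' :: v') := by unfold PhiG; split_ifs <;> positivity
              calc _ ≤ ((la v : ℝ)⁻¹ * (x : ℝ)⁻¹) * ((la v' : ℝ)⁻¹ * (x' : ℝ)⁻¹) *
                    PhiG (x :: v) (x' :: v') := by gcongr
                _ = _ := by ring
          _ = (la v : ℝ)⁻¹ * (la v' : ℝ)⁻¹ * ∑ x ∈ Lay (13 * J), ∑ x' ∈ Lay (13 * J),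
              (x : ℝ)⁻¹ * (x' : ℝ)⁻¹ * PhiG (x :: v) (x' :: v') := by simp only [mul_sum]
          _ ≤ (la v : ℝ)⁻¹ * (la v' : ℝ)⁻¹ *
              (C2 * if la v ≠ la v' then sg ((la v : ℤ) - la v').natAbs else 0) :=
              mul_le_mul_of_nonneg_left this (by positivity)
          _ = _ := by ring
    _ ≤ ∑ v' ∈ top2 J L, (la v' : ℝ)⁻¹ * C2 * (C1 * wt L) := by
        rw [sum_comm]
        refine sum_le_sum fun v' hv' => ?_
        rw [← mul_sum]
        exact mul_le_mul_of_nonneg_left (c1 v' hv') (by positivity)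
    _ = wt (top2 J L) * C2 * (C1 * wt L) := by rw [← sum_mul, ← sum_mul]; rfl
    _ ≤ 62 ^ 2 * wt L * C2 * (C1 * wt L) := by gcongr; exact h.w2
    _ = _ := by ring

lemma part_D {J : ℕ} {L : Finset (List ℕ)} (h : Inn J L) :
    ∑ u ∈ top J L, (la u : ℝ)⁻¹ * ∑ u' ∈ top J L, (la u' : ℝ)⁻¹ * PhiD u u' ≤
      10 ^ 10 * J ^ 3 * wt L := by
  have h8 := h.hJ
  have w0 := wt_nonneg L
  have hJ1 : (8 : ℝ) ≤ J := by exact_mod_cast h8
  calc _ ≤ ∑ u ∈ top J L, (la u : ℝ)⁻¹ * (#(la u).divisors * (105 * J)) := by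
        refine sum_le_sum fun u _ => mul_le_mul_of_nonneg_left
          ((diag_part _ (fun u hu => ⟨h.a3 u hu, h.s3 u hu⟩) u).trans ?_) (by positivity)
        have := log_four_pow_le (52 * J)
        refine mul_le_mul_of_nonneg_left ?_ (by positivity)
        rw [Nat.cast_mul] at this
        norm_num at this ⊢
        linarith
    _ ≤ ∑ v ∈ top2 J L, (la v : ℝ)⁻¹ * (105 * J) * (2 * (1 + (1 + 6 * (13 * J : ℕ)) ^ 2)) := by
        rw [top, sum_ext]
        refine sum_le_sum fun v hv => ?_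
        have := tau_part (J := 13 * J) (h.a2 v hv) fun x hx =>
          (h.s3 _ (mem_ext.mpr ⟨x, hx, v, hv, rfl⟩)).trans (pw4 (by omega))
        refine le_trans ?_ (mul_le_mul_of_nonneg_left this (by positivity))
        rw [mul_sum]
        refine sum_le_sum fun x hx => ?_
        have d1 := inv_la_cons_le (mem_Lay hx).2.2.pos v
        calc _ ≤ (la v : ℝ)⁻¹ * (x : ℝ)⁻¹ * (#(la (x :: v)).divisors * (105 * J)) := by gcongr
          _ = _ := by ring
    _ = wt (top2 J L) * (105 * J) * (2 * (1 + (1 + 6 * (13 * J : ℕ)) ^ 2)) := by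
        rw [← sum_mul, ← sum_mul, wt]
    _ ≤ 62 ^ 2 * wt L * (105 * J) * (2 * (J ^ 2 + (J + 6 * (13 * J : ℕ)) ^ 2)) := by
        gcongr
        · exact h.w2
        · nlinarith
        · linarith
    _ ≤ _ := by
        push_cast
        have : 0 ≤ (J : ℝ) ^ 3 * wt L := by positivity
        nlinarith

theorem moment : ∃ (C : ℝ) (J0 : ℕ), 0 ≤ C ∧ ∀ J : ℕ, J0 ≤ J → ∀ L : Finset (List ℕ), Inn J L →
    ∑ u ∈ top J L, ∑ u' ∈ top J L, (la u : ℝ)⁻¹ * (la u' : ℝ)⁻¹ * Phi u u' ≤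
      C * (wt L ^ 2 + J ^ 9 * wt L) := by
  obtain ⟨C1, J1, hC10, hC1⟩ := part_h
  obtain ⟨C2, J2, hC20, hC2⟩ := part_E
  obtain ⟨C3, J3, hC30, hC3⟩ := part_G
  refine ⟨C3 + 62 ^ 3 * (2 * C1 + C2) + 10 ^ 23, J1 + J2 + J3, by positivity,
    fun J hJ L h => ?_⟩
  have b1 := hC1 J (by omega) L h
  have b2 := hC2 J (by omega) L h
  have b3 := hC3 J (by omega) L h
  have b4 := part_D h
  have w0 := wt_nonneg L
  have w3 := h.w3
  have hJ1 : (8 : ℝ) ≤ J := by exact_mod_cast h.hJ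
  have hk : ∀ u ∈ top J L, la u ≤ 2 ^ (104 * J) := fun u hu => (h.s3 u hu).trans (le_of_eq (by
    rw [show 104 * J = 2 * (52 * J) by ring, pow_mul 2 2]; rfl))
  clear hC1 hC2 hC3
  generalize top J L = V at *
  calc _ ≤ ∑ u ∈ V, ∑ u' ∈ V, (la u : ℝ)⁻¹ * (la u' : ℝ)⁻¹ * (PhiG u u' + hh (la u) ^ 18 +
        hh (la u') ^ 18 + PhiE u u' + ((104 * J : ℕ) + 2) ^ 6 * PhiD u u') :=
        sum_le_sum fun u hu => sum_le_sum fun u' hu' =>
          mul_le_mul_of_nonneg_left (Phi_le (hk u hu) (hk u' hu')) (by positivity)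
    _ = ∑ u ∈ V, ∑ u' ∈ V, (la u : ℝ)⁻¹ * (la u' : ℝ)⁻¹ * PhiG u u' +
        (∑ u ∈ V, (la u : ℝ)⁻¹ * hh (la u) ^ 18) * wt V +
        wt V * (∑ u ∈ V, (la u : ℝ)⁻¹ * hh (la u) ^ 18) +
        ∑ u' ∈ V, (la u' : ℝ)⁻¹ * ∑ u ∈ V, (la u : ℝ)⁻¹ * PhiE u u' +
        ((104 * J : ℕ) + 2) ^ 6 * ∑ u ∈ V, (la u : ℝ)⁻¹ * ∑ u' ∈ V, (la u' : ℝ)⁻¹ * PhiD u u' := by
        simp only [wt, sum_mul_sum]
        simp only [mul_sum]
        rw [sum_comm (f := fun u' u => (la u' : ℝ)⁻¹ * ((la u : ℝ)⁻¹ * PhiE u u'))]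
        simp only [← sum_add_distrib]
        exact sum_congr rfl fun u _ => sum_congr rfl fun u' _ => by ring
    _ ≤ C3 * wt L ^ 2 + (C1 * wt L) * (62 ^ 3 * wt L) +
        (62 ^ 3 * wt L) * (C1 * wt L) + (62 ^ 3 * wt L) * (C2 * wt L) +
        (105 * J) ^ 6 * (10 ^ 10 * J ^ 3 * wt L) := by
        have e1 := wt_nonneg V
        have e2 : 0 ≤ ∑ u ∈ V, (la u : ℝ)⁻¹ * hh (la u) ^ 18 :=
          sum_nonneg fun u _ => by have := hh_pos (la u); positivity
        have e3 : ∑ u' ∈ V, (la u' : ℝ)⁻¹ * ∑ u ∈ V, (la u : ℝ)⁻¹ * PhiE u u' ≤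
            wt V * (C2 * wt L) := by
          rw [wt, sum_mul]
          exact sum_le_sum fun u' hu' => mul_le_mul_of_nonneg_left (b2 u' hu') (by positivity)
        have e4 : 0 ≤ ∑ u ∈ V, (la u : ℝ)⁻¹ * ∑ u' ∈ V, (la u' : ℝ)⁻¹ * PhiD u u' :=
          sum_nonneg fun u _ => mul_nonneg (by positivity) (sum_nonneg fun u' _ => by
            unfold PhiD; split_ifs <;> positivity)
        have e5 : ((104 * J : ℕ) + 2 : ℝ) ^ 6 ≤ (105 * J) ^ 6 :=
          pow_le_pow_left₀ (by positivity) (by push_cast; linarith) 6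
        refine add_le_add (add_le_add (add_le_add (add_le_add b3 ?_) ?_) (e3.trans ?_)) ?_
        · exact mul_le_mul b1 w3 e1 (by positivity)
        · exact mul_le_mul w3 b1 e2 (by positivity)
        · exact mul_le_mul_of_nonneg_right w3 (by positivity)
        · exact mul_le_mul e5 b4 e4 (by positivity)
    _ = (C3 + 62 ^ 3 * (2 * C1 + C2)) * wt L ^ 2 + 105 ^ 6 * 10 ^ 10 * (J ^ 9 * wt L) := by ring
    _ ≤ _ := by
        rw [mul_add _ (wt L ^ 2)]
        exact add_le_add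
          (mul_le_mul_of_nonneg_right (le_add_of_nonneg_right (by norm_num)) (by positivity))
          (mul_le_mul_of_nonneg_right (le_add_of_nonneg_of_le (by positivity) (by norm_num))
            (by positivity))

end Pool.Agent.MP_a96b63_al
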