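import Pool.Agent.MP_a96b63_al.Moment2

/-!
Counting coincidences.
-/

set_option autoImplicit false

namespace Pool.Agent.MP_a96b63_al

open Finset

lemma cs {α : Type*} (s : Finset α) (f : α → ℕ) :
    (#s : ℝ) ^ 2 ≤ #(s.image f) * ∑ a ∈ s, ∑ b ∈ s, if f b = f a then (1 : ℝ) else 0 := by
  have h1 : (#s : ℝ) = ∑ k ∈ s.image f, (#{a ∈ s | f a = k} : ℝ) := by
    exact_mod_cast card_eq_sum_card_image f s
  have h2 : ∑ a ∈ s, ∑ b ∈ s, (if f b = f a then (1 : ℝ) else 0) =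
      ∑ k ∈ s.image f, (#{a ∈ s | f a = k} : ℝ) ^ 2 := by
    simp only [sum_boole]
    rw [sum_comp (fun k => (#{a ∈ s | f a = k} : ℝ)) f]
    exact sum_congr rfl fun k _ => by rw [nsmul_eq_mul, sq]
  rw [h1, h2]
  exact sq_sum_le_card_mul_sum_sq

lemma Phi_nonneg (u u' : List ℕ) : 0 ≤ Phi u u' := by unfold Phi; split_ifs <;> positivity

theorem pair_count {u u' : List ℕ} (hu : Adm u) (hu' : Adm u') (hne : u ≠ u') {T w N : ℕ}
    (hT : la u ≤ T) (hT' : la u' ≤ T) (hw : 2 ≤ w) (hN : T ^ 2 * w ^ 10 ≤ N) (P P' : Finset ℕ)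
    (hP : ∀ p ∈ P, p.Prime ∧ T < p ∧ w < p ∧ la (p :: u) ≤ N) (hP' : ∀ p ∈ P', p.Prime ∧ w < p) :
    ∑ p ∈ P, ∑ p' ∈ P', (if la (p' :: u') = la (p :: u) then (1 : ℝ) else 0) ≤
      10 * N / Real.log w ^ 2 * ((la u : ℝ)⁻¹ * (la u' : ℝ)⁻¹ * Phi u u') := by
  rw [← sum_product', sum_boole]
  set S := (P ×ˢ P').filter fun x => la (x.2 :: u') = la (x.1 :: u) with hS
  rcases S.eq_empty_or_nonempty with h0 | h0
  · rw [h0, card_empty, Nat.cast_zero]
    have := Phi_nonneg u u'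
    positivity
  obtain ⟨⟨p0, p0'⟩, h1, hmin⟩ := exists_min_image S Prod.fst h0
  have hmem : ∀ x ∈ S, x.1 ∈ P ∧ x.2 ∈ P' ∧
      (x.2 + 2) * la u' + 2 * lb u' = (x.1 + 2) * la u + 2 * lb u := fun x hx =>
    ⟨(mem_product.mp (mem_filter.mp hx).1).1, (mem_product.mp (mem_filter.mp hx).1).2,
      (mem_filter.mp hx).2⟩
  obtain ⟨m1, m2, m3⟩ := hmem _ h1
  simp only at m1 m2 m3
  have hA := la_pos u
  have hA' := la_pos u'
  obtain ⟨g, hg⟩ : ∃ g, g = (la u).gcd (la u') := ⟨_, rfl⟩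
  have hg0 : 0 < g := hg ▸ Nat.gcd_pos_of_pos_left _ hA
  obtain ⟨a, a', hcop, ha, ha'⟩ := Nat.exists_coprime (la u) (la u')
  rw [← hg] at ha ha'
  have ha0 : 0 < a := Nat.pos_of_mul_pos_right (ha ▸ hA)
  have ha0' : 0 < a' := Nat.pos_of_mul_pos_right (ha' ▸ hA')
  have hE : la u + lb u ≠ la u' + lb u' := by
    intro h
    have e1 : p0' * la u' = p0 * la u := by nlinarith
    have e2 : p0 = p0' := by
      rcases (Nat.Prime.dvd_mul (hP p0 m1).1).mp ⟨la u, e1⟩ with h2 | h2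
      · exact (Nat.prime_dvd_prime_iff_eq (hP p0 m1).1 (hP' p0' m2).1).mp h2
      · have := Nat.le_of_dvd hA' h2
        have := (hP p0 m1).2.1
        omega
    subst e2
    have e3 := Nat.eq_of_mul_eq_mul_left (hP p0 m1).1.pos e1
    exact hne (eq_of_st hu hu' e3.symm (by omega))
  have m3' : ((p0' : ℤ) + 2) * (a' * g) + 2 * lb u' = (p0 + 2) * (a * g) + 2 * lb u := by
    rw [ha, ha'] at m3; exact_mod_cast m3
  have hdvd : (g : ℤ) ∣ (lb u : ℤ) - lb u' := by
    have e1 : Nat.Coprime g 2 := Nat.Coprime.coprime_dvd_left ⟨a, by rw [ha, mul_comm]⟩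
      (Nat.coprime_two_right.mpr (Nat.odd_iff.mpr (la_odd hu)))
    refine (Nat.isCoprime_iff_coprime.mpr e1).dvd_of_dvd_mul_left
      ⟨(p0' + 2) * a' - (p0 + 2) * a, ?_⟩
    push_cast
    linear_combination -m3'
  set n := ((la u + lb u : ℤ) - (la u' + lb u')).natAbs with hn
  have hn0 : n ≠ 0 := by omega
  have hs := sieve_two (u := a') (u' := a) (r := p0) (r' := p0') (D := 2 * (la u * la u' * n))
    (by positivity) hw ⟨_, rfl⟩ ⟨2 * la u * g * n, by rw [ha']; ring⟩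
    ⟨2 * g * la u' * n, by rw [ha]; ring⟩ (fun q _ hq => by
      have e1 : (q : ℤ) ∣ 2 * ((la u + lb u : ℤ) - (la u' + lb u')) := by
        have e0 : 2 * ((la u + lb u : ℤ) - (la u' + lb u')) = -(g * (a * p0 - a' * p0')) := by
          rw [ha, ha']
          push_cast
          linear_combination -m3'
        rw [e0]
        exact (hq.mul_left g).neg_right
      have e2 := Int.natCast_dvd.mp e1
      rw [Int.natAbs_mul] at e2
      exact e2.trans ⟨la u * la u', by simp only [hn]; norm_num; ring⟩) (N / (la u * a') + 1)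
  have hc : #S ≤ #{t ∈ range (N / (la u * a') + 1) | ((p0 + a' * t).Prime ∧ w < p0 + a' * t) ∧
      (p0' + a * t).Prime ∧ w < p0' + a * t} := by
    have key : ∀ x ∈ S, p0 + a' * ((x.1 - p0) / a') = x.1 ∧ p0' + a * ((x.1 - p0) / a') = x.2 := by
      intro x hx
      obtain ⟨s, hs⟩ := Nat.exists_eq_add_of_le (hmin x hx)
      simp only at hs
      have e1 := (hmem x hx).2.2
      rw [hs, ha, ha'] at e1
      have e1' : ((x.2 : ℤ) + 2) * (a' * g) + 2 * lb u' = (p0 + s + 2) * (a * g) + 2 * lb u := by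
        exact_mod_cast e1
      have e2 : (x.2 : ℤ) * a' = p0' * a' + s * a := by
        refine mul_right_cancel₀ (b := (g : ℤ)) (by exact_mod_cast hg0.ne') ?_
        linear_combination e1' - m3'
      have e3 : x.2 * a' = p0' * a' + s * a := by exact_mod_cast e2
      have e4 : a' ∣ s := hcop.symm.dvd_of_dvd_mul_right
        ((Nat.dvd_add_right (dvd_mul_left _ _)).mp (e3 ▸ dvd_mul_left _ _))
      obtain ⟨t, rfl⟩ := e4
      rw [hs, Nat.add_sub_cancel_left, Nat.mul_div_cancel_left _ ha0']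
      refine ⟨rfl, Nat.eq_of_mul_eq_mul_right ha0' ?_⟩
      rw [e3]; ring
    refine card_le_card_of_injOn (fun x => (x.1 - p0) / a') (fun x hx => ?_) fun x hx y hy e => ?_
    · obtain ⟨k1, k2⟩ := key x hx
      obtain ⟨n1, n2, -⟩ := hmem x hx
      simp only [coe_filter, mem_range, Set.mem_ofPred_eq, k1, k2]
      refine ⟨Nat.lt_succ_of_le ((Nat.le_div_iff_mul_le (by positivity)).mpr ?_),
        ⟨(hP _ n1).1, (hP _ n1).2.2.1⟩, hP' _ n2⟩
      refine le_trans ?_ ((le_la_cons x.1 u).trans (hP _ n1).2.2.2)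
      rw [mul_comm (la u), ← mul_assoc]
      exact Nat.mul_le_mul_right _ ((Nat.div_mul_le_self _ _).trans (Nat.sub_le _ _))
    · have e' : (x.1 - p0) / a' = (y.1 - p0) / a' := e
      exact Prod.ext (by rw [← (key x hx).1, ← (key y hy).1, e'])
        (by rw [← (key x hx).2, ← (key y hy).2, e'])
  refine (Nat.cast_le.mpr hc).trans (hs.trans ?_)
  rw [Phi, if_pos ⟨hg ▸ hdvd, hE⟩, ← hg, ← hn]
  have hH : hh (2 * (la u * la u' * n)) ≤ 2 * (hh (la u) * hh (la u') * hh n) := by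
    refine (hh_mul_le two_ne_zero (by positivity)).trans ?_
    rw [hh_two]
    gcongr
    exact (hh_mul_le (by positivity) hn0).trans
      (mul_le_mul_of_nonneg_right (hh_mul_le hA.ne' hA'.ne') (hh_pos n).le)
  have hH1 : 1 ≤ hh (la u) * hh (la u') * hh n :=
    one_le_mul_of_one_le_of_one_le (one_le_mul_of_one_le_of_one_le (one_le_hh _) (one_le_hh _))
      (one_le_hh _)
  have hH0 := hh_pos (2 * (la u * la u' * n))
  generalize hh (la u) * hh (la u') * hh n = H at *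
  generalize hh (2 * (la u * la u' * n)) = H' at *
  have hw' : (2 : ℝ) ≤ w := by exact_mod_cast hw
  have hl0 : 0 < Real.log w := Real.log_pos (by linarith)
  have hl1 : Real.log w ≤ w := (Real.log_le_sub_one_of_pos (by linarith)).trans (by linarith)
  have r1 : (0 : ℝ) < la u := by exact_mod_cast hA
  have r2 : (0 : ℝ) < la u' := by exact_mod_cast hA'
  have r3 : (1 : ℝ) ≤ g := by exact_mod_cast hg0
  have r4 : (w : ℝ) ^ 10 ≤ N * ((la u : ℝ)⁻¹ * (la u' : ℝ)⁻¹) := by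
    rw [← mul_inv, ← div_eq_mul_inv, le_div_iff₀ (by positivity)]
    have : w ^ 10 * (la u * la u') ≤ N := by
      refine le_trans ?_ hN
      rw [mul_comm, sq]
      exact Nat.mul_le_mul_right _ (Nat.mul_le_mul hT hT')
    exact_mod_cast this
  have r5 : ((N / (la u * a') : ℕ) : ℝ) ≤ N * ((la u : ℝ)⁻¹ * (la u' : ℝ)⁻¹) * g := by
    refine Nat.cast_div_le.trans (le_of_eq ?_)
    have : (0 : ℝ) < a' := by exact_mod_cast ha0'
    rw [show (la u' : ℝ) = a' * g by exact_mod_cast ha']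
    push_cast
    field_simp
  generalize hX : (N : ℝ) * ((la u : ℝ)⁻¹ * (la u' : ℝ)⁻¹) = X at r4 r5
  have r6 : (1 : ℝ) ≤ w ^ 10 := one_le_pow₀ (by linarith)
  have r7 : X ≤ X * g := le_mul_of_one_le_right (by linarith) r3
  have r8 : 10 * N / Real.log w ^ 2 * ((la u : ℝ)⁻¹ * (la u' : ℝ)⁻¹ * (g * H ^ 2)) =
      2 * (X * g) * (2 * H) ^ 2 / Real.log w ^ 2 + 2 * (X * g * H ^ 2 / Real.log w ^ 2) := by
    rw [← hX]; ring
  rw [r8]
  refine add_le_add ?_ ?_
  · have r9 : ((N / (la u * a') + 1 : ℕ) : ℝ) ≤ 2 * (X * g) := by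
      rw [Nat.cast_add, Nat.cast_one]; linarith
    have r10 : 0 ≤ 2 * (X * g) := by linarith
    gcongr
  · gcongr
    rw [le_div_iff₀ (by positivity)]
    calc _ ≤ (w : ℝ) ^ 8 * w ^ 2 := by gcongr
      _ = w ^ 10 := by ring
      _ ≤ X * g := r4.trans r7
      _ ≤ _ := le_mul_of_one_le_right (by linarith) (one_le_pow₀ hH1)

lemma count_clean {Y k m M : ℕ} (hY : 2 ≤ Y) {u : List ℕ} (hu : Gd Y k m u) (hk : 2 ^ k ≤ M)
    (hM : 10 ^ 9 ≤ M) :
    M / Real.log (4 * M) - m * (4 * M / Y) ≤ #{p ∈ PR M (4 * M) | Clean (p :: u)} := by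
  have h1 := block_count hM
  have h2 := sum_exists_le u (PR M (4 * M)) (fun y x => y ∣ x - 1) (fun _ => (1 : ℝ))
    (fun _ => zero_le_one) (B := 4 * M / Y) fun y hy => by
      have a1 := (hu.2.2 y hy).1
      have a2 : #{x ∈ PR M (4 * M) | y ∣ x - 1} ≤ #{x ∈ Ioc 0 (4 * M) | y ∣ x} := by
        refine card_le_card_of_injOn (fun x => x - 1) (fun x hx => ?_) fun x hx x' hx' e => ?_
        · obtain ⟨b1, b2⟩ := mem_filter.mp hx
          obtain ⟨b3, b4, -⟩ := mem_PR.mp b1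
          exact mem_filter.mpr ⟨mem_Ioc.mpr ⟨by simp only; omega, by simp only; omega⟩, b2⟩
        · have := (mem_PR.mp (mem_filter.mp hx).1).1
          have := (mem_PR.mp (mem_filter.mp hx').1).1
          have : x - 1 = x' - 1 := e
          omega
      rw [Nat.Ioc_filter_dvd_card_eq_div] at a2
      rw [sum_const, nsmul_eq_mul, mul_one]
      refine (Nat.cast_le.mpr a2).trans (Nat.cast_div_le.trans ?_)
      have : (0 : ℝ) < Y := by exact_mod_cast (by omega : 0 < Y)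
      push_cast
      gcongr
  rw [hu.2.1, sum_const, nsmul_eq_mul, mul_one] at h2
  have h3 : #{p ∈ PR M (4 * M) | ¬ Clean (p :: u)} ≤ #{x ∈ PR M (4 * M) | ∃ y ∈ u, y ∣ x - 1} := by
    refine card_le_card fun x hx => ?_
    obtain ⟨a1, a2⟩ := mem_filter.mp hx
    obtain ⟨b1, -, b3⟩ := mem_PR.mp a1
    refine mem_filter.mpr ⟨a1, by_contra fun a3 => a2 (clean_cons hu.1 b3 (by omega) ?_)⟩
    intro y hy h
    have := hu.2.2 y hy
    rcases h with h | h | h
    · omega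
    · exact a3 ⟨y, hy, h⟩
    · have := Nat.le_of_dvd (by omega) h
      omega
  have h4 : (#{p ∈ PR M (4 * M) | Clean (p :: u)} : ℝ) + #{p ∈ PR M (4 * M) | ¬ Clean (p :: u)} =
      #(PR M (4 * M)) := by exact_mod_cast card_filter_add_card_filter_not _
  have h5 : (#{p ∈ PR M (4 * M) | ¬ Clean (p :: u)} : ℝ) ≤
    #{x ∈ PR M (4 * M) | ∃ y ∈ u, y ∣ x - 1} := by exact_mod_cast h3
  linarith

end Pool.Agent.MP_a96b63_al
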