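import Mathlib

/-!
Selberg's upper bound sieve.
-/

set_option autoImplicit false

namespace Pool.Agent.MP_a96b63_al

open Finset

lemma sum_range_mul_coprime {a b : ℕ} (h : Nat.Coprime a b) (ha : 0 < a) (hb : 0 < b)
    (f g : ℕ → ℝ) (hf : ∀ t, f (t % a) = f t) (hg : ∀ t, g (t % b) = g t) :
    ∑ t ∈ range (a * b), f t * g t = (∑ t ∈ range a, f t) * ∑ t ∈ range b, g t := by
  rw [sum_mul_sum, ← sum_product']
  refine sum_bij (fun t _ => (t % a, t % b)) ?_ ?_ ?_ ?_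
  · intro t _
    exact mem_product.mpr ⟨mem_range.mpr (Nat.mod_lt _ ha), mem_range.mpr (Nat.mod_lt _ hb)⟩
  · intro t ht t' ht' e
    have h1 : t ≡ t' [MOD a * b] := (Nat.modEq_and_modEq_iff_modEq_mul h).mp (Prod.ext_iff.mp e)
    exact Nat.ModEq.eq_of_lt_of_lt h1 (mem_range.mp ht) (mem_range.mp ht')
  · rintro ⟨x, y⟩ hxy
    obtain ⟨h1, h2⟩ := mem_product.mp hxy
    refine ⟨Nat.chineseRemainder h x y, mem_range.mpr
      (Nat.chineseRemainder_lt_mul h x y ha.ne' hb.ne'), Prod.ext ?_ ?_⟩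
    · exact Eq.trans (Nat.chineseRemainder h x y).2.1 (Nat.mod_eq_of_lt (mem_range.mp h1))
    · exact Eq.trans (Nat.chineseRemainder h x y).2.2 (Nat.mod_eq_of_lt (mem_range.mp h2))
  · intro t _
    rw [hf, hg]

lemma prod_periodic (S : Finset ℕ) (φ : ℕ → ℕ → ℝ) (hφ : ∀ q ∈ S, ∀ t, φ q (t % q) = φ q t)
    (t : ℕ) : ∏ q ∈ S, φ q (t % ∏ q ∈ S, q) = ∏ q ∈ S, φ q t :=
  prod_congr rfl fun q hq => by
    rw [← hφ q hq, Nat.mod_mod_of_dvd _ (dvd_prod_of_mem _ hq), hφ q hq]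

lemma sum_prod_periodic (S : Finset ℕ) (hS : ∀ q ∈ S, q.Prime) (φ : ℕ → ℕ → ℝ)
    (hφ : ∀ q ∈ S, ∀ t, φ q (t % q) = φ q t) :
    ∑ t ∈ range (∏ q ∈ S, q), ∏ q ∈ S, φ q t = ∏ q ∈ S, ∑ t ∈ range q, φ q t := by
  induction S using Finset.induction_on with
  | empty => simp
  | insert q S hq ih =>
    have h1 := fun p hp => hS p (mem_insert_of_mem hp)
    have h2 := hS q (mem_insert_self _ _)
    have h3 := fun p hp => hφ p (mem_insert_of_mem hp)
    simp only [prod_insert hq]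
    rw [sum_range_mul_coprime (Nat.Coprime.prod_right fun p hp =>
      (Nat.coprime_primes h2 (h1 p hp)).mpr fun e => hq (e ▸ hp)) h2.pos
      (prod_pos fun p hp => (h1 p hp).pos) _ _ (hφ q (mem_insert_self _ _))
      (prod_periodic S φ h3), ih h1 h3]

lemma sum_periodic_le {Q : ℕ} (hQ : 0 < Q) (F : ℕ → ℝ) (hF : ∀ t, F (t % Q) = F t) {B : ℝ}
    (hB : ∀ t, |F t| ≤ B) (M : ℕ) :
    ∑ t ∈ range M, F t ≤ M * ((∑ t ∈ range Q, F t) / Q) + 2 * Q * B := by
  have h1 : ∀ a, ∑ t ∈ range (Q * a), F t = a * ∑ t ∈ range Q, F t := by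
    intro a
    induction a with
    | zero => simp
    | succ a ih =>
      rw [Nat.mul_succ, sum_range_add, ih]
      simp only [← hF (Q * a + _), Nat.mul_add_mod_self_left, hF]
      push_cast; ring
  have hB0 : 0 ≤ B := le_trans (abs_nonneg _) (hB 0)
  have h2 : ∀ n c, |∑ t ∈ range n, F (c + t)| ≤ n * B := fun n c =>
    le_trans (abs_sum_le_sum_abs _ _) (by
      simpa using sum_le_card_nsmul (range n) (fun t => |F (c + t)|) B fun t _ => hB _)
  have hQ' : (0 : ℝ) < Q := by exact_mod_cast hQ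
  have h3 := h2 Q 0
  simp only [zero_add] at h3
  have h4 := (abs_le.mp (h2 (M % Q) (Q * (M / Q)))).2
  have h5 : ((M % Q : ℕ) : ℝ) ≤ Q := by exact_mod_cast (Nat.mod_lt M hQ).le
  have h6 : (M : ℝ) = Q * (M / Q : ℕ) + (M % Q : ℕ) := by exact_mod_cast (Nat.div_add_mod M Q).symm
  nth_rewrite 1 [← Nat.div_add_mod M Q]
  rw [sum_range_add, h1, h6]
  set s := ∑ t ∈ range Q, F t
  have h7 : -B ≤ s / Q := by
    rw [le_div_iff₀ hQ']; linarith [(abs_le.mp h3).1]
  have h8 : (Q : ℝ) * (M / Q : ℕ) * (s / Q) = (M / Q : ℕ) * s := by field_simp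
  have h9 : (0 : ℝ) ≤ (M % Q : ℕ) := by positivity
  nlinarith

theorem selberg (P : Finset ℕ) (hP : ∀ q ∈ P, q.Prime) (bad : ℕ → ℕ → Prop)
    [∀ q t, Decidable (bad q t)] (hper : ∀ q ∈ P, ∀ t, bad q (t % q) ↔ bad q t) (k : ℕ)
    (hk0 : 0 < k) (hk : ∀ q ∈ P, #{t ∈ range q | bad q t} = k) (hkq : ∀ q ∈ P, k < q)
    {z : ℕ} (hz : 1 ≤ z) (M : ℕ) :
    (#{t ∈ range M | ∀ q ∈ P, ¬ bad q t} : ℝ) ≤
      M / (∑ S ∈ P.powerset with ∏ q ∈ S, q ≤ z, ∏ q ∈ S, (k : ℝ) / (q - k)) + 2 * (z : ℝ) ^ 4 := by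
  set 𝒟 := P.powerset.filter fun S => ∏ q ∈ S, q ≤ z with h𝒟
  have hk' : (0 : ℝ) < k := by exact_mod_cast hk0
  have hk1 : (1 : ℝ) ≤ k := by exact_mod_cast hk0
  have hkq' : ∀ q ∈ P, (0 : ℝ) < q - k := fun q hq => by
    have : (k : ℝ) < q := by exact_mod_cast hkq q hq
    linarith
  have hsub : ∀ S ∈ 𝒟, S ⊆ P := fun S hS => mem_powerset.mp (mem_filter.mp hS).1
  set h : Finset ℕ → ℝ := fun S => ∏ q ∈ S, (k : ℝ) / (q - k) with hh
  have hpos : ∀ S ∈ 𝒟, 0 < h S := fun S hS =>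
    prod_pos fun q hq => div_pos hk' (hkq' q (hsub S hS hq))
  set G := ∑ S ∈ 𝒟, h S with hG
  have hG0 : 0 < G := sum_pos hpos ⟨∅, mem_filter.mpr ⟨empty_mem_powerset _, by simpa using hz⟩⟩
  set g : ℕ → ℕ → ℝ := fun q t => if bad q t then 1 - q / k else 1 with hg
  have g0 : ∀ q ∈ P, (#{t ∈ range q | ¬ bad q t} : ℝ) = q - k := by
    intro q hq
    have := card_filter_add_card_filter_not (s := range q) (bad q)
    rw [hk q hq, card_range] at this
    have h2 : (k : ℝ) + #{t ∈ range q | ¬ bad q t} = q := by exact_mod_cast this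
    linarith
  have g1 : ∀ q ∈ P, ∑ t ∈ range q, g q t = 0 := by
    intro q hq
    simp only [hg, sum_ite, sum_const, nsmul_eq_mul, hk q hq, g0 q hq]
    field_simp; ring
  have g2 : ∀ q ∈ P, ∑ t ∈ range q, g q t * g q t = q * ((k : ℝ) / (q - k))⁻¹ := by
    intro q hq
    have h3 := (hkq' q hq).ne'
    have h4 : ∀ t, g q t * g q t = if bad q t then (1 - (q : ℝ) / k) ^ 2 else 1 := by
      intro t; simp only [hg]; split_ifs <;> ring
    simp only [h4, sum_ite, sum_const, nsmul_eq_mul, hk q hq, g0 q hq]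
    field_simp; ring
  have g3 : ∀ S ∈ 𝒟, ∀ t, |∏ q ∈ S, g q t| ≤ z := by
    intro S hS t
    rw [abs_prod]
    refine le_trans (prod_le_prod (fun q _ => abs_nonneg _) fun q hq => ?_)
      (by rw [← Nat.cast_prod]; exact_mod_cast (mem_filter.mp hS).2 : (∏ q ∈ S, (q : ℝ)) ≤ z)
    have h1 := hkq' q (hsub S hS hq)
    have h2 : (q : ℝ) / k ≤ q := div_le_self (by positivity) hk1
    have h3 : 0 ≤ (q : ℝ) / k := by positivity
    simp only [hg]
    split_ifs
    · rw [abs_le]; constructor <;> linarith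
    · rw [abs_one]; linarith
  have key : ∀ S ∈ 𝒟, ∀ S' ∈ 𝒟, ∑ t ∈ range M, (∏ q ∈ S, g q t) * ∏ q ∈ S', g q t ≤
      (if S = S' then M * (h S)⁻¹ else 0) + 2 * (z : ℝ) ^ 4 := by
    intro S hS S' hS'
    set φ : ℕ → ℕ → ℝ := fun q t => (if q ∈ S then g q t else 1) * (if q ∈ S' then g q t else 1)
    have hU : ∀ q ∈ S ∪ S', q ∈ P := fun q hq => union_subset (hsub S hS) (hsub S' hS') hq
    have e1 : ∀ t, (∏ q ∈ S, g q t) * ∏ q ∈ S', g q t = ∏ q ∈ S ∪ S', φ q t := by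
      intro t
      rw [prod_mul_distrib, prod_ite_mem, prod_ite_mem, union_inter_cancel_left,
        union_inter_cancel_right]
    have hφ : ∀ q ∈ S ∪ S', ∀ t, φ q (t % q) = φ q t := fun q hq t => by
      simp only [φ, hg, hper q (hU q hq)]
    have hQ : 0 < ∏ q ∈ S ∪ S', q := prod_pos fun q hq => (hP q (hU q hq)).pos
    have hQz : ((∏ q ∈ S ∪ S', q : ℕ) : ℝ) ≤ z * z := by
      have h1 : ∏ q ∈ S ∪ S', q ≤ (∏ q ∈ S, q) * ∏ q ∈ S', q := by
        rw [← prod_union_inter]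
        exact Nat.le_mul_of_pos_right _
          (prod_pos fun q hq => (hP q (hsub S hS (mem_inter.mp hq).1)).pos)
      exact_mod_cast h1.trans (Nat.mul_le_mul (mem_filter.mp hS).2 (mem_filter.mp hS').2)
    have h2 := sum_periodic_le hQ (fun t => ∏ q ∈ S ∪ S', φ q t) (prod_periodic _ φ hφ)
      (B := z * z) (fun t => by
        rw [← e1, abs_mul]
        exact mul_le_mul (g3 S hS t) (g3 S' hS' t) (abs_nonneg _) (by positivity)) M
    simp only [e1]
    refine le_trans h2 (add_le_add (le_of_eq ?_) ?_)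
    · rw [sum_prod_periodic _ (fun q hq => hP q (hU q hq)) φ hφ]
      split_ifs with he
      · subst he
        have e2 : ∏ q ∈ S, ∑ t ∈ range q, φ q t = ∏ q ∈ S, (q : ℝ) * ((k : ℝ) / (q - k))⁻¹ :=
          prod_congr rfl fun q hq => by simp only [φ, hq, if_true]; exact g2 q (hsub S hS hq)
        rw [union_self, e2, prod_mul_distrib, prod_inv_distrib]
        rw [union_self] at hQ
        have : (0 : ℝ) < ∏ q ∈ S, (q : ℝ) := by rw [← Nat.cast_prod]; exact_mod_cast hQ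
        push_cast
        rw [mul_div_cancel_left₀ _ this.ne']
      · obtain ⟨q, hq⟩ : ∃ q, ¬ (q ∈ S ↔ q ∈ S') := by
          by_contra hc
          exact he (Finset.ext fun q => by_contra fun h => hc ⟨q, h⟩)
        have hqU : q ∈ S ∪ S' := by
          rw [mem_union]; tauto
        rw [prod_eq_zero hqU, zero_div, mul_zero]
        by_cases h1 : q ∈ S
        · have h2 : q ∉ S' := by tauto
          simp only [φ, h1, h2, if_true, if_false, mul_one]
          exact g1 q (hU q hqU)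
        · have h2 : q ∈ S' := by tauto
          simp only [φ, h1, h2, if_true, if_false, one_mul]
          exact g1 q (hU q hqU)
    · calc _ ≤ 2 * ((z : ℝ) * z) * (z * z) := by gcongr
        _ = _ := by ring
  have h1 : (#{t ∈ range M | ∀ q ∈ P, ¬ bad q t} : ℝ) * G ^ 2 ≤
      ∑ t ∈ range M, (∑ S ∈ 𝒟, h S * ∏ q ∈ S, g q t) ^ 2 := by
    rw [← nsmul_eq_mul, ← sum_const]
    refine le_trans (le_of_eq (sum_congr rfl fun t ht => ?_))
      (sum_le_sum_of_subset_of_nonneg (filter_subset _ _) fun _ _ _ => sq_nonneg _)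
    congr 1
    refine sum_congr rfl fun S hS => ?_
    rw [prod_eq_one fun q hq => ?_, mul_one]
    exact if_neg ((mem_filter.mp ht).2 q (hsub S hS hq))
  have h2 : ∑ t ∈ range M, (∑ S ∈ 𝒟, h S * ∏ q ∈ S, g q t) ^ 2 ≤
      M * G + 2 * (z : ℝ) ^ 4 * G ^ 2 := by
    calc _ = ∑ S ∈ 𝒟, ∑ S' ∈ 𝒟, h S * h S' *
          ∑ t ∈ range M, (∏ q ∈ S, g q t) * ∏ q ∈ S', g q t := by
          simp only [sq, sum_mul_sum]
          simp only [mul_sum]
          rw [sum_comm]
          refine sum_congr rfl fun S _ => ?_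
          rw [sum_comm]
          exact sum_congr rfl fun S' _ => sum_congr rfl fun t _ => by ring
      _ ≤ ∑ S ∈ 𝒟, ∑ S' ∈ 𝒟, h S * h S' *
          ((if S = S' then M * (h S)⁻¹ else 0) + 2 * (z : ℝ) ^ 4) :=
          sum_le_sum fun S hS => sum_le_sum fun S' hS' =>
            mul_le_mul_of_nonneg_left (key S hS S' hS') (mul_pos (hpos S hS) (hpos S' hS')).le
      _ = _ := by
          simp only [mul_add, sum_add_distrib, mul_ite, mul_zero]
          congr 1
          · rw [hG, mul_sum]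
            refine sum_congr rfl fun S hS => ?_
            rw [sum_ite_eq, if_pos hS]
            have := (hpos S hS).ne'
            field_simp
          · simp only [← sum_mul, ← mul_sum]
            ring
  have h3 : (M / G + 2 * (z : ℝ) ^ 4) * G ^ 2 = M * G + 2 * (z : ℝ) ^ 4 * G ^ 2 := by
    field_simp
  exact le_of_mul_le_mul_right (h3 ▸ h1.trans h2) (by positivity)

end Pool.Agent.MP_a96b63_al
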