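import Pool.Agent.MP_a96b63_al.Sieve2

/-!
Sums of reciprocals of primes in intervals and progressions.
-/

set_option autoImplicit false

namespace Pool.Agent.MP_a96b63_al

open Finset

/-- The primes in the half-open interval from a (excluded) to b (included). -/
def PR (a b : ℕ) : Finset ℕ := (Ioc a b).filter Nat.Prime

lemma mem_PR {a b p : ℕ} : p ∈ PR a b ↔ a < p ∧ p ≤ b ∧ p.Prime := by
  simp [PR, and_assoc]

lemma sum_PR_add {a b c : ℕ} (h1 : a ≤ b) (h2 : b ≤ c) (f : ℕ → ℝ) :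
    ∑ p ∈ PR a c, f p = ∑ p ∈ PR a b, f p + ∑ p ∈ PR b c, f p := by
  simp only [PR, sum_filter]
  rw [sum_Ioc_consecutive _ h1 h2]

lemma block_count {x : ℕ} (hx : 10 ^ 9 ≤ x) : x / Real.log (4 * x) ≤ #(PR x (4 * x)) := by
  have hx' : (10 : ℝ) ^ 9 ≤ x := by exact_mod_cast hx
  have h1 := Chebyshev.theta_ge (4 * x)
  have h2 := Chebyshev.theta_le_log4_mul_x (x := x) (by positivity)
  have h3 : Chebyshev.theta (4 * x : ℕ) = Chebyshev.theta x + ∑ p ∈ PR x (4 * x), Real.log p := by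
    simp only [Chebyshev.theta, Nat.floor_natCast]
    exact sum_PR_add (Nat.zero_le x) (by omega) _
  have h4 : ∑ p ∈ PR x (4 * x), Real.log p ≤ #(PR x (4 * x)) * Real.log (4 * x) := by
    rw [← nsmul_eq_mul]
    refine sum_le_card_nsmul _ _ _ fun p hp => ?_
    obtain ⟨a1, a2, -⟩ := mem_PR.mp hp
    exact Real.log_le_log (by exact_mod_cast (by omega : 0 < p)) (by exact_mod_cast a2)
  rw [div_le_iff₀ (Real.log_pos (by linarith))]
  push_cast at h1 h3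
  set y : ℝ := 4 * x with hy
  have hy0 : 0 < y := by linarith
  set s := y ^ (1 / 4 : ℝ) with hs
  have hs0 : 0 < s := by positivity
  have hs4 : s ^ 4 = y := by
    rw [hs, ← Real.rpow_natCast, ← Real.rpow_mul hy0.le]; norm_num
  have hs1 : 145 ≤ s := by
    refine le_of_pow_le_pow_left₀ (n := 4) (by norm_num) hs0.le ?_
    rw [hs4]; linarith
  have h5 : Real.log y ≤ 4 * s := by
    have := Real.log_le_rpow_div hy0.le (show (0 : ℝ) < 1 / 4 by norm_num)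
    linarith
  have h6 : √y = s ^ 2 := by
    rw [← hs4, show s ^ 4 = (s ^ 2) ^ 2 by ring, Real.sqrt_sq (by positivity)]
  have h7 : Real.log (y + 1) ≤ 1 + 4 * s := by
    refine le_trans (Real.log_le_log (by linarith) (by linarith : y + 1 ≤ 2 * y)) ?_
    rw [Real.log_mul (by norm_num) hy0.ne']
    have := Real.log_two_lt_d9
    linarith
  have h8 : Real.log 4 = 2 * Real.log 2 := by
    rw [show (4 : ℝ) = 2 ^ 2 by norm_num, Real.log_pow]; norm_num
  have h9 := Real.log_two_gt_d9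
  have h10 : 2 * √y * Real.log y ≤ 8 * s ^ 3 := by
    rw [h6]
    calc 2 * s ^ 2 * Real.log y ≤ 2 * s ^ 2 * (4 * s) := by gcongr
      _ = _ := by ring
  have h11 : 1 + 4 * s ≤ 5 * s ^ 3 := by nlinarith [sq_nonneg s]
  have h12 : 145 * s ^ 3 ≤ y := by
    rw [← hs4, show s ^ 4 = s * s ^ 3 by ring]; gcongr
  rw [h8] at h2
  nlinarith

lemma weight_block {j : ℕ} (hj : 15 ≤ j) :
    1 / (8 * ((j : ℝ) + 1)) ≤ ∑ p ∈ PR (4 ^ j) (4 ^ (j + 1)), (p : ℝ)⁻¹ := by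
  have h1 := block_count (x := 4 ^ j)
    (le_trans (by norm_num) (Nat.pow_le_pow_right (by norm_num) hj))
  rw [← pow_succ'] at h1
  have h2 : (#(PR (4 ^ j) (4 ^ (j + 1))) : ℝ) * ((4 : ℝ) ^ (j + 1))⁻¹ ≤
      ∑ p ∈ PR (4 ^ j) (4 ^ (j + 1)), (p : ℝ)⁻¹ := by
    rw [← nsmul_eq_mul]
    refine card_nsmul_le_sum _ _ _ fun p hp => ?_
    obtain ⟨-, a2, a3⟩ := mem_PR.mp hp
    exact inv_anti₀ (by exact_mod_cast a3.pos) (by exact_mod_cast a2)
  refine le_trans ?_ ((mul_le_mul_of_nonneg_right h1 (by positivity)).trans h2)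
  push_cast
  rw [← pow_succ', Real.log_pow]
  have h3 : Real.log 4 ≤ 2 := by
    rw [show (4 : ℝ) = 2 ^ 2 by norm_num, Real.log_pow]
    have := Real.log_two_lt_d9
    push_cast; linarith
  have h4 : 0 < Real.log 4 := Real.log_pos (by norm_num)
  push_cast
  rw [pow_succ, show (4 : ℝ) ^ j / ((j + 1) * Real.log 4) * (4 ^ j * 4)⁻¹ =
    1 / (4 * Real.log 4 * (j + 1)) by field_simp]
  gcongr
  linarith

lemma weight_range {J : ℕ} (hJ : 15 ≤ J) (n : ℕ) :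
    n / (8 * ((J : ℝ) + n)) ≤ ∑ p ∈ PR (4 ^ J) (4 ^ (J + n)), (p : ℝ)⁻¹ := by
  induction n with
  | zero => simp [PR]
  | succ n ih =>
    rw [sum_PR_add (b := 4 ^ (J + n)) (Nat.pow_le_pow_right (by norm_num) (by omega))
      (Nat.pow_le_pow_right (by norm_num) (by omega))]
    have h1 := weight_block (j := J + n) (by omega)
    have hJ' : (15 : ℝ) ≤ J := by exact_mod_cast hJ
    have h2 : n / (8 * ((J : ℝ) + n + 1)) ≤ n / (8 * ((J : ℝ) + n)) :=
      div_le_div_of_nonneg_left (by positivity) (by positivity) (by linarith)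
    rw [← add_assoc]
    push_cast at h1 ⊢
    rw [← add_assoc, add_div]
    linarith

lemma weight_inner {J : ℕ} (hJ : 15 ≤ J) (i : ℕ) :
    i / 16 ≤ ∑ p ∈ PR (4 ^ J) (4 ^ (2 ^ i * J)), (p : ℝ)⁻¹ := by
  induction i with
  | zero => simp [PR]
  | succ i ih =>
    have h0 : J ≤ 2 ^ i * J := Nat.le_mul_of_pos_left _ (by positivity)
    have e : 2 ^ (i + 1) * J = 2 ^ i * J + 2 ^ i * J := by ring
    rw [e, sum_PR_add (b := 4 ^ (2 ^ i * J)) (Nat.pow_le_pow_right (by norm_num) h0)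
      (Nat.pow_le_pow_right (by norm_num) (by omega))]
    have h1 := weight_range (J := 2 ^ i * J) (by omega) (2 ^ i * J)
    have h2 : (0 : ℝ) < (2 ^ i * J : ℕ) := by exact_mod_cast (by omega : 0 < 2 ^ i * J)
    have h3 : ((2 ^ i * J : ℕ) : ℝ) / (8 * ((2 ^ i * J : ℕ) + (2 ^ i * J : ℕ))) = 1 / 16 := by
      field_simp; ring
    rw [h3] at h1
    push_cast
    linarith

/-- A layer of primes. -/
def Lay (J : ℕ) : Finset ℕ := PR (4 ^ (2 * J)) (4 ^ (3 * J))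

lemma weight_Lay {J : ℕ} (hJ : 15 ≤ J) : 1 / 24 ≤ ∑ p ∈ Lay J, (p : ℝ)⁻¹ := by
  have h1 := weight_range (J := 2 * J) (by omega) J
  have h2 : (0 : ℝ) < J := by exact_mod_cast (by omega : 0 < J)
  rw [show 2 * J + J = 3 * J by ring] at h1
  refine le_trans (le_of_eq ?_) h1
  push_cast; field_simp; ring

lemma harm_le (n : ℕ) : ∑ r ∈ Icc 1 n, (r : ℝ)⁻¹ ≤ 1 + Real.log n := by
  have := harmonic_le_one_add_log n
  rw [harmonic_eq_sum_Icc] at this
  push_cast at this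
  exact this

lemma sum_inv_le (S : Finset ℕ) {n0 d T : ℕ} (hd : 0 < d)
    (h : ∀ n ∈ S, n0 < n ∧ n ≤ T ∧ d ∣ n - n0) :
    ∑ n ∈ S, (n : ℝ)⁻¹ ≤ (1 + Real.log T) / d := by
  have hd' : (0 : ℝ) < d := by exact_mod_cast hd
  have hpos : ∀ n ∈ S, 0 < (n - n0) / d := fun n hn =>
    Nat.div_pos (Nat.le_of_dvd (by have := (h n hn).1; omega) (h n hn).2.2) hd
  calc _ ≤ ∑ n ∈ S, (((n - n0) / d : ℕ) : ℝ)⁻¹ / d := by
        refine sum_le_sum fun n hn => ?_
        rw [div_eq_mul_inv, ← mul_inv, ← Nat.cast_mul, Nat.div_mul_cancel (h n hn).2.2]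
        have := (h n hn).1
        exact inv_anti₀ (by exact_mod_cast (by omega : 0 < n - n0)) (by exact_mod_cast Nat.sub_le _ _)
    _ = (∑ j ∈ S.image fun n => (n - n0) / d, (j : ℝ)⁻¹) / d := by
        rw [sum_image, sum_div]
        intro a ha b hb e
        have e1 := Nat.div_mul_cancel (h a ha).2.2
        have e2 := Nat.div_mul_cancel (h b hb).2.2
        have e3 : (a - n0) / d = (b - n0) / d := e
        rw [e3, e2] at e1
        have := (h a ha).1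
        have := (h b hb).1
        omega
    _ ≤ _ := by
        refine div_le_div_of_nonneg_right (le_trans (sum_le_sum_of_subset_of_nonneg ?_
          fun _ _ _ => by positivity) (harm_le T)) hd'.le
        intro j hj
        obtain ⟨n, hn, rfl⟩ := mem_image.mp hj
        exact mem_Icc.mpr ⟨hpos n hn,
          (Nat.div_le_self _ _).trans ((Nat.sub_le _ _).trans (h n hn).2.1)⟩

lemma class_weight (S : Finset ℕ) {X d T : ℕ} (hX : 0 < X) (hd : 0 < d)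
    (h : ∀ n ∈ S, X < n ∧ n ≤ T) (hc : ∀ n ∈ S, ∀ n' ∈ S, n ≡ n' [MOD d]) :
    ∑ n ∈ S, (n : ℝ)⁻¹ ≤ (X : ℝ)⁻¹ + (1 + Real.log T) / d := by
  rcases S.eq_empty_or_nonempty with rfl | hS
  · have := Real.log_natCast_nonneg T
    rw [sum_empty]; positivity
  have h0 := S.min'_mem hS
  rw [← add_sum_erase _ _ h0]
  refine add_le_add (inv_anti₀ (by exact_mod_cast hX) (by exact_mod_cast (h _ h0).1.le))
    (sum_inv_le _ (n0 := S.min' hS) hd fun n hn => ?_)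
  obtain ⟨h1, h2⟩ := mem_erase.mp hn
  have h3 := S.min'_le n h2
  exact ⟨lt_of_le_of_ne h3 h1.symm, (h n h2).2, (Nat.modEq_iff_dvd' h3).mp (hc _ h0 n h2)⟩

lemma bt_block {J j d : ℕ} (hJ : 8 ≤ J) (hj : 2 * J ≤ j) (hd : 0 < d) (hdJ : d ≤ 4 ^ J)
    (S : Finset ℕ) (hS : S ⊆ PR (4 ^ j) (4 ^ (j + 1))) (hc : ∀ n ∈ S, ∀ n' ∈ S, n ≡ n' [MOD d]) :
    ∑ n ∈ S, (n : ℝ)⁻¹ ≤ 62 * hh d / (d * J) := by
  have h0 := one_le_hh d
  have hd' : (0 : ℝ) < d := by exact_mod_cast hd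
  have hJ' : (8 : ℝ) ≤ J := by exact_mod_cast hJ
  rcases S.eq_empty_or_nonempty with rfl | ⟨n0, hn0⟩
  · rw [sum_empty]; positivity
  have hw : 2 ≤ 2 ^ (J / 4) := le_trans (by norm_num)
    (Nat.pow_le_pow_right (by norm_num) (show 1 ≤ J / 4 by omega))
  have h1 := sieve_one hd.ne' hw (n0 % d) (4 ^ (j + 1) / d + 1)
  have h2 : #S ≤ #{t ∈ range (4 ^ (j + 1) / d + 1) |
      (n0 % d + d * t).Prime ∧ 2 ^ (J / 4) < n0 % d + d * t} := by
    have he : ∀ n ∈ S, n0 % d + d * (n / d) = n := fun n hn => by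
      rw [show n0 % d = n % d from hc n0 hn0 n hn, Nat.mod_add_div]
    refine card_le_card_of_injOn (fun n => n / d) (fun n hn => ?_) fun a ha b hb e => ?_
    · obtain ⟨a1, a2, a3⟩ := mem_PR.mp (hS hn)
      simp only [coe_filter, mem_range, Set.mem_ofPred_eq, he n hn]
      refine ⟨Nat.lt_succ_of_le (Nat.div_le_div_right a2), a3, lt_of_le_of_lt ?_ a1⟩
      rw [show 4 = 2 ^ 2 by norm_num, ← pow_mul]
      exact Nat.pow_le_pow_right (by norm_num) (by omega)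
    · rw [← he a ha, ← he b hb, show a / d = b / d from e]
  have h3 : ∑ n ∈ S, (n : ℝ)⁻¹ ≤ #S * ((4 : ℝ) ^ j)⁻¹ := by
    rw [← nsmul_eq_mul]
    refine sum_le_card_nsmul _ _ _ fun n hn => ?_
    exact inv_anti₀ (by positivity) (by exact_mod_cast (mem_PR.mp (hS hn)).1.le)
  have h4 : (4 : ℝ) ^ J * d ≤ 4 ^ j := by
    have : 4 ^ J * d ≤ 4 ^ j := (Nat.mul_le_mul_left _ hdJ).trans (by
      rw [← pow_add]; exact Nat.pow_le_pow_right (by norm_num) (by omega))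
    exact_mod_cast this
  have h4' : (1 : ℝ) ≤ 4 ^ J := one_le_pow₀ (by norm_num)
  have h5 : ((4 ^ (j + 1) / d + 1 : ℕ) : ℝ) ≤ 5 * (4 ^ j / d) := by
    have a1 : ((4 ^ (j + 1) / d : ℕ) : ℝ) ≤ (4 ^ (j + 1) : ℕ) / d := Nat.cast_div_le
    have a2 : (1 : ℝ) ≤ 4 ^ j / d := by rw [le_div_iff₀ hd']; nlinarith
    push_cast at a1 ⊢
    rw [pow_succ (4 : ℝ), mul_comm, mul_div_assoc] at a1
    linarith
  have h6 : (J : ℝ) / 12 ≤ Real.log (2 ^ (J / 4) : ℕ) := by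
    push_cast
    rw [Real.log_pow]
    have a1 : (J : ℝ) ≤ 8 * (J / 4 : ℕ) := by exact_mod_cast (by omega : J ≤ 8 * (J / 4))
    have := Real.log_two_gt_d9
    nlinarith
  have h7 : ((2 ^ (J / 4) : ℕ) : ℝ) ^ 4 ≤ 4 ^ j / (d * J) := by
    have a1 : (2 ^ (J / 4)) ^ 4 * J ≤ 4 ^ J := by
      rw [show 4 ^ J = 2 ^ J * 2 ^ J by rw [← mul_pow]; rfl, ← pow_mul]
      exact Nat.mul_le_mul (Nat.pow_le_pow_right (by norm_num) (by omega)) Nat.lt_two_pow_self.le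
    have a2 : ((2 ^ (J / 4) : ℕ) : ℝ) ^ 4 * J ≤ 4 ^ J := by exact_mod_cast a1
    rw [le_div_iff₀ (by positivity)]
    nlinarith
  have h8 : (#S : ℝ) ≤ 62 * hh d / (d * J) * 4 ^ j := by
    refine (Nat.cast_le.mpr h2).trans (h1.trans ?_)
    calc _ ≤ 5 * (4 ^ j / d) * hh d / (J / 12) + 2 * (4 ^ j / (d * J) * hh d) := by
          gcongr
          exact h7.trans (le_mul_of_one_le_right (by positivity) h0)
      _ = _ := by field_simp; ring
  refine h3.trans ?_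
  rw [mul_inv_le_iff₀ (by positivity)]
  exact h8

/-- The Brun-Titchmarsh bound with weights. -/
theorem bt {J d : ℕ} (hJ : 8 ≤ J) (hd : 0 < d) (hdJ : d ≤ 4 ^ J) (S : Finset ℕ) (hS : S ⊆ Lay J)
    (hc : ∀ n ∈ S, ∀ n' ∈ S, n ≡ n' [MOD d]) : ∑ n ∈ S, (n : ℝ)⁻¹ ≤ 62 * hh d / d := by
  have h1 : ∀ i, ∑ n ∈ PR (4 ^ (2 * J)) (4 ^ (2 * J + i)), (if n ∈ S then (n : ℝ)⁻¹ else 0) ≤
      i * (62 * hh d / (d * J)) := by
    intro i
    induction i with
    | zero => simp [PR]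
    | succ i ih =>
      rw [sum_PR_add (b := 4 ^ (2 * J + i)) (Nat.pow_le_pow_right (by norm_num) (by omega))
        (Nat.pow_le_pow_right (by norm_num) (by omega)), ← add_assoc]
      have := bt_block hJ (j := 2 * J + i) (by omega) hd hdJ
        ((PR (4 ^ (2 * J + i)) (4 ^ (2 * J + i + 1))).filter (· ∈ S)) (filter_subset _ _)
        fun n hn n' hn' => hc n (mem_filter.mp hn).2 n' (mem_filter.mp hn').2
      rw [sum_filter] at this
      push_cast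
      linarith
  have h2 := h1 J
  rw [show 2 * J + J = 3 * J by ring, sum_ite_mem, ← Lay, inter_eq_right.mpr hS] at h2
  have hJ' : (J : ℝ) ≠ 0 := by exact_mod_cast (by omega : J ≠ 0)
  refine h2.trans (le_of_eq ?_)
  field_simp

lemma hh_one : hh 1 = 1 := by simp [hh]

lemma weight_Lay_le {J : ℕ} (hJ : 8 ≤ J) : ∑ n ∈ Lay J, (n : ℝ)⁻¹ ≤ 62 := by
  have := bt hJ one_pos (Nat.one_le_pow _ _ (by norm_num)) _ Subset.rfl
    fun n _ n' _ => Nat.modEq_one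
  simpa [hh_one] using this

lemma hh_mono {m n : ℕ} (h : m ∣ n) (hn : n ≠ 0) : hh m ≤ hh n :=
  prod_le_hh (Nat.primeFactors_mono h hn)

lemma modEq_of_dvd {d a κ x x' : ℕ} {s : ℤ} (hd : 0 < d) (h : (d : ℤ) ∣ (x + κ) * a + s)
    (h' : (d : ℤ) ∣ (x' + κ) * a + s) : x ≡ x' [MOD d / d.gcd a] := by
  refine Nat.ModEq.cancel_right_div_gcd hd (Nat.modEq_iff_dvd.mpr ?_)
  have := dvd_sub h' h
  push_cast
  rwa [show ((x' : ℤ) + κ) * a + s - ((x + κ) * a + s) = x' * a - x * a by ring] at this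

theorem one_layer {J d : ℕ} (hJ : 8 ≤ J) (hd : 0 < d) (hdJ : d ≤ 4 ^ J) (a κ : ℕ) (s : ℤ) :
    ∑ x ∈ (Lay J).filter fun x : ℕ => (d : ℤ) ∣ (x + κ) * a + s, (x : ℝ)⁻¹ ≤ 62 * hh d * d.gcd a / d := by
  have hg := Nat.gcd_pos_of_pos_left a hd
  have h1 : 0 < d / d.gcd a := Nat.div_pos (Nat.gcd_le_left a hd) hg
  refine (bt hJ h1 ((Nat.div_le_self _ _).trans hdJ) _ (filter_subset _ _) fun n hn n' hn' =>
    modEq_of_dvd hd (mem_filter.mp hn).2 (mem_filter.mp hn').2).trans ?_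
  have h2 := hh_mono (Nat.div_dvd_of_dvd (Nat.gcd_dvd_left d a)) hd.ne'
  rw [Nat.cast_div (Nat.gcd_dvd_left d a) (by exact_mod_cast hg.ne'), div_div_eq_mul_div]
  gcongr

end Pool.Agent.MP_a96b63_al
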